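import Pool.Agent.ConvF.Faces

/-!
# Chains of faces in finite dimension

For a set `F` let `V F = vectorSpan ℝ F` (the span of the differences of points of `F`). If `F ⊊ F'`
are nonempty faces of the convex set `C`, then `V F ⊊ V F'`:
suppose `V F = V F'`, let `y ∈ F'`, fix `a₀ ∈ F`. The set `S` of the vectors `v` such that there are
`p ∈ F` and `ε > 0` with `p - ε v ∈ F` and `p + ε v ∈ F` is a subspace, when `F` is convex (use
midpoints), and contains the differences of points of `F`. So `v = y - a₀` is in `S`; with the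
corresponding `p` and `ε`, the point `z = p - ε v` satisfies `z + ε y = p + ε a₀`, so that the point
`(p + ε a₀)/(1+ε)` of `F` is an inner point of the segment from `z` to `y`, both in `C`, and `y ∈ F`
since `F` is a face. Hence `F' ⊆ F`.
In finite dimension the dimensions `finrank (V (F i))` of a chain therefore strictly decrease.
-/

namespace Pool.Agent.ConvF

open Finset

section

variable {E : Type*} [AddCommGroup E] [Module ℝ E]

/-- The subspace of the directions of a convex set. -/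
def dirS (F : Set E) (hF : Convex ℝ F) (hne : F.Nonempty) : Submodule ℝ E where
  carrier := {v | ∃ p ∈ F, ∃ ε : ℝ, 0 < ε ∧ p + ε • v ∈ F ∧ p - ε • v ∈ F}
  zero_mem' := by
    obtain ⟨p, hp⟩ := hne
    exact ⟨p, hp, 1, one_pos, by simpa using hp, by simpa using hp⟩
  smul_mem' := by
    rintro c v ⟨p, hp, ε, hε, h1, h2⟩
    rcases lt_trichotomy c 0 with hc | hc | hc
    · have hc' : c ≠ 0 := hc.ne
      refine ⟨p, hp, ε / (-c), div_pos hε (neg_pos.2 hc), ?_, ?_⟩
      · have h : p + (ε / -c) • c • v = p - ε • v := by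
          rw [smul_smul, sub_eq_add_neg, ← neg_smul]
          congr 2
          rw [div_neg, neg_mul, div_mul_cancel₀ _ hc']
        rw [h]; exact h2
      · have h : p - (ε / -c) • c • v = p + ε • v := by
          rw [smul_smul, sub_eq_add_neg, ← neg_smul]
          congr 2
          rw [div_neg, neg_mul, neg_neg, div_mul_cancel₀ _ hc']
        rw [h]; exact h1
    · subst hc
      exact ⟨p, hp, 1, one_pos, by simpa using hp, by simpa using hp⟩
    · refine ⟨p, hp, ε / c, div_pos hε hc, ?_, ?_⟩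
      · rw [smul_smul, div_mul_cancel₀ _ hc.ne']; exact h1
      · rw [smul_smul, div_mul_cancel₀ _ hc.ne']; exact h2
  add_mem' := by
    rintro v w ⟨p, hp, ε, hε, h1, h2⟩ ⟨q, hq, δ, hδ, h3, h4⟩
    have key : ∀ {p v : E} {ε ρ : ℝ}, p ∈ F → 0 < ρ → ρ ≤ ε → p + ε • v ∈ F → p + ρ • v ∈ F := by
      intro p v ε ρ hp hρ hle h
      have hε : 0 < ε := hρ.trans_le hle
      have h5 := hF hp h (a := 1 - ρ / ε) (b := ρ / ε)
        (sub_nonneg.2 ((div_le_one hε).2 hle)) (div_nonneg hρ.le hε.le) (by ring)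
      have h6 : (1 - ρ / ε) • p + (ρ / ε) • (p + ε • v) = p + ρ • v := by
        rw [smul_add, smul_smul, div_mul_cancel₀ _ hε.ne', ← add_assoc, ← add_smul]
        simp
      rwa [h6] at h5
    have hρ : 0 < min ε δ := lt_min hε hδ
    have e1 := key hp hρ (min_le_left _ _) h1
    have e2 := key (v := -v) hp hρ (min_le_left _ _) (by rw [smul_neg, ← sub_eq_add_neg]; exact h2)
    have e3 := key hq hρ (min_le_right _ _) h3
    have e4 := key (v := -w) hq hρ (min_le_right _ _)
      (by rw [smul_neg, ← sub_eq_add_neg]; exact h4)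
    have half : (1 / 2 : ℝ) + 1 / 2 = 1 := by norm_num
    refine ⟨(1 / 2 : ℝ) • p + (1 / 2 : ℝ) • q, hF hp hq (by norm_num) (by norm_num) half,
      min ε δ / 2, half_pos hρ, ?_, ?_⟩
    · have h7 := hF e1 e3 (a := 1 / 2) (b := 1 / 2) (by norm_num) (by norm_num) half
      have h8 : (1 / 2 : ℝ) • (p + min ε δ • v) + (1 / 2 : ℝ) • (q + min ε δ • w)
          = (1 / 2 : ℝ) • p + (1 / 2 : ℝ) • q + (min ε δ / 2) • (v + w) := by
        module
      rwa [h8] at h7
    · have h7 := hF e2 e4 (a := 1 / 2) (b := 1 / 2) (by norm_num) (by norm_num) half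
      have h8 : (1 / 2 : ℝ) • (p + min ε δ • (-v)) + (1 / 2 : ℝ) • (q + min ε δ • (-w))
          = (1 / 2 : ℝ) • p + (1 / 2 : ℝ) • q - (min ε δ / 2) • (v + w) := by
        module
      rwa [h8] at h7

theorem vectorSpan_le_dirS {F : Set E} (hF : Convex ℝ F) (hne : F.Nonempty) :
    vectorSpan ℝ F ≤ dirS F hF hne := by
  rw [vectorSpan, Submodule.span_le]
  rintro v hv
  obtain ⟨x, hx, y, hy, rfl⟩ := Set.mem_vsub.1 hv
  refine ⟨(1 / 2 : ℝ) • x + (1 / 2 : ℝ) • y, hF hx hy (by norm_num) (by norm_num) (by norm_num),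
    1 / 2, by norm_num, ?_, ?_⟩
  · have h : (1 / 2 : ℝ) • x + (1 / 2 : ℝ) • y + (1 / 2 : ℝ) • (x -ᵥ y) = x := by
      rw [vsub_eq_sub]; module
    rw [h]; exact hx
  · have h : (1 / 2 : ℝ) • x + (1 / 2 : ℝ) • y - (1 / 2 : ℝ) • (x -ᵥ y) = y := by
      rw [vsub_eq_sub]; module
    rw [h]; exact hy

theorem IsFace.vectorSpan_lt {C F F' : Set E} (hF : IsFace C F) (hF' : IsFace C F')
    (hne : F.Nonempty) (hlt : F < F') : vectorSpan ℝ F < vectorSpan ℝ F' := by
  refine lt_of_le_of_ne (vectorSpan_mono ℝ hlt.le) fun heq => ?_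
  refine hlt.not_ge fun y hy => ?_
  obtain ⟨a, ha⟩ := hne
  have h1 : y - a ∈ vectorSpan ℝ F := by
    rw [heq, ← vsub_eq_sub]
    exact vsub_mem_vectorSpan ℝ hy (hlt.le ha)
  obtain ⟨p, hp, ε, hε, -, h2⟩ := vectorSpan_le_dirS hF.2.1 ⟨a, ha⟩ h1
  have hpos : (0 : ℝ) < 1 + ε := by linarith
  have h3 : (1 / (1 + ε)) • p + (ε / (1 + ε)) • a ∈ F :=
    hF.2.1 hp ha (by positivity) (by positivity) (by field_simp)
  refine (hF.2.2 (p - ε • (y - a)) (hF.1 h2) y (hF'.1 hy) _ h3
    ⟨1 / (1 + ε), ε / (1 + ε), by positivity, by positivity, by field_simp, ?_⟩).2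
  have h4 : (1 / (1 + ε)) * ε = ε / (1 + ε) := by ring
  rw [← h4]
  module

end

theorem chainsLE_finrank (E : Type*) [AddCommGroup E] [Module ℝ E] [FiniteDimensional ℝ E]
    (C : Set E) (hC : Convex ℝ C) : ChainsLE C (Module.finrank ℝ E) := by
  intro k F hF hne hanti
  have h1 : ∀ i j : Fin (k + 1), i < j →
      Module.finrank ℝ (vectorSpan ℝ (F j)) < Module.finrank ℝ (vectorSpan ℝ (F i)) :=
    fun i j hij => Submodule.finrank_lt_finrank_of_lt
      ((hF j).vectorSpan_lt (hF i) (hne j) (hanti hij))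
  have h2 : Function.Injective fun i : Fin (k + 1) =>
      (⟨Module.finrank ℝ (vectorSpan ℝ (F i)), Nat.lt_succ_of_le (Submodule.finrank_le _)⟩ :
        Fin (Module.finrank ℝ E + 1)) := by
    intro i j hij
    have h3 := congrArg Fin.val hij
    simp only at h3
    rcases lt_trichotomy i j with h | h | h
    · exact absurd h3 (h1 i j h).ne'
    · exact h
    · exact absurd h3 (h1 j i h).ne
  have h4 := Fintype.card_le_of_injective _ h2
  simpa using h4

end Pool.Agent.ConvF
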