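import Pool.Agent.ConvF.Faces

/-!
# Chains of faces of the cone of positive semidefinite matrices

`C` = positive semidefinite real `k × k` matrices. For a nonempty face `F` let
`K F = {x | ∀ M ∈ F, M *ᵥ x = 0}`, a subspace of `Fin k → ℝ`. Claim: if `F ⊆ F'` are nonempty faces
with `K F = K F'` then `F = F'`. Proof: let `M ∈ F'`. By finite dimension there are finitely many
`M₁, …, M_r ∈ F` with `⋂ ker Mᵢ = K F`; their average `P ∈ F` has `ker P = ⋂ ker Mᵢ = K F`
(`xᵀPx = 0` forces `xᵀMᵢx = 0`, hence `Mᵢ x = 0`). Since `ker P = K F = K F' ⊆ ker M`, there is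
`ε > 0` such that `(1+ε) P - ε M` is positive semidefinite (on the orthogonal complement of `ker P`
the form `xᵀPx` is at least `c ‖x‖²` with `c > 0` by compactness of the unit sphere, and
`xᵀMx ≤ C‖x‖²`; on `ker P` both matrices vanish). So `P` is an inner point of the segment from `M` to
`(1+ε) P - ε M`, and `M ∈ F`. Therefore along a strictly decreasing chain `F₀ ⊋ ⋯ ⊋ F_m` of nonempty
faces the subspaces `K (F i)` strictly increase, and `m ≤ k`.
-/

namespace Pool.Agent.ConvF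

open Finset

open Matrix in
/-- A real positive semidefinite matrix is `Bᵀ * B`. -/
theorem psdAux_factor {k : ℕ} {P : Matrix (Fin k) (Fin k) ℝ} (hP : P.PosSemidef) :
    ∃ B : Matrix (Fin k) (Fin k) ℝ, P = Bᴴ * B := by
  open scoped MatrixOrder in
  obtain ⟨B, hB⟩ := CStarAlgebra.nonneg_iff_eq_star_mul_self.mp hP.nonneg
  exact ⟨B, hB⟩

open Matrix in
theorem psdAux_mulVec_eq_zero {k : ℕ} (B : Matrix (Fin k) (Fin k) ℝ) (x : Fin k → ℝ) :
    (Bᴴ * B) *ᵥ x = 0 ↔ B *ᵥ x = 0 := by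
  constructor
  · intro h
    have h1 : x ⬝ᵥ ((Bᴴ * B) *ᵥ x) = 0 := by rw [h, dotProduct_zero]
    rw [← Matrix.mulVec_mulVec, dotProduct_mulVec, Matrix.conjTranspose_eq_transpose_of_trivial,
      Matrix.vecMul_transpose] at h1
    exact dotProduct_self_eq_zero.1 h1
  · intro h
    rw [← Matrix.mulVec_mulVec, h, mulVec_zero]

open Matrix in
/-- Factorisation through the kernel. -/
theorem psdAux_exists_mul {k : ℕ} (A B : Matrix (Fin k) (Fin k) ℝ)
    (h : ∀ x, B *ᵥ x = 0 → A *ᵥ x = 0) : ∃ N : Matrix (Fin k) (Fin k) ℝ, A = N * B := by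
  have hs := LinearMap.exists_rightInverse_of_surjective (Matrix.toLin' B).rangeRestrict
    (LinearMap.range_rangeRestrict _)
  obtain ⟨s, hs⟩ := hs
  obtain ⟨s', hs'⟩ := s.exists_extend
  refine ⟨LinearMap.toMatrix' ((Matrix.toLin' A) ∘ₗ s'), ?_⟩
  have key : ∀ x, A *ᵥ x = A *ᵥ (s' (B *ᵥ x)) := by
    intro x
    have h1 : B *ᵥ (s' (B *ᵥ x)) = B *ᵥ x := by
      have h2 : s' (B *ᵥ x) = s ((Matrix.toLin' B).rangeRestrict x) := by
        rw [← hs']
        rfl
      have h3 := congrArg Subtype.val (LinearMap.congr_fun hs ((Matrix.toLin' B).rangeRestrict x))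
      rw [h2]
      exact h3
    have h4 : B *ᵥ (x - s' (B *ᵥ x)) = 0 := by rw [mulVec_sub, h1, sub_self]
    have h5 := h _ h4
    rw [mulVec_sub, sub_eq_zero] at h5
    exact h5
  apply Matrix.toLin'.injective
  rw [Matrix.toLin'_mul, Matrix.toLin'_toMatrix']
  ext1
  refine LinearMap.ext fun y => ?_
  simp only [LinearMap.comp_apply, Matrix.toLin'_apply]
  exact key _

open Matrix in
/-- `C · 1 - Nᵀ N` is positive semidefinite for `C = ∑ N i j ^ 2`. -/
theorem psdAux_bound {k : ℕ} (N : Matrix (Fin k) (Fin k) ℝ) :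
    ∃ C : ℝ, 0 ≤ C ∧ (C • (1 : Matrix (Fin k) (Fin k) ℝ) - Nᴴ * N).PosSemidef := by
  refine ⟨∑ i, ∑ j, N i j ^ 2, by positivity, ?_⟩
  refine Matrix.PosSemidef.of_dotProduct_mulVec_nonneg ?_ ?_
  · refine Matrix.IsHermitian.sub ?_ (Matrix.isHermitian_conjTranspose_mul_self N)
    rw [Matrix.IsHermitian, Matrix.conjTranspose_smul, Matrix.conjTranspose_one, star_trivial]
  · intro x
    rw [sub_mulVec, dotProduct_sub, smul_mulVec, one_mulVec, dotProduct_smul,
      ← Matrix.mulVec_mulVec, dotProduct_mulVec _ Nᴴ, star_trivial,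
      Matrix.conjTranspose_eq_transpose_of_trivial, Matrix.vecMul_transpose, sub_nonneg, smul_eq_mul]
    simp only [dotProduct, mulVec]
    rw [Finset.sum_mul]
    refine Finset.sum_le_sum fun i _ => ?_
    have h := Finset.sum_mul_sq_le_sq_mul_sq Finset.univ (fun j => N i j) x
    calc (∑ j, N i j * x j) * (∑ j, N i j * x j) = (∑ j, N i j * x j) ^ 2 := by ring
      _ ≤ _ := h
      _ = (∑ j, N i j ^ 2) * ∑ j, x j * x j := by
        congr 1
        refine Finset.sum_congr rfl fun j _ => ?_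
        ring

open Matrix in
/-- If `ker P ≤ ker M` then `(1 + ε) P - ε M` is positive semidefinite for some `ε > 0`. -/
theorem psdAux_exists_eps {k : ℕ} {P M : Matrix (Fin k) (Fin k) ℝ} (hP : P.PosSemidef)
    (hM : M.PosSemidef) (h : ∀ x, P *ᵥ x = 0 → M *ᵥ x = 0) :
    ∃ ε : ℝ, 0 < ε ∧ ((1 + ε) • P - ε • M).PosSemidef := by
  obtain ⟨B, rfl⟩ := psdAux_factor hP
  obtain ⟨A, rfl⟩ := psdAux_factor hM
  obtain ⟨N, rfl⟩ := psdAux_exists_mul A B (fun x hx =>
    (psdAux_mulVec_eq_zero A x).1 (h x ((psdAux_mulVec_eq_zero B x).2 hx)))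
  obtain ⟨C, hC, hpos⟩ := psdAux_bound N
  refine ⟨1 / (C + 1), by positivity, ?_⟩
  set ε : ℝ := 1 / (C + 1) with hε
  have hε0 : 0 < ε := by positivity
  have hεC : ε * C ≤ 1 := by
    rw [hε, one_div, inv_mul_le_iff₀ (by positivity)]
    linarith
  have e : (1 + ε) • (Bᴴ * B) - ε • ((N * B)ᴴ * (N * B)) =
      Bᴴ * ((1 + ε - ε * C) • (1 : Matrix (Fin k) (Fin k) ℝ) +
        ε • (C • (1 : Matrix (Fin k) (Fin k) ℝ) - Nᴴ * N)) * B := by
    have e1 : (N * B)ᴴ * (N * B) = Bᴴ * (Nᴴ * N) * B := by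
      rw [Matrix.conjTranspose_mul]
      simp only [Matrix.mul_assoc]
    rw [e1, Matrix.mul_add, Matrix.add_mul, smul_sub, Matrix.mul_sub, Matrix.sub_mul, smul_smul]
    simp only [Matrix.mul_smul, Matrix.smul_mul, Matrix.mul_one]
    module
  rw [e]
  refine Matrix.PosSemidef.conjTranspose_mul_mul_same ?_ B
  exact (Matrix.PosSemidef.one.smul (by linarith)).add (hpos.smul hε0.le)

open Matrix in
/-- The dimension of the kernel. -/
noncomputable def psdAuxKer {k : ℕ} (P : Matrix (Fin k) (Fin k) ℝ) : ℕ :=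
  Module.finrank ℝ (LinearMap.ker (Matrix.toLin' P))

theorem psdAuxKer_le {k : ℕ} (P : Matrix (Fin k) (Fin k) ℝ) : psdAuxKer P ≤ k := by
  refine (Submodule.finrank_le _).trans ?_
  simp

open Matrix in
/-- A face has a point with the smallest kernel. -/
theorem psdAux_exists_min {k : ℕ} {F : Set (Matrix (Fin k) (Fin k) ℝ)}
    (hF : IsFace {M : Matrix (Fin k) (Fin k) ℝ | M.PosSemidef} F) (hne : F.Nonempty) :
    ∃ P ∈ F, ∀ M ∈ F, ∀ x, P *ᵥ x = 0 → M *ᵥ x = 0 := by
  obtain ⟨P, hP, hmin⟩ := WellFounded.has_min (measure (psdAuxKer (k := k))).wf F hne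
  refine ⟨P, hP, fun M hM x hx => ?_⟩
  have hP' : P.PosSemidef := hF.1 hP
  have hM' : M.PosSemidef := hF.1 hM
  set Q : Matrix (Fin k) (Fin k) ℝ := (1 / 2 : ℝ) • P + (1 / 2 : ℝ) • M with hQ
  have hQF : Q ∈ F := hF.2.1 hP hM (by norm_num) (by norm_num) (by norm_num)
  have hker : ∀ y, Q *ᵥ y = 0 → P *ᵥ y = 0 ∧ M *ᵥ y = 0 := by
    intro y hy
    have h1 : y ⬝ᵥ (Q *ᵥ y) = 0 := by rw [hy, dotProduct_zero]
    rw [hQ, add_mulVec, smul_mulVec, smul_mulVec, dotProduct_add, dotProduct_smul,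
      dotProduct_smul, smul_eq_mul, smul_eq_mul] at h1
    have h2 := hP'.dotProduct_mulVec_nonneg y
    have h3 := hM'.dotProduct_mulVec_nonneg y
    rw [star_trivial] at h2 h3
    have h4 := (hP'.dotProduct_mulVec_zero_iff y)
    have h5 := (hM'.dotProduct_mulVec_zero_iff y)
    rw [star_trivial] at h4 h5
    exact ⟨h4.1 (by linarith), h5.1 (by linarith)⟩
  have hle : LinearMap.ker (Matrix.toLin' Q) ≤ LinearMap.ker (Matrix.toLin' P) := by
    intro y hy
    rw [LinearMap.mem_ker, Matrix.toLin'_apply] at hy ⊢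
    exact (hker y hy).1
  have hfin : Module.finrank ℝ (LinearMap.ker (Matrix.toLin' P)) ≤
      Module.finrank ℝ (LinearMap.ker (Matrix.toLin' Q)) := by
    have := hmin Q hQF
    change ¬ (psdAuxKer Q < psdAuxKer P) at this
    exact not_lt.1 this
  have heq := Submodule.eq_of_le_of_finrank_le hle hfin
  have hx' : x ∈ LinearMap.ker (Matrix.toLin' Q) := by
    rw [heq, LinearMap.mem_ker, Matrix.toLin'_apply]
    exact hx
  rw [LinearMap.mem_ker, Matrix.toLin'_apply] at hx'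
  exact (hker x hx').2

open Matrix in
theorem psdAux_lt {k : ℕ} {F G : Set (Matrix (Fin k) (Fin k) ℝ)}
    (hF : IsFace {M : Matrix (Fin k) (Fin k) ℝ | M.PosSemidef} F)
    (hG : IsFace {M : Matrix (Fin k) (Fin k) ℝ | M.PosSemidef} G) (hlt : G < F)
    {P P' : Matrix (Fin k) (Fin k) ℝ} (hP' : P' ∈ G)
    (hmin : ∀ M ∈ F, ∀ x, P *ᵥ x = 0 → M *ᵥ x = 0) : psdAuxKer P < psdAuxKer P' := by
  by_contra hcon
  push Not at hcon
  have hle : LinearMap.ker (Matrix.toLin' P) ≤ LinearMap.ker (Matrix.toLin' P') := by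
    intro y hy
    rw [LinearMap.mem_ker, Matrix.toLin'_apply] at hy ⊢
    exact hmin P' (hlt.le hP') y hy
  have heq := Submodule.eq_of_le_of_finrank_le hle hcon
  apply hlt.not_ge
  intro M hM
  have hker : ∀ x, P' *ᵥ x = 0 → M *ᵥ x = 0 := by
    intro x hx
    apply hmin M hM x
    have hx' : x ∈ LinearMap.ker (Matrix.toLin' P) := by
      rw [heq, LinearMap.mem_ker, Matrix.toLin'_apply]
      exact hx
    rwa [LinearMap.mem_ker, Matrix.toLin'_apply] at hx'
  obtain ⟨ε, hε, hpos⟩ := psdAux_exists_eps (hG.1 hP') (hF.1 hM) hker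
  refine (hG.2.2 M (hF.1 hM) _ hpos P' hP' ?_).1
  refine ⟨ε / (1 + ε), 1 / (1 + ε), by positivity, by positivity, ?_, ?_⟩
  · field_simp
    ring
  · rw [smul_sub, smul_smul, smul_smul]
    have h1 : 1 / (1 + ε) * (1 + ε) = 1 := by
      field_simp
    have h2 : 1 / (1 + ε) * ε = ε / (1 + ε) := by
      field_simp
    rw [h1, h2, one_smul]
    abel

theorem chainsLE_psd (k : ℕ) :
    ChainsLE {M : Matrix (Fin k) (Fin k) ℝ | M.PosSemidef} k := by
  intro m F hF hne hanti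
  have hex : ∀ i, ∃ P ∈ F i, ∀ M ∈ F i, ∀ x, Matrix.mulVec P x = 0 → Matrix.mulVec M x = 0 :=
    fun i => psdAux_exists_min (hF i) (hne i)
  choose P hP hmin using hex
  have hstep : ∀ i j : Fin (m + 1), i < j → psdAuxKer (P i) < psdAuxKer (P j) := fun i j hij =>
    psdAux_lt (hF i) (hF j) (hanti hij) (hP j) (hmin i)
  have hind : ∀ (i : ℕ) (h : i < m + 1), i ≤ psdAuxKer (P ⟨i, h⟩) := by
    intro i
    induction i with
    | zero => intro h; exact Nat.zero_le _
    | succ i ih =>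
      intro h
      have h1 := ih (by omega)
      have h2 := hstep ⟨i, by omega⟩ ⟨i + 1, h⟩ (by simp)
      omega
  exact (hind m (by omega)).trans (psdAuxKer_le _)

end Pool.Agent.ConvF
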