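import Pool.Agent.ConvF.Faces

/-!
# Chains of faces of second-order cones

`C = {(z, τ) | ‖z‖ ≤ τ}` in `E × ℝ`, `E` a real inner product space (any dimension). Let
`F₀ ⊋ F₁ ⊋ ⋯ ⊋ F_k` be nonempty faces. Claim: a nonempty face `F` other than `C` lies on one ray:
if `(z₁,τ₁), (z₂,τ₂) ∈ F` and neither is a nonnegative multiple of the other, then
`‖z₁+z₂‖ < τ₁+τ₂` (strict convexity of the norm: equality forces `‖zᵢ‖ = τᵢ` and `z₁, z₂` on the same
ray), so the midpoint `p ∈ F` satisfies `‖z‖ < τ`; then every `y ∈ C` satisfies `(1+ε)p - εy ∈ C` for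
small `ε > 0`, so `y ∈ F` and `F = C`. A face contained in a ray `{r u | r ≥ 0}`, `u ≠ 0` which
contains some `r u` with `r > 0` contains the whole ray (`r u` is an inner point of the segment from
`0` to `r' u`, `r' > r`; then use convexity). So the faces `F₁ ⊋ F₂` are: `F₁ ≠ C` is a ray or `{0}`,
`F₂` is `{0}`, and there is no `F₃`. Hence `k ≤ 2`.
-/

namespace Pool.Agent.ConvF

open Finset

/-- A face of the second-order cone with an interior point is the whole cone. -/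
theorem soc_face_eq {E : Type*} [NormedAddCommGroup E] [InnerProductSpace ℝ E] {F : Set (E × ℝ)}
    (hF : IsFace {p : E × ℝ | ‖p.1‖ ≤ p.2} F) {p : E × ℝ} (hp : p ∈ F) (hlt : ‖p.1‖ < p.2) :
    {p : E × ℝ | ‖p.1‖ ≤ p.2} ⊆ F := by
  intro y hy
  have hy' : ‖y.1‖ ≤ y.2 := hy
  have hd : 0 < y.2 + ‖y.1‖ + 1 := by
    have := norm_nonneg y.1
    linarith
  set ε : ℝ := (p.2 - ‖p.1‖) / (y.2 + ‖y.1‖ + 1) with hε
  have hε0 : 0 < ε := div_pos (by linarith) hd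
  have hεm : ε * (y.2 + ‖y.1‖ + 1) = p.2 - ‖p.1‖ := by
    rw [hε]
    field_simp
  have hz : ((1 + ε) • p - ε • y) ∈ {p : E × ℝ | ‖p.1‖ ≤ p.2} := by
    show ‖(1 + ε) • p.1 - ε • y.1‖ ≤ (1 + ε) * p.2 - ε * y.2
    have h1 : ‖(1 + ε) • p.1 - ε • y.1‖ ≤ (1 + ε) * ‖p.1‖ + ε * ‖y.1‖ := by
      refine (norm_sub_le _ _).trans ?_
      rw [norm_smul, norm_smul, Real.norm_of_nonneg (by linarith), Real.norm_of_nonneg hε0.le]
    nlinarith [mul_pos hε0 (sub_pos.2 hlt)]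
  refine (hF.2.2 y hy _ hz p hp ?_).1
  refine ⟨ε / (1 + ε), 1 / (1 + ε), by positivity, by positivity, ?_, ?_⟩
  · field_simp
    ring
  · rw [smul_sub, smul_smul, smul_smul]
    have h1 : 1 / (1 + ε) * (1 + ε) = 1 := by
      field_simp
    have h2 : 1 / (1 + ε) * ε = ε / (1 + ε) := by
      field_simp
    rw [h1, h2, one_smul]
    abel

/-- A face of the second-order cone contains the ray of each of its nonzero points. -/
theorem soc_face_ray {E : Type*} [NormedAddCommGroup E] [InnerProductSpace ℝ E] {F : Set (E × ℝ)}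
    (hF : IsFace {p : E × ℝ | ‖p.1‖ ≤ p.2} F) {p : E × ℝ} (hp : p ∈ F) {r : ℝ} (hr : 0 ≤ r) :
    r • p ∈ F := by
  have hmem : ∀ s : ℝ, 0 ≤ s → s • p ∈ {p : E × ℝ | ‖p.1‖ ≤ p.2} := by
    intro s hs
    have h0 : ‖p.1‖ ≤ p.2 := hF.1 hp
    show ‖s • p.1‖ ≤ s * p.2
    rw [norm_smul, Real.norm_of_nonneg hs]
    exact mul_le_mul_of_nonneg_left h0 hs
  have h2 := hF.2.2 ((0 : ℝ) • p) (hmem 0 le_rfl) ((r + 2) • p) (hmem (r + 2) (by linarith)) p hp
    ⟨(r + 1) / (r + 2), 1 / (r + 2), by positivity, by positivity, by field_simp; ring, by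
      rw [zero_smul, smul_zero, zero_add, smul_smul]
      have : 1 / (r + 2) * (r + 2) = 1 := by
        field_simp
      rw [this, one_smul]⟩
  have h3 := hF.2.1 h2.1 h2.2 (show 0 ≤ 2 / (r + 2) by positivity)
    (show 0 ≤ r / (r + 2) by positivity) (by field_simp; ring)
  rw [zero_smul, smul_zero, zero_add, smul_smul] at h3
  have : r / (r + 2) * (r + 2) = r := by
    field_simp
  rwa [this] at h3

theorem chainsLE_soc (E : Type*) [NormedAddCommGroup E] [InnerProductSpace ℝ E] :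
    ChainsLE {p : E × ℝ | ‖p.1‖ ≤ p.2} 2 := by
  intro k F hF hne hanti
  by_contra hk
  push Not at hk
  have h01 : F ⟨1, by omega⟩ ⊂ F ⟨0, by omega⟩ :=
    hanti (show (⟨0, by omega⟩ : Fin (k + 1)) < ⟨1, by omega⟩ from Nat.zero_lt_one)
  have h12 : F ⟨2, by omega⟩ ⊂ F ⟨1, by omega⟩ :=
    hanti (show (⟨1, by omega⟩ : Fin (k + 1)) < ⟨2, by omega⟩ from Nat.one_lt_two)
  have h23 : F ⟨3, by omega⟩ ⊂ F ⟨2, by omega⟩ :=
    hanti (show (⟨2, by omega⟩ : Fin (k + 1)) < ⟨3, by omega⟩ by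
      rw [Fin.mk_lt_mk]; norm_num)
  have hbd : ∀ p ∈ F ⟨1, by omega⟩, ‖p.1‖ = p.2 := by
    intro p hp
    by_contra hc
    have hlt : ‖p.1‖ < p.2 := lt_of_le_of_ne ((hF _).1 hp) hc
    exact h01.2 ((hF _).1.trans (soc_face_eq (hF _) hp hlt))
  have h0 : (0 : E × ℝ) ∈ F ⟨3, by omega⟩ := by
    obtain ⟨u, hu⟩ := hne ⟨3, by omega⟩
    have := soc_face_ray (hF _) hu le_rfl
    rwa [zero_smul] at this
  obtain ⟨x, hx2, hx3⟩ := Set.exists_of_ssubset h23
  obtain ⟨w, hw1, hw2⟩ := Set.exists_of_ssubset h12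
  have hx0 : x ≠ 0 := fun h => hx3 (h ▸ h0)
  have hw0 : w ≠ 0 := fun h => hw2 (h ▸ h23.1 h0)
  have hx1 : x ∈ F ⟨1, by omega⟩ := h12.1 hx2
  have hxn := hbd x hx1
  have hwn := hbd w hw1
  have hx10 : x.1 ≠ 0 := by
    intro h
    apply hx0
    rw [h, norm_zero] at hxn
    exact Prod.ext h hxn.symm
  have hw10 : w.1 ≠ 0 := by
    intro h
    apply hw0
    rw [h, norm_zero] at hwn
    exact Prod.ext h hwn.symm
  have hmid : ((1 / 2 : ℝ) • x + (1 / 2 : ℝ) • w) ∈ F ⟨1, by omega⟩ :=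
    (hF _).2.1 hx1 hw1 (by norm_num) (by norm_num) (by norm_num)
  have hmn := hbd _ hmid
  have hmn' : ‖(1 / 2 : ℝ) • x.1 + (1 / 2 : ℝ) • w.1‖ = (1 / 2) * x.2 + (1 / 2) * w.2 := hmn
  rw [← smul_add, norm_smul, Real.norm_of_nonneg (by norm_num)] at hmn'
  have hsum : ‖x.1 + w.1‖ = ‖x.1‖ + ‖w.1‖ := by
    rw [hxn, hwn]
    linarith
  have hray : SameRay ℝ x.1 w.1 := sameRay_iff_norm_add.2 hsum
  obtain ⟨r, hr, hrw⟩ := hray.exists_pos_left hx10 hw10
  apply hw2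
  have hw : w = r • x := by
    refine Prod.ext hrw.symm ?_
    show w.2 = r * x.2
    rw [← hwn, ← hrw, norm_smul, Real.norm_of_nonneg hr.le, hxn]
  rw [hw]
  exact soc_face_ray (hF _) hx2 hr.le

end Pool.Agent.ConvF
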