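import Mathlib
import Pool.Agent.H98.ConicCount

/-!
# Convex formulations of the all pairs shortest paths problem: definitions
-/

namespace Pool.Agent.ConvF

open Pool.Agent.H98.ConicCount

/-- Total weight of the walk `u → l₁ → ⋯ → lₖ → v`. -/
def walkWeight {n : ℕ} (W : Fin n → Fin n → ℝ) : Fin n → List (Fin n) → Fin n → ℝ
  | u, [], v => W u v
  | u, x :: l, v => W u x + walkWeight W x l v

/-- The distance matrix of the weighted complete digraph with edge weights `W`: the diagonal is
`0`, and off the diagonal it is the infimum of the total weights of the walks from `u` to `v`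
(for nonnegative weights this is the minimum weight of a path from `u` to `v`). -/
noncomputable def dist {n : ℕ} (W : Fin n → Fin n → ℝ) (u v : Fin n) : ℝ :=
  if u = v then 0 else ⨅ l : List (Fin n), walkWeight W u l v

/-- The set of all distance matrices of digraphs on `n` vertices with nonnegative real edge
weights. -/
def distMatrices (n : ℕ) : Set (Fin n → Fin n → ℝ) :=
  {D | ∃ W : Fin n → Fin n → ℝ, (∀ u v, 0 ≤ W u v) ∧ dist W = D}

/-- `F` is a face of `C`: a convex subset of `C` that contains every segment of `C` which has an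
inner point in `F`. -/
def IsFace {E : Type*} [AddCommGroup E] [Module ℝ E] (C F : Set E) : Prop :=
  F ⊆ C ∧ Convex ℝ F ∧ ∀ x ∈ C, ∀ y ∈ C, ∀ z ∈ F, z ∈ openSegment ℝ x y → x ∈ F ∧ y ∈ F

/-- Every strictly decreasing chain `F₀ ⊋ F₁ ⊋ ⋯ ⊋ F_k` of nonempty faces of `C` has `k ≤ ℓ`. -/
def ChainsLE {E : Type*} [AddCommGroup E] [Module ℝ E] (C : Set E) (ℓ : ℕ) : Prop :=
  ∀ (k : ℕ) (F : Fin (k + 1) → Set E), (∀ i, IsFace C (F i)) → (∀ i, (F i).Nonempty) →
    StrictAnti F → k ≤ ℓ

/-- A convex program: the vectors `x` of a real vector space `X` that satisfy arbitrarily many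
linear equations `eqn e x = rhs e` and the finitely many constraints `A b x ∈ C b`, where the
`C b` are convex sets of real vector spaces `E b` and the `A b` are affine maps; together with an
affine map `P` from `X` to the real `n × n` matrices. -/
structure Formulation (n : ℕ) where
  X : Type
  [instX₁ : AddCommGroup X]
  [instX₂ : Module ℝ X]
  κ : Type
  eqn : κ → X →ₗ[ℝ] ℝ
  rhs : κ → ℝ
  ι : Type
  [instι : Fintype ι]
  E : ι → Type
  [instE₁ : ∀ b, AddCommGroup (E b)]
  [instE₂ : ∀ b, Module ℝ (E b)]
  C : ∀ b, Set (E b)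
  convex : ∀ b, Convex ℝ (C b)
  A : ∀ b, X →ᵃ[ℝ] E b
  P : X →ᵃ[ℝ] (Fin n → Fin n → ℝ)

attribute [instance] Formulation.instX₁ Formulation.instX₂ Formulation.instι
  Formulation.instE₁ Formulation.instE₂

variable {n : ℕ}

/-- The feasible vectors of the program. -/
def Formulation.Feas (F : Formulation n) : Set F.X :=
  {x | (∀ e, F.eqn e x = F.rhs e) ∧ ∀ b, F.A b x ∈ F.C b}

/-- The set of matrices described by the program: the image under `P` of its feasible set. -/
def Formulation.matrices (F : Formulation n) : Set (Fin n → Fin n → ℝ) :=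
  {D | ∃ x ∈ F.Feas, F.P x = D}

/-- `M` has no triangular sequence of more than `L` pairs: if `M (t i) (s i)` holds for all
`i < k` and `s i` does not separate `t j` for `j < i`, then `k ≤ L`. -/
def TriLE (M : Tri n → (Fin n → Bool) → Prop) (L : ℕ) : Prop :=
  ∀ (k : ℕ) (t : Fin k → Tri n) (s : Fin k → Fin n → Bool), (∀ i, M (t i) (s i)) →
    (∀ i j, j < i → ¬ SepBy (t j) (s i)) → k ≤ L

end Pool.Agent.ConvF
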