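import Mathlib

/-!
# The Loomis–Whitney inequality for finite sets, and a numerical series
-/

namespace Pool.Agent.ConvF

open Finset

/-- **Loomis–Whitney.** Proof: with `a x y = 1` if `(x,y)` is in the first projection, etc.,
`|N| ≤ ∑_{x,y} a x y ∑_w b x w c y w`; by Cauchy–Schwarz over `(x,y)` the square is at most
`|N₁₂| ∑_{x,y} (∑_w b x w c y w)²`, and for the sum over `(x, y)` restricted to nothing
`∑_{x,y} (∑_w b x w c y w)² = ∑_{w,w'} (∑_x b x w b x w') (∑_y c y w c y w')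
≤ ∑_{w,w'} (∑_x b x w b x w') (...)`. A direct way: for fixed `w` let `N_w` be the slice; then
`|N_w| ≤ min (|N₁₂|, B_w C_w) ≤ √|N₁₂| √B_w √C_w` with `B_w` (`C_w`) the number of `x` (`y`) with
`(x,w)` (`(y,w)`) in the projection, and sum over `w` with Cauchy–Schwarz:
`|N| ≤ √|N₁₂| √(∑ B_w) √(∑ C_w)`. -/
theorem loomis_whitney {V : Type*} [DecidableEq V] (N : Finset (V × V × V)) :
    N.card ^ 2 ≤ (N.image fun t => (t.1, t.2.1)).card * (N.image fun t => (t.1, t.2.2)).card *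
      (N.image fun t => (t.2.1, t.2.2)).card := by
  classical
  set A := N.image fun t => (t.1, t.2.1) with hA
  set B := N.image fun t => (t.1, t.2.2) with hB
  set C := N.image fun t => (t.2.1, t.2.2) with hC
  set W := N.image fun t => t.2.2 with hW
  have hN : N.card = ∑ w ∈ W, (N.filter fun t => t.2.2 = w).card :=
    Finset.card_eq_sum_card_image _ _
  have hBW : B.card = ∑ w ∈ W, (B.filter fun t => t.2 = w).card := by
    refine Finset.card_eq_sum_card_fiberwise ?_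
    intro t ht
    rw [hB] at ht
    simp only [Finset.coe_image, Set.mem_image, Finset.mem_coe] at ht
    obtain ⟨u, hu, rfl⟩ := ht
    exact Finset.mem_coe.2 (Finset.mem_image_of_mem (fun t : V × V × V => t.2.2) hu)
  have hCW : C.card = ∑ w ∈ W, (C.filter fun t => t.2 = w).card := by
    refine Finset.card_eq_sum_card_fiberwise ?_
    intro t ht
    rw [hC] at ht
    simp only [Finset.coe_image, Set.mem_image, Finset.mem_coe] at ht
    obtain ⟨u, hu, rfl⟩ := ht
    exact Finset.mem_coe.2 (Finset.mem_image_of_mem (fun t : V × V × V => t.2.2) hu)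
  -- slices
  have h1 : ∀ w, (N.filter fun t => t.2.2 = w).card ≤ A.card := by
    intro w
    refine Finset.card_le_card_of_injOn (fun t => (t.1, t.2.1)) ?_ ?_
    · intro t ht
      exact Finset.mem_coe.2 (Finset.mem_image_of_mem _ (Finset.mem_filter.1 ht).1)
    · intro t ht u hu h
      have ht' := (Finset.mem_filter.1 (Finset.mem_coe.1 ht)).2
      have hu' := (Finset.mem_filter.1 (Finset.mem_coe.1 hu)).2
      simp only [Prod.mk.injEq] at h
      exact Prod.ext h.1 (Prod.ext h.2 (ht'.trans hu'.symm))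
  have h2 : ∀ w, (N.filter fun t => t.2.2 = w).card ≤
      (B.filter fun t => t.2 = w).card * (C.filter fun t => t.2 = w).card := by
    intro w
    rw [← Finset.card_product]
    refine Finset.card_le_card_of_injOn (fun t => ((t.1, t.2.2), (t.2.1, t.2.2))) ?_ ?_
    · intro t ht
      have ht' := Finset.mem_filter.1 (Finset.mem_coe.1 ht)
      refine Finset.mem_coe.2 (Finset.mem_product.2 ⟨Finset.mem_filter.2 ⟨?_, ht'.2⟩,
        Finset.mem_filter.2 ⟨?_, ht'.2⟩⟩)
      · exact Finset.mem_image_of_mem (fun t : V × V × V => (t.1, t.2.2)) ht'.1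
      · exact Finset.mem_image_of_mem (fun t : V × V × V => (t.2.1, t.2.2)) ht'.1
    · intro t ht u hu h
      simp only [Prod.mk.injEq] at h
      exact Prod.ext h.1.1 (Prod.ext h.2.1 h.1.2)
  -- Cauchy–Schwarz
  have h3 : ∀ w ∈ W, ((N.filter fun t => t.2.2 = w).card : ℝ) ≤
      √((A.card : ℝ) * (B.filter fun t => t.2 = w).card) *
        √((C.filter fun t => t.2 = w).card : ℝ) := by
    intro w _
    rw [← Real.sqrt_mul (by positivity)]
    refine Real.le_sqrt_of_sq_le ?_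
    have e1 : ((N.filter fun t => t.2.2 = w).card : ℝ) ≤ A.card := by exact_mod_cast h1 w
    have e2 : ((N.filter fun t => t.2.2 = w).card : ℝ) ≤
        (B.filter fun t => t.2 = w).card * (C.filter fun t => t.2 = w).card := by
      exact_mod_cast h2 w
    calc ((N.filter fun t => t.2.2 = w).card : ℝ) ^ 2
        = ((N.filter fun t => t.2.2 = w).card : ℝ) * (N.filter fun t => t.2.2 = w).card := sq _
      _ ≤ (A.card : ℝ) * ((B.filter fun t => t.2 = w).card * (C.filter fun t => t.2 = w).card) :=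
          mul_le_mul e1 e2 (by positivity) (by positivity)
      _ = _ := by ring
  have h4 : (N.card : ℝ) ≤ √((A.card : ℝ) * B.card) * √(C.card : ℝ) := by
    calc (N.card : ℝ) = ∑ w ∈ W, ((N.filter fun t => t.2.2 = w).card : ℝ) := by
          rw [hN]; push_cast; rfl
      _ ≤ ∑ w ∈ W, √((A.card : ℝ) * (B.filter fun t => t.2 = w).card) *
            √((C.filter fun t => t.2 = w).card : ℝ) := Finset.sum_le_sum h3
      _ ≤ √(∑ w ∈ W, (A.card : ℝ) * (B.filter fun t => t.2 = w).card) *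
            √(∑ w ∈ W, ((C.filter fun t => t.2 = w).card : ℝ)) :=
          Real.sum_sqrt_mul_sqrt_le _ (fun _ => by positivity) (fun _ => by positivity)
      _ = √((A.card : ℝ) * B.card) * √(C.card : ℝ) := by
          rw [← Finset.mul_sum, hBW, hCW]; push_cast; rfl
  have h5 : (N.card : ℝ) ^ 2 ≤ (A.card : ℝ) * B.card * C.card := by
    calc (N.card : ℝ) ^ 2 ≤ (√((A.card : ℝ) * B.card) * √(C.card : ℝ)) ^ 2 :=
          pow_le_pow_left₀ (by positivity) h4 2
      _ = _ := by rw [mul_pow, Real.sq_sqrt (by positivity), Real.sq_sqrt (by positivity)]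
  exact_mod_cast h5

/-- `(3+j)^5 2^j ≤ 27·243·3^j` (for `j ≥ 9` the ratio of consecutive left sides is at most
`2 (13/12)^5 < 3`; small cases by computation). -/
theorem pow_five_le (j : ℕ) : (3 + j) ^ 5 * 2 ^ j ≤ 6561 * 3 ^ j := by
  rcases Nat.lt_or_ge j 9 with h | h
  · interval_cases j <;> norm_num
  · induction j, h using Nat.le_induction with
    | base => norm_num
    | succ j hj ih =>
      have key : 2 * (3 + (j + 1)) ^ 5 ≤ 3 * (3 + j) ^ 5 := by
        obtain ⟨i, rfl⟩ := Nat.exists_eq_add_of_le hj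
        ring_nf
        nlinarith [Nat.zero_le i, Nat.zero_le (i ^ 2), Nat.zero_le (i ^ 3), Nat.zero_le (i ^ 4),
          Nat.zero_le (i ^ 5)]
      calc (3 + (j + 1)) ^ 5 * 2 ^ (j + 1) = (2 * (3 + (j + 1)) ^ 5) * 2 ^ j := by ring
        _ ≤ (3 * (3 + j) ^ 5) * 2 ^ j := Nat.mul_le_mul_right _ key
        _ = 3 * ((3 + j) ^ 5 * 2 ^ j) := by ring
        _ ≤ 3 * (6561 * 3 ^ j) := Nat.mul_le_mul_left _ ih
        _ = 6561 * 3 ^ (j + 1) := by ring

/-- Pointwise layer cake. -/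
theorem layer_point (τ : ℕ → ℝ) (hτ : Monotone τ) (x : ℝ) (m : ℕ) : ∀ K : ℕ, x ≤ τ (m + K) →
    x ≤ τ m + ∑ i ∈ range K, (τ (m + i + 1) - τ (m + i)) * (if τ (m + i) < x then 1 else 0) := by
  intro K
  induction K with
  | zero => intro h; simpa using h
  | succ K ih =>
    intro h
    rw [Finset.sum_range_succ]
    rcases le_or_gt x (τ (m + K)) with hx | hx
    · have h0 : 0 ≤ (τ (m + K + 1) - τ (m + K)) * (if τ (m + K) < x then (1 : ℝ) else 0) := by
        refine mul_nonneg (sub_nonneg.2 (hτ (Nat.le_succ _))) ?_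
        split_ifs <;> norm_num
      linarith [ih hx]
    · have h1 : ∑ i ∈ range K, (τ (m + i + 1) - τ (m + i)) *
          (if τ (m + i) < x then (1 : ℝ) else 0) = ∑ i ∈ range K, (τ (m + (i + 1)) - τ (m + i)) := by
        refine Finset.sum_congr rfl fun i hi => ?_
        have : τ (m + i) < x := lt_of_le_of_lt (hτ (by have := Finset.mem_range.1 hi; omega)) hx
        rw [if_pos this, mul_one, add_assoc]
      rw [h1, Finset.sum_range_sub (fun i => τ (m + i)) K, if_pos hx]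
      have h2 : τ (m + (K + 1)) = τ (m + K + 1) := rfl
      simp only [add_zero]
      linarith [h, h2]

/-- The growth of the thresholds, with the geometric weight. -/
theorem thr_le (c : ℝ) (hc : 0 ≤ c) (m j : ℕ) :
    c * ((m + j : ℕ) + 3) ^ 5 / 2 ^ (m + j) ≤ c * (m + 3) ^ 5 / 2 ^ m * (27 * (3 / 4) ^ j) := by
  have h1 : (((m + j : ℕ) : ℝ) + 3) ≤ (m + 3) * ((3 + j) / 3) := by
    push_cast
    have : (0 : ℝ) ≤ (m : ℝ) * j := by positivity
    nlinarith
  have h2 : (((m + j : ℕ) : ℝ) + 3) ^ 5 ≤ (m + 3) ^ 5 * ((3 + j) ^ 5 / 243) := by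
    calc (((m + j : ℕ) : ℝ) + 3) ^ 5 ≤ ((m + 3) * ((3 + j) / 3)) ^ 5 :=
          pow_le_pow_left₀ (by positivity) h1 5
      _ = _ := by rw [mul_pow, div_pow]; norm_num
  have h3 : ((3 + (j : ℝ)) ^ 5) * 2 ^ j ≤ 6561 * 3 ^ j := by exact_mod_cast pow_five_le j
  have h4 : ((3 + (j : ℝ)) ^ 5) / 243 ≤ 27 * (3 / 2) ^ j := by
    rw [div_pow, div_le_iff₀ (by norm_num)]
    have : (0 : ℝ) < 2 ^ j := by positivity
    rw [show (27 : ℝ) * (3 ^ j / 2 ^ j) * 243 = 6561 * 3 ^ j / 2 ^ j by ring, le_div_iff₀ this]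
    exact h3
  have h5 : (((m + j : ℕ) : ℝ) + 3) ^ 5 ≤ (m + 3) ^ 5 * (27 * (3 / 2) ^ j) :=
    h2.trans (mul_le_mul_of_nonneg_left h4 (by positivity))
  calc c * ((m + j : ℕ) + 3) ^ 5 / 2 ^ (m + j)
      ≤ c * ((m + 3) ^ 5 * (27 * (3 / 2) ^ j)) / 2 ^ (m + j) := by
        refine div_le_div_of_nonneg_right (mul_le_mul_of_nonneg_left h5 hc) (by positivity)
    _ = c * (m + 3) ^ 5 / 2 ^ m * (27 * (3 / 4) ^ j) := by
        rw [pow_add, div_pow, div_pow]
        have : (4 : ℝ) ^ j = 2 ^ j * 2 ^ j := by rw [← mul_pow]; norm_num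
        rw [this]
        field_simp

/-- **Layer cake.** If `X s ≤ c (m+3)^5` for all but few `s`, precisely: for every `h` at most
`2^n / 2^(h+1)` elements `s` of the finite set `S` (of size at most `2^n`, any set here) have
`X s > c (h+3)^5`, then `∑_{s ∈ 𝒮} X s ≤ c (m+3)^5 (|𝒮| + 81 · 2^n / 2^m)` for all `m` and all
subsets `𝒮`. Proof: let `τ h = c (h+3)^5`; for `h ≥ n` no `s` has `X s > τ h` (the number is less
than `1`). So with `H = max m n`: `X s ≤ τ m + ∑_{m ≤ h < H} (τ (h+1) - τ h) [X s > τ h]`, and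
`∑_{s∈𝒮} X s ≤ |𝒮| τ m + ∑_{m ≤ h < H} (τ (h+1) - τ h) 2^n/2^(h+1)
≤ |𝒮| τ m + 2^n ∑_{h ≥ m} τ (h+1) / 2^(h+1)`, and `τ (m+i) ≤ τ m (1+i/3)^5 ≤ τ m · 27 (3/2)^i`
(`pow_five_le`), so the last sum is at most `τ m 2^{-m} 27 ∑_{i ≥ 1} (3/4)^i = 81 τ m 2^{-m}`. -/
theorem layer_cake {S : Type*} [DecidableEq S] (n : ℕ) (X : S → ℝ) (c : ℝ) (hc : 0 ≤ c)
    (U : Finset S) (hX : ∀ h : ℕ, ((U.filter fun s => c * (h + 3) ^ 5 < X s).card : ℝ) * 2 ^ (h + 1)
      ≤ 2 ^ n) (m : ℕ) (𝒮 : Finset S) (h𝒮 : 𝒮 ⊆ U) :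
    ∑ s ∈ 𝒮, X s ≤ c * (m + 3) ^ 5 * (𝒮.card + 81 * 2 ^ n / 2 ^ m) := by
  classical
  set τ : ℕ → ℝ := fun h => c * (h + 3) ^ 5 with hτd
  have hτ : Monotone τ := by
    intro a b hab
    have : (a : ℝ) ≤ b := by exact_mod_cast hab
    simp only [hτd]
    exact mul_le_mul_of_nonneg_left (pow_le_pow_left₀ (by positivity) (by linarith) 5) hc
  have hcount : ∀ h : ℕ, ((𝒮.filter fun s => τ h < X s).card : ℝ) ≤ 2 ^ n / 2 ^ (h + 1) := by
    intro h
    rw [le_div_iff₀ (by positivity)]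
    refine le_trans ?_ (hX h)
    refine mul_le_mul_of_nonneg_right ?_ (by positivity)
    exact Nat.cast_le.2 (Finset.card_le_card (Finset.filter_subset_filter _ h𝒮))
  have htop : ∀ s ∈ 𝒮, X s ≤ τ (m + n) := by
    intro s hs
    by_contra hlt
    rw [not_le] at hlt
    have h1 := hcount (m + n)
    have h2 : 1 ≤ (𝒮.filter fun s => τ (m + n) < X s).card :=
      Finset.card_pos.2 ⟨s, Finset.mem_filter.2 ⟨hs, hlt⟩⟩
    have h3 : (1 : ℝ) ≤ (𝒮.filter fun s => τ (m + n) < X s).card := by exact_mod_cast h2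
    have h4 : (2 : ℝ) ^ n / 2 ^ (m + n + 1) < 1 := by
      rw [div_lt_one (by positivity)]
      exact pow_lt_pow_right₀ (by norm_num) (by omega)
    linarith
  have hsum : ∑ s ∈ 𝒮, X s ≤ ∑ s ∈ 𝒮, (τ m + ∑ i ∈ range n, (τ (m + i + 1) - τ (m + i)) *
      (if τ (m + i) < X s then 1 else 0)) :=
    Finset.sum_le_sum fun s hs => layer_point τ hτ (X s) m n (htop s hs)
  have hswap : ∑ s ∈ 𝒮, (τ m + ∑ i ∈ range n, (τ (m + i + 1) - τ (m + i)) *
      (if τ (m + i) < X s then 1 else 0)) = 𝒮.card * τ m + ∑ i ∈ range n,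
        (τ (m + i + 1) - τ (m + i)) * ((𝒮.filter fun s => τ (m + i) < X s).card : ℝ) := by
    rw [Finset.sum_add_distrib, Finset.sum_const, nsmul_eq_mul, Finset.sum_comm]
    congr 1
    refine Finset.sum_congr rfl fun i _ => ?_
    rw [← Finset.mul_sum, Finset.sum_boole]
  have hterm : ∀ i ∈ range n, (τ (m + i + 1) - τ (m + i)) *
      ((𝒮.filter fun s => τ (m + i) < X s).card : ℝ) ≤
        2 ^ n * (τ m / 2 ^ m * (27 * (3 / 4) ^ (i + 1))) := by
    intro i _
    have hτ0 : 0 ≤ τ (m + i) := by simp only [hτd]; positivity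
    have hd : 0 ≤ τ (m + i + 1) - τ (m + i) := sub_nonneg.2 (hτ (Nat.le_succ _))
    have ht := thr_le c hc m (i + 1)
    calc (τ (m + i + 1) - τ (m + i)) * ((𝒮.filter fun s => τ (m + i) < X s).card : ℝ)
        ≤ (τ (m + i + 1) - τ (m + i)) * (2 ^ n / 2 ^ (m + i + 1)) :=
          mul_le_mul_of_nonneg_left (hcount (m + i)) hd
      _ ≤ τ (m + i + 1) * (2 ^ n / 2 ^ (m + i + 1)) :=
          mul_le_mul_of_nonneg_right (by linarith) (by positivity)
      _ = 2 ^ n * (τ (m + i + 1) / 2 ^ (m + i + 1)) := by ring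
      _ ≤ 2 ^ n * (τ m / 2 ^ m * (27 * (3 / 4) ^ (i + 1))) :=
          mul_le_mul_of_nonneg_left ht (by positivity)
  have hgeo : ∑ i ∈ range n, (3 / 4 : ℝ) ^ (i + 1) ≤ 3 := by
    have h1 : ∑ i ∈ range n, (3 / 4 : ℝ) ^ (i + 1) = 3 / 4 * ∑ i ∈ range n, (3 / 4 : ℝ) ^ i := by
      rw [Finset.mul_sum]
      exact Finset.sum_congr rfl fun i _ => by rw [pow_succ]; ring
    have h2 : ∑ i ∈ range n, (3 / 4 : ℝ) ^ i ≤ 4 := by
      rw [geom_sum_eq (by norm_num)]
      have : (0 : ℝ) < (3 / 4) ^ n := by positivity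
      have e : ((3 / 4 : ℝ) ^ n - 1) / (3 / 4 - 1) = 4 * (1 - (3 / 4) ^ n) := by ring
      rw [e]
      linarith
    linarith
  have hτm : 0 ≤ τ m := by simp only [hτd]; positivity
  calc ∑ s ∈ 𝒮, X s ≤ 𝒮.card * τ m + ∑ i ∈ range n,
        (τ (m + i + 1) - τ (m + i)) * ((𝒮.filter fun s => τ (m + i) < X s).card : ℝ) := by
        rw [← hswap]; exact hsum
    _ ≤ 𝒮.card * τ m + ∑ i ∈ range n, 2 ^ n * (τ m / 2 ^ m * (27 * (3 / 4) ^ (i + 1))) := by
        exact add_le_add le_rfl (Finset.sum_le_sum hterm)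
    _ = 𝒮.card * τ m + 2 ^ n * (τ m / 2 ^ m * (27 * ∑ i ∈ range n, (3 / 4 : ℝ) ^ (i + 1))) := by
        rw [Finset.mul_sum, Finset.mul_sum, Finset.mul_sum]
    _ ≤ 𝒮.card * τ m + 2 ^ n * (τ m / 2 ^ m * (27 * 3)) := by
        gcongr
    _ = c * (m + 3) ^ 5 * (𝒮.card + 81 * 2 ^ n / 2 ^ m) := by
        simp only [hτd]; ring

end Pool.Agent.ConvF
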