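import Pool.Agent.ConvF.Cuts

/-!
# Weights of cuts
-/

namespace Pool.Agent.ConvF

open Finset Pool.Agent.H98.ConicCount

variable {n : ℕ}

theorem dist_le_walk {W : Fin n → Fin n → ℝ} (hW : ∀ u v, 0 ≤ W u v) {u v : Fin n} (huv : u ≠ v)
    (l : List (Fin n)) : dist W u v ≤ walkWeight W u l v := by
  unfold dist
  rw [if_neg huv]
  exact ciInf_le (bddBelow_walk hW u v) l

/-- The first half of the vertices. -/
def InK (n : ℕ) (u : Fin n) : Prop := 2 * (u : ℕ) < n

instance (n : ℕ) (u : Fin n) : Decidable (InK n u) := by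
  unfold InK
  infer_instance

/-- The basic weights. -/
noncomputable def base (n : ℕ) (u v : Fin n) : ℝ := if (InK n u ↔ InK n v) then 12 / 5 else 6 / 5

/-- The weights of a cut. -/
noncomputable def cutW (s : Fin n → Bool) (u v : Fin n) : ℝ :=
  if u = v then 0 else base n u v + if s u = s v then 0 else 1 / 5

theorem base_bounds (u v : Fin n) : 6 / 5 ≤ base n u v ∧ base n u v ≤ 12 / 5 := by
  unfold base
  split_ifs <;> constructor <;> norm_num

theorem base_comm (u v : Fin n) : base n u v = base n v u := by
  unfold base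
  simp only [iff_comm]

theorem cutW_bounds (s : Fin n → Bool) {u v : Fin n} (h : u ≠ v) :
    6 / 5 ≤ cutW s u v ∧ cutW s u v ≤ 13 / 5 := by
  obtain ⟨h1, h2⟩ := base_bounds u v
  unfold cutW
  rw [if_neg h]
  split_ifs <;> constructor <;> linarith

theorem cutW_nonneg (s : Fin n → Bool) (u v : Fin n) : 0 ≤ cutW s u v := by
  by_cases h : u = v
  · rw [h]
    unfold cutW
    rw [if_pos rfl]
  · linarith [(cutW_bounds s h).1]

theorem cutW_comm (s : Fin n → Bool) (u v : Fin n) : cutW s u v = cutW s v u := by
  unfold cutW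
  rw [base_comm u v]
  simp only [eq_comm]

theorem cutW_self (s : Fin n → Bool) (u : Fin n) : cutW s u u = 0 := by
  unfold cutW
  rw [if_pos rfl]

theorem cutW_tri (s : Fin n → Bool) (u v w : Fin n) : cutW s u w ≤ cutW s u v + cutW s v w := by
  by_cases h1 : u = v
  · subst h1
    rw [cutW_self, zero_add]
  · by_cases h2 : v = w
    · subst h2
      rw [cutW_self, add_zero]
    · by_cases h3 : u = w
      · subst h3
        rw [cutW_self]
        exact add_nonneg (cutW_nonneg s _ _) (cutW_nonneg s _ _)
      · have a1 := base_bounds u v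
        have a2 := base_bounds v w
        have a3 := base_bounds u w
        unfold cutW
        rw [if_neg h1, if_neg h2, if_neg h3]
        have h4 : (if s u = s w then (0 : ℝ) else 1 / 5) ≤
            (if s u = s v then (0 : ℝ) else 1 / 5) + if s v = s w then (0 : ℝ) else 1 / 5 := by
          cases s u <;> cases s v <;> cases s w <;> norm_num
        linarith

theorem dist_cutW (s : Fin n → Bool) : dist (cutW s) = cutW s :=
  dist_eq_self (cutW_self s) (cutW_nonneg s) (cutW_tri s)

/-- The triples used: the middle vertex in the first half, the others in the second half. -/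
def TK (t : Tri n) : Prop := InK n (t 1) ∧ ¬ InK n (t 0) ∧ ¬ InK n (t 2)

instance (t : Tri n) : Decidable (TK t) := by unfold TK; infer_instance

theorem slack_cutW {t : Tri n} (ht : TK t) (s : Fin n → Bool) :
    cutW s (t 0) (t 1) + cutW s (t 1) (t 2) - cutW s (t 0) (t 2) =
      if SepBy t s then 2 / 5 else 0 := by
  have h01 : t 0 ≠ t 1 := fun h => by simpa using t.injective h
  have h12 : t 1 ≠ t 2 := fun h => by simpa using t.injective h
  have h02 : t 0 ≠ t 2 := fun h => by simpa using t.injective h
  obtain ⟨k1, k0, k2⟩ := ht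
  have b01 : base n (t 0) (t 1) = 6 / 5 := if_neg (by tauto)
  have b12 : base n (t 1) (t 2) = 6 / 5 := if_neg (by tauto)
  have b02 : base n (t 0) (t 2) = 12 / 5 := if_pos (by tauto)
  unfold cutW
  rw [if_neg h01, if_neg h12, if_neg h02, b01, b12, b02]
  by_cases h : SepBy t s
  · rw [if_pos h]
    obtain ⟨h1, h2⟩ := h
    rw [h1, h2]
    cases s (t 1) <;> norm_num
  · rw [if_neg h]
    unfold SepBy at h
    revert h
    cases s (t 0) <;> cases s (t 1) <;> cases s (t 2) <;> norm_num

end Pool.Agent.ConvF
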