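import Pool.Agent.ConvF.Defs

/-!
# Distance matrices and cut matrices
-/

namespace Pool.Agent.ConvF

open Finset Pool.Agent.H98.ConicCount

variable {n : ℕ}

theorem walkWeight_nonneg {W : Fin n → Fin n → ℝ} (hW : ∀ u v, 0 ≤ W u v) (l : List (Fin n)) :
    ∀ u v, 0 ≤ walkWeight W u l v := by
  induction l with
  | nil => intro u v; exact hW u v
  | cons x l ih => intro u v; exact add_nonneg (hW u x) (ih x v)

theorem walkWeight_append (W : Fin n → Fin n → ℝ) (l m : List (Fin n)) (x : Fin n) :
    ∀ u v, walkWeight W u (l ++ x :: m) v = walkWeight W u l x + walkWeight W x m v := by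
  induction l with
  | nil => intro u v; rfl
  | cons y l ih =>
    intro u v
    change W u y + walkWeight W y (l ++ x :: m) v = W u y + walkWeight W y l x + _
    rw [ih]; ring

theorem bddBelow_walk {W : Fin n → Fin n → ℝ} (hW : ∀ u v, 0 ≤ W u v) (u v : Fin n) :
    BddBelow (Set.range fun l : List (Fin n) => walkWeight W u l v) :=
  ⟨0, by rintro _ ⟨l, rfl⟩; exact walkWeight_nonneg hW l u v⟩

theorem dist_self (W : Fin n → Fin n → ℝ) (u : Fin n) : dist W u u = 0 := by
  unfold dist; rw [if_pos rfl]

theorem dist_nonneg {W : Fin n → Fin n → ℝ} (hW : ∀ u v, 0 ≤ W u v) (u v : Fin n) :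
    0 ≤ dist W u v := by
  unfold dist
  split_ifs
  · exact le_refl _
  · exact le_ciInf fun l => walkWeight_nonneg hW l u v

/-- Distance matrices satisfy the triangle inequality. -/
theorem dist_triangle {W : Fin n → Fin n → ℝ} (hW : ∀ u v, 0 ≤ W u v) (u v w : Fin n) :
    dist W u w ≤ dist W u v + dist W v w := by
  by_cases huv : u = v
  · subst huv; rw [dist_self, zero_add]
  by_cases hvw : v = w
  · subst hvw; rw [dist_self, add_zero]
  by_cases huw : u = w
  · subst huw; rw [dist_self]; exact add_nonneg (dist_nonneg hW _ _) (dist_nonneg hW _ _)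
  unfold dist
  rw [if_neg huv, if_neg hvw, if_neg huw]
  refine le_of_forall_pos_le_add fun ε hε => ?_
  obtain ⟨l, hl⟩ := exists_lt_of_ciInf_lt (lt_add_of_pos_right
    (⨅ l : List (Fin n), walkWeight W u l v) (half_pos hε))
  obtain ⟨m, hm⟩ := exists_lt_of_ciInf_lt (lt_add_of_pos_right
    (⨅ l : List (Fin n), walkWeight W v l w) (half_pos hε))
  have h := ciInf_le (bddBelow_walk hW u w) (l ++ v :: m)
  rw [walkWeight_append] at h
  linarith

/-- A matrix with zero diagonal, nonnegative entries and the triangle inequality is its own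
distance matrix. -/
theorem dist_eq_self {D : Fin n → Fin n → ℝ} (h0 : ∀ u, D u u = 0) (hD : ∀ u v, 0 ≤ D u v)
    (htri : ∀ u v w, D u w ≤ D u v + D v w) : dist D = D := by
  have key : ∀ (l : List (Fin n)) (u v : Fin n), D u v ≤ walkWeight D u l v := by
    intro l
    induction l with
    | nil => intro u v; exact le_refl _
    | cons x l ih =>
      intro u v
      exact (htri u x v).trans (add_le_add (le_refl _) (ih x v))
  funext u v
  unfold dist
  split_ifs with h
  · rw [h, h0]
  · exact le_antisymm (ciInf_le (bddBelow_walk hD u v) []) (le_ciInf fun l => key l u v)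

/-- The distance matrices are the nonnegative matrices with zero diagonal that satisfy the
triangle inequalities. -/
theorem mem_distMatrices_iff (D : Fin n → Fin n → ℝ) : D ∈ distMatrices n ↔
    (∀ u, D u u = 0) ∧ (∀ u v, 0 ≤ D u v) ∧ ∀ u v w, D u w ≤ D u v + D v w := by
  constructor
  · rintro ⟨W, hW, rfl⟩
    exact ⟨dist_self W, dist_nonneg hW, dist_triangle hW⟩
  · rintro ⟨h0, h1, h2⟩
    exact ⟨D, h1, dist_eq_self h0 h1 h2⟩

/-- Cut matrices. -/
def cutD (s : Fin n → Bool) (u v : Fin n) : ℝ := if s u = true ∧ s v = false then 1 else 0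

theorem cutD_mem (s : Fin n → Bool) : cutD s ∈ distMatrices n := by
  rw [mem_distMatrices_iff]
  refine ⟨?_, ?_, ?_⟩
  · intro u
    unfold cutD
    cases s u <;> simp
  · intro u v
    unfold cutD
    split_ifs <;> norm_num
  · intro u v w
    unfold cutD
    cases s u <;> cases s v <;> cases s w <;> simp

/-- The slack of the triangle inequality of `t`. -/
def slack (t : Tri n) (D : Fin n → Fin n → ℝ) : ℝ := D (t 0) (t 1) + D (t 1) (t 2) - D (t 0) (t 2)

theorem slack_nonneg (t : Tri n) {D : Fin n → Fin n → ℝ} (hD : D ∈ distMatrices n) :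
    0 ≤ slack t D := by
  rw [mem_distMatrices_iff] at hD
  have := hD.2.2 (t 0) (t 1) (t 2)
  unfold slack
  linarith

theorem slack_cut (t : Tri n) (s : Fin n → Bool) : slack t (cutD s) = if SepBy t s then 1 else 0 := by
  by_cases h : SepBy t s
  · rw [if_pos h]
    obtain ⟨h1, h2⟩ := h
    unfold slack cutD
    rw [h1, h2]
    cases s (t 1) <;> simp
  · rw [if_neg h]
    unfold slack cutD
    unfold SepBy at h
    revert h
    cases s (t 0) <;> cases s (t 1) <;> cases s (t 2) <;> simp

end Pool.Agent.ConvF
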