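import Mathlib

/-!
# Density restoration

Choose `(I, ρ)` with `θ^|I| |𝒮| ≤ |{s ∈ 𝒮 | s = ρ on I}|`, `θ = 53/100`, and `|I|` maximal (`I = ∅`
is allowed, so such pairs exist). If `J` is disjoint from `I`, nonempty, and
`|{s ∈ 𝒮 | s = ρ on I, s = α on J}| > θ^|J| |{s ∈ 𝒮 | s = ρ on I}|`, then `I ∪ J` with the glued
function contradicts the maximality; for `J = ∅` the inequality is an equality.
-/

namespace Pool.Agent.ConvF

open Finset

theorem dense {V : Type*} [Fintype V] [DecidableEq V] (𝒮 : Finset (V → Bool)) :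
    ∃ (I : Finset V) (ρ : V → Bool),
      (53 / 100 : ℝ) ^ I.card * 𝒮.card ≤ (𝒮.filter fun s => ∀ x ∈ I, s x = ρ x).card ∧
      ∀ J : Finset V, Disjoint I J → ∀ α : V → Bool,
        (((𝒮.filter fun s => ∀ x ∈ I, s x = ρ x).filter fun s => ∀ x ∈ J, s x = α x).card : ℝ) ≤
          (53 / 100) ^ J.card * (𝒮.filter fun s => ∀ x ∈ I, s x = ρ x).card := by
  classical
  let Good : Finset V → Prop := fun I => ∃ ρ : V → Bool,
    (53 / 100 : ℝ) ^ I.card * 𝒮.card ≤ (𝒮.filter fun s => ∀ x ∈ I, s x = ρ x).card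
  have h0 : Good ∅ := ⟨fun _ => false, by simp⟩
  obtain ⟨I, hI, hmax⟩ := Finset.exists_max_image (Finset.univ.filter Good) Finset.card
    ⟨∅, Finset.mem_filter.2 ⟨Finset.mem_univ _, h0⟩⟩
  obtain ⟨ρ, hρ⟩ := (Finset.mem_filter.1 hI).2
  refine ⟨I, ρ, hρ, fun J hJ α => ?_⟩
  by_contra hlt
  rw [not_le] at hlt
  rcases J.eq_empty_or_nonempty with rfl | hne
  · simp at hlt
  · have hG : Good (I ∪ J) := by
      refine ⟨fun x => if x ∈ I then ρ x else α x, ?_⟩
      rw [Finset.card_union_of_disjoint hJ, pow_add]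
      have e : (𝒮.filter fun s => ∀ x ∈ I ∪ J, s x = if x ∈ I then ρ x else α x) =
          ((𝒮.filter fun s => ∀ x ∈ I, s x = ρ x).filter fun s => ∀ x ∈ J, s x = α x) := by
        ext s
        simp only [Finset.mem_filter, Finset.mem_union, and_assoc, and_congr_right_iff]
        intro _
        constructor
        · intro h
          refine ⟨fun x hx => ?_, fun x hx => ?_⟩
          · have h2 := h x (Or.inl hx)
            rwa [if_pos hx] at h2
          · have h2 := h x (Or.inr hx)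
            rwa [if_neg (Finset.disjoint_right.1 hJ hx)] at h2
        · rintro ⟨h1, h2⟩ x hx
          by_cases hxI : x ∈ I
          · rw [if_pos hxI]
            exact h1 x hxI
          · rw [if_neg hxI]
            exact h2 x (hx.resolve_left hxI)
      rw [e]
      refine le_trans ?_ hlt.le
      calc (53 / 100 : ℝ) ^ I.card * (53 / 100) ^ J.card * 𝒮.card
          = (53 / 100 : ℝ) ^ J.card * ((53 / 100 : ℝ) ^ I.card * 𝒮.card) := by ring
        _ ≤ _ := mul_le_mul_of_nonneg_left hρ (by positivity)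
    have h1 := hmax (I ∪ J) (Finset.mem_filter.2 ⟨Finset.mem_univ _, hG⟩)
    rw [Finset.card_union_of_disjoint hJ] at h1
    have h2 := hne.card_pos
    omega

/-- The set of fixed coordinates is small: if `2^n ≤ 2^m |𝒮|` then `|I| ≤ 12 m`, as
`θ^|I| |𝒮| ≤ |{s | s = ρ on I}| ≤ 2^(n-|I|)`, so `(1.06)^|I| ≤ 2^m` and `1.06^12 > 2`. -/
theorem dense_card {n m : ℕ} (𝒮 : Finset (Fin n → Bool)) (hS : 2 ^ n ≤ 2 ^ m * 𝒮.card)
    (I : Finset (Fin n)) (ρ : Fin n → Bool)
    (h : (53 / 100 : ℝ) ^ I.card * 𝒮.card ≤ (𝒮.filter fun s => ∀ x ∈ I, s x = ρ x).card) :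
    I.card ≤ 12 * m := by
  classical
  have h1 : (𝒮.filter fun s => ∀ x ∈ I, s x = ρ x).card ≤ 2 ^ (n - I.card) := by
    have hsub : (𝒮.filter fun s => ∀ x ∈ I, s x = ρ x) ⊆
        Fintype.piFinset (fun x => if x ∈ I then {ρ x} else (Finset.univ : Finset Bool)) := by
      intro s hs
      rw [Fintype.mem_piFinset]
      intro x
      by_cases hx : x ∈ I
      · rw [if_pos hx, Finset.mem_singleton]
        exact (Finset.mem_filter.1 hs).2 x hx
      · rw [if_neg hx]
        exact Finset.mem_univ _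
    refine (Finset.card_le_card hsub).trans (le_of_eq ?_)
    rw [Fintype.card_piFinset]
    have h2 : ∀ x : Fin n, (if x ∈ I then {ρ x} else (Finset.univ : Finset Bool)).card =
        if x ∈ I then 1 else 2 := by
      intro x
      by_cases hx : x ∈ I
      · simp [hx]
      · simp [hx]
    rw [Finset.prod_congr rfl fun x _ => h2 x, Finset.prod_ite, Finset.prod_const_one, one_mul,
      Finset.prod_const]
    congr 1
    have h3 : (Finset.univ.filter fun x : Fin n => x ∉ I) = Iᶜ := by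
      ext x
      simp
    rw [h3, Finset.card_compl, Fintype.card_fin]
  have hkn : I.card ≤ n := by
    have := Finset.card_le_univ I
    rwa [Fintype.card_fin] at this
  set k := I.card with hk
  have h1' : ((𝒮.filter fun s => ∀ x ∈ I, s x = ρ x).card : ℝ) ≤ 2 ^ (n - k) := by
    exact_mod_cast h1
  have hS' : (2 : ℝ) ^ n ≤ 2 ^ m * 𝒮.card := by exact_mod_cast hS
  have h4 : (53 / 100 : ℝ) ^ k * 2 ^ n ≤ 2 ^ m * 2 ^ (n - k) := by
    calc (53 / 100 : ℝ) ^ k * 2 ^ n ≤ (53 / 100 : ℝ) ^ k * (2 ^ m * 𝒮.card) :=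
          mul_le_mul_of_nonneg_left hS' (by positivity)
      _ = 2 ^ m * ((53 / 100 : ℝ) ^ k * 𝒮.card) := by ring
      _ ≤ 2 ^ m * 2 ^ (n - k) := mul_le_mul_of_nonneg_left (h.trans h1') (by positivity)
  have h5 : (2 : ℝ) ^ n = 2 ^ k * 2 ^ (n - k) := by
    rw [← pow_add]
    congr 1
    omega
  have h6 : (106 / 100 : ℝ) ^ k ≤ 2 ^ m := by
    have h7 : (106 / 100 : ℝ) ^ k * 2 ^ (n - k) ≤ 2 ^ m * 2 ^ (n - k) := by
      refine le_trans (le_of_eq ?_) h4
      rw [h5, show (106 / 100 : ℝ) = 53 / 100 * 2 by norm_num, mul_pow]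
      ring
    exact le_of_mul_le_mul_right h7 (by positivity)
  by_contra hlt
  rw [not_le] at hlt
  have h8 : (106 / 100 : ℝ) ^ (12 * m + 1) ≤ (106 / 100 : ℝ) ^ k :=
    pow_le_pow_right₀ (by norm_num) hlt
  have h9 : (2 : ℝ) ^ m ≤ (106 / 100 : ℝ) ^ (12 * m) := by
    rw [pow_mul]
    exact pow_le_pow_left₀ (by norm_num) (by norm_num) m
  have h10 : (0 : ℝ) < 2 ^ m := by positivity
  rw [pow_succ] at h8
  nlinarith

end Pool.Agent.ConvF
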