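import Pool.Agent.ConvF.Defs

/-!
# Minimal faces
-/

namespace Pool.Agent.ConvF

open Finset

variable {E : Type*} [AddCommGroup E] [Module ℝ E]

theorem isFace_self {C : Set E} (hC : Convex ℝ C) : IsFace C C :=
  ⟨subset_rfl, hC, fun x hx y hy _ _ _ => ⟨hx, hy⟩⟩

theorem IsFace.inter {C F G : Set E} (hF : IsFace C F) (hG : IsFace C G) : IsFace C (F ∩ G) :=
  ⟨Set.inter_subset_left.trans hF.1, hF.2.1.inter hG.2.1, fun x hx y hy z hz hzo =>
    ⟨⟨(hF.2.2 x hx y hy z hz.1 hzo).1, (hG.2.2 x hx y hy z hz.2 hzo).1⟩,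
     ⟨(hF.2.2 x hx y hy z hz.1 hzo).2, (hG.2.2 x hx y hy z hz.2 hzo).2⟩⟩⟩

/-- The smallest face of the convex set `C` that contains the point `p` of `C`. -/
def minFace (C : Set E) (p : E) : Set E := {y | y ∈ C ∧ ∃ ε : ℝ, 0 < ε ∧ (1 + ε) • p - ε • y ∈ C}

private theorem faces_shrink {C : Set E} (hC : Convex ℝ C) {p y : E} (hp : p ∈ C) {δ ε : ℝ}
    (hδ : 0 < δ) (hδε : δ ≤ ε) (h : (1 + ε) • p - ε • y ∈ C) : (1 + δ) • p - δ • y ∈ C := by
  have hε : 0 < ε := lt_of_lt_of_le hδ hδε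
  have h1 := hC hp h (a := 1 - δ / ε) (b := δ / ε) (by
    rw [sub_nonneg, div_le_one hε]
    exact hδε) (by positivity) (by ring)
  have h2 : (1 + δ) • p - δ • y = (1 - δ / ε) • p + (δ / ε) • ((1 + ε) • p - ε • y) := by
    have h3 : δ / ε * ε = δ := div_mul_cancel₀ _ hε.ne'
    rw [smul_sub, smul_smul, smul_smul, h3, ← add_sub_assoc, ← add_smul]
    congr 2
    rw [mul_add, h3]
    ring
  rw [h2]
  exact h1

private theorem faces_mem {C : Set E} (_hC : Convex ℝ C) {p y z : E} {θ : ℝ} (hθ : 0 < θ)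
    (hθ1 : θ ≤ 1) (hy : y ∈ C) (hz : z ∈ C) (h : p = θ • y + (1 - θ) • z) : y ∈ minFace C p := by
  rcases hθ1.eq_or_lt with h1 | h1
  · refine ⟨hy, 1, one_pos, ?_⟩
    rw [h, h1]
    have h2 : ((1 : ℝ) + 1) • ((1 : ℝ) • y + ((1 : ℝ) - 1) • z) - (1 : ℝ) • y = y := by
      rw [sub_self, zero_smul, add_zero, one_smul, add_smul, one_smul, add_sub_cancel_right]
    rw [h2]
    exact hy
  · have h0 : 0 < 1 - θ := by linarith
    refine ⟨hy, θ / (1 - θ), by positivity, ?_⟩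
    have h2 : (1 + θ / (1 - θ)) • p - (θ / (1 - θ)) • y = z := by
      have h3 : (1 + θ / (1 - θ)) * θ = θ / (1 - θ) := by
        field_simp
        ring
      have h4 : (1 + θ / (1 - θ)) * (1 - θ) = 1 := by
        field_simp
        ring
      rw [h, smul_add, smul_smul, smul_smul, h3, h4, one_smul, add_sub_cancel_left]
    rw [h2]
    exact hz

private theorem faces_ext {C : Set E} (hC : Convex ℝ C) {p x y z : E} {a b : ℝ}
    (hx : x ∈ C) (hy : y ∈ C) (hz : z ∈ minFace C p) (ha : 0 < a) (hb : 0 < b) (hab : a + b = 1)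
    (h : a • x + b • y = z) : x ∈ minFace C p := by
  obtain ⟨-, ε, hε, hw⟩ := hz
  have hz' := hC hw hy (a := 1 / (1 + ε * b)) (b := ε * b / (1 + ε * b)) (by positivity)
    (by positivity) (by
      have : 1 + ε * b ≠ 0 := by positivity
      field_simp)
  refine faces_mem hC (θ := ε * a / (1 + ε)) (by positivity) ?_ hx hz' ?_
  · rw [div_le_one (by positivity)]
    nlinarith
  · have e1 : (1 - ε * a / (1 + ε)) * (1 / (1 + ε * b)) = 1 / (1 + ε) := by
      have h1 : 1 + ε * b ≠ 0 := by positivity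
      have h2 : 1 + ε ≠ 0 := by positivity
      have h3 : a = 1 - b := by linarith
      rw [h3]
      field_simp
      ring
    have e2 : (1 - ε * a / (1 + ε)) * (ε * b / (1 + ε * b)) = ε * b / (1 + ε) := by
      have h1 : 1 + ε * b ≠ 0 := by positivity
      have h2 : 1 + ε ≠ 0 := by positivity
      have h3 : a = 1 - b := by linarith
      rw [h3]
      field_simp
      ring
    have e3 : (1 / (1 + ε)) * (1 + ε) = 1 := by
      have h2 : 1 + ε ≠ 0 := by positivity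
      field_simp
    rw [smul_add, smul_smul, smul_smul, e1, e2, smul_sub, smul_smul, e3, one_smul, ← h, smul_add,
      smul_smul, smul_smul, smul_add, smul_smul, smul_smul]
    have e4 : 1 / (1 + ε) * (ε * a) = ε * a / (1 + ε) := by ring
    have e5 : 1 / (1 + ε) * (ε * b) = ε * b / (1 + ε) := by ring
    rw [e4, e5]
    abel

private theorem faces_avg_mem {ι : Type*} {K : Set E} (hK : Convex ℝ K) {Z : Finset ι}
    (hZ : Z.Nonempty) {q : ι → E} (hq : ∀ s ∈ Z, q s ∈ K) : (Z.card : ℝ)⁻¹ • ∑ s ∈ Z, q s ∈ K := by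
  have hc : (Z.card : ℝ) ≠ 0 := by exact_mod_cast hZ.card_pos.ne'
  rw [Finset.smul_sum]
  refine hK.sum_mem (fun _ _ => by positivity) ?_ hq
  rw [Finset.sum_const, nsmul_eq_mul, mul_inv_cancel₀ hc]

/-- **minFace is a face.** Convexity: if `(1+ε₁)p - ε₁y₁` and `(1+ε₂)p - ε₂y₂` are in `C`, then with
`ε = min ε₁ ε₂` both `(1+ε)p - εyᵢ` are in `C` (they are on the segments from `p` to these points).
Extremality: if `y = λa + (1-λ)b` with `a, b ∈ C` and `z = (1+ε)p - εy ∈ C`, then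
`p = θ a + (1-θ) z'` with `θ = ελ/(1+ε)` and `z' ∈ C`, so `(1+ε')p - ε'a = z' ∈ C` for
`ε' = θ/(1-θ)`. -/
theorem minFace_isFace {C : Set E} (hC : Convex ℝ C) {p : E} (hp : p ∈ C) :
    IsFace C (minFace C p) := by
  refine ⟨fun y hy => hy.1, ?_, ?_⟩
  · rintro y₁ ⟨h1, ε₁, hε₁, hw₁⟩ y₂ ⟨h2, ε₂, hε₂, hw₂⟩ a b ha hb hab
    refine ⟨hC h1 h2 ha hb hab, min ε₁ ε₂, lt_min hε₁ hε₂, ?_⟩
    have g1 := faces_shrink hC hp (lt_min hε₁ hε₂) (min_le_left _ _) hw₁
    have g2 := faces_shrink hC hp (lt_min hε₁ hε₂) (min_le_right _ _) hw₂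
    have g3 := hC g1 g2 ha hb hab
    have g4 : (1 + min ε₁ ε₂) • p - min ε₁ ε₂ • (a • y₁ + b • y₂) =
        a • ((1 + min ε₁ ε₂) • p - min ε₁ ε₂ • y₁) +
          b • ((1 + min ε₁ ε₂) • p - min ε₁ ε₂ • y₂) := by
      have g5 : (a + b) • ((1 + min ε₁ ε₂) • p) = (1 + min ε₁ ε₂) • p := by rw [hab, one_smul]
      calc (1 + min ε₁ ε₂) • p - min ε₁ ε₂ • (a • y₁ + b • y₂)
          = (a + b) • ((1 + min ε₁ ε₂) • p) - min ε₁ ε₂ • (a • y₁ + b • y₂) := by rw [g5]
        _ = _ := by module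
    rw [g4]
    exact g3
  · rintro x hx y hy z hz ⟨a, b, ha, hb, hab, h⟩
    refine ⟨faces_ext hC hx hy hz ha hb hab h, faces_ext hC hy hx hz hb ha ?_ ?_⟩
    · rw [add_comm]; exact hab
    · rw [add_comm]; exact h

/-- If `p = θ y + (1-θ) z` with `0 < θ`, `y, z ∈ C`, then `y ∈ minFace C p`. -/
theorem mem_minFace {C : Set E} (hC : Convex ℝ C) {p y z : E} {θ : ℝ} (hθ : 0 < θ) (hθ1 : θ ≤ 1)
    (hy : y ∈ C) (hz : z ∈ C) (h : p = θ • y + (1 - θ) • z) : y ∈ minFace C p := by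
  exact faces_mem hC hθ hθ1 hy hz h

/-- **Averages.** A nonempty finite family of points `q s`, `s ∈ Z`, of a convex set `K` has a point
`p ∈ K` (the average) such that every `q s` satisfies `p = θ q s + (1-θ) z` for some `z ∈ K` and
`0 < θ ≤ 1`, and such that every affine function vanishing at all `q s` vanishes at `p`. -/
theorem exists_avg {ι : Type*} {K : Set E} (hK : Convex ℝ K) (Z : Finset ι) (hZ : Z.Nonempty)
    (q : ι → E) (hq : ∀ s ∈ Z, q s ∈ K) :
    ∃ p ∈ K, (∀ s ∈ Z, ∃ z ∈ K, ∃ θ : ℝ, 0 < θ ∧ θ ≤ 1 ∧ p = θ • q s + (1 - θ) • z) ∧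
      ∀ φ : E →ᵃ[ℝ] ℝ, (∀ s ∈ Z, φ (q s) = 0) → φ p = 0 := by
  classical
  have hc0 : 0 < (Z.card : ℝ) := by exact_mod_cast hZ.card_pos
  refine ⟨(Z.card : ℝ)⁻¹ • ∑ s ∈ Z, q s, faces_avg_mem hK hZ hq, fun s hs => ?_, fun φ hφ => ?_⟩
  · rcases (Z.erase s).eq_empty_or_nonempty with he | hne
    · refine ⟨q s, hq s hs, 1, one_pos, le_rfl, ?_⟩
      have h1 : Z = {s} := by
        refine Finset.eq_singleton_iff_unique_mem.2 ⟨hs, fun t ht => ?_⟩
        by_contra hts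
        have : t ∈ Z.erase s := Finset.mem_erase.2 ⟨hts, ht⟩
        rw [he] at this
        exact absurd this (Finset.notMem_empty t)
      rw [h1]
      simp
    · have hcard : ((Z.erase s).card : ℝ) = Z.card - 1 := by
        rw [Finset.card_erase_of_mem hs, Nat.cast_sub hZ.card_pos, Nat.cast_one]
      have hc1 : 0 < (Z.card : ℝ) - 1 := by
        rw [← hcard]
        exact_mod_cast hne.card_pos
      refine ⟨((Z.erase s).card : ℝ)⁻¹ • ∑ t ∈ Z.erase s, q t,
        faces_avg_mem hK hne fun t ht => hq t (Finset.mem_of_mem_erase ht), (Z.card : ℝ)⁻¹,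
        by positivity, ?_, ?_⟩
      · rw [inv_le_one₀ hc0]
        linarith
      · rw [smul_smul, hcard]
        have h2 : (1 - (Z.card : ℝ)⁻¹) * ((Z.card : ℝ) - 1)⁻¹ = (Z.card : ℝ)⁻¹ := by
          field_simp
        rw [h2, ← smul_add, Finset.add_sum_erase Z q hs]
  · have h1 : ∀ x, φ x = φ.linear x + φ 0 := fun x => by
      have := φ.map_vadd 0 x
      simpa using this
    rw [h1, map_smul, map_sum]
    have h2 : ∀ s ∈ Z, φ.linear (q s) = -φ 0 := fun s hs => by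
      have := h1 (q s)
      rw [hφ s hs] at this
      linarith
    rw [Finset.sum_congr rfl h2, Finset.sum_const, nsmul_eq_mul, smul_eq_mul,
      inv_mul_cancel_left₀ hc0.ne', neg_add_cancel]

end Pool.Agent.ConvF
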