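import Pool.Agent.ConvF.Faces
import Pool.Agent.ConvF.Cuts

/-!
# From a convex formulation to a combinatorial cover

Let `F` be a program whose matrices are all distance matrices, and `𝒮` a set of cuts whose matrices
it describes. Choose feasible `q s` over `cutD s`, `s ∈ 𝒮`. For a triple `t` let
`Z t = {s ∈ 𝒮 | s does not separate t}`; if it is nonempty let `p t` be the average of the `q s`,
`s ∈ Z t` (`exists_avg` for the convex set `F.Feas`). For a constraint `b` put
`M (some b) t s` iff `s ∈ 𝒮`, `s` separates `t`, `Z t` is nonempty and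
`A b (q s) ∉ minFace (C b) (A b (p t))`; and `M none t s` iff `s ∈ 𝒮`, `s` separates `t` and `Z t` is
empty.

* Cover: let `s ∈ 𝒮` separate `t`, `Z t` nonempty, and suppose `A b (q s)` is in
  `minFace (C b) (A b (p t))` for all `b`. Then for a small `ε > 0` the point
  `y = (1+ε) p t - ε q s` is feasible (all `b` simultaneously; the set of good `ε` is downward closed
  by convexity, `A b` is affine, equations are clear). The slack of `t` is an affine function of
  `P x`; it is `0` at `p t` and `1` at `q s`, so it is `-ε < 0` at `y`: contradiction with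
  `slack_nonneg`.
* `TriLE (M none) 1`: for a sequence with `k ≥ 2`, `s 1 ∈ Z (t 0)`.
* `TriLE (M (some b)) (ℓ b + 1)`: let `(t i, s i)`, `i < k`, be a triangular sequence, `k ≥ 1`. Put
  `F j = C b ∩ ⋂_{i<j} minFace (C b) (A b (p (t i)))`, `j = 0, …, k-1`. These are faces, and
  `A b (q (s j)) ∈ F j` since `s j ∈ Z (t i)` for `i < j` (`mem_minFace`), so they are nonempty; and
  `A b (q (s j)) ∉ F (j+1)`. So `F` is a strictly decreasing chain `F 0 ⊋ ⋯ ⊋ F (k-1)`, and
  `k - 1 ≤ ℓ b`.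
-/

namespace Pool.Agent.ConvF

open Finset Pool.Agent.H98.ConicCount

variable {n : ℕ}

private theorem geo_affine {V W : Type*} [AddCommGroup V] [Module ℝ V] [AddCommGroup W]
    [Module ℝ W] (f : V →ᵃ[ℝ] W) (a b : ℝ) (hab : a + b = 1) (x y : V) :
    f (a • x + b • y) = a • f x + b • f y := by
  have h1 : ∀ x, f x = f.linear x + f 0 := fun x => by
    have := f.map_vadd 0 x
    simpa using this
  rw [h1 (a • x + b • y), h1 x, h1 y, map_add, map_smul, map_smul, smul_add, smul_add]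
  have h2 : f 0 = a • f 0 + b • f 0 := by rw [← add_smul, hab, one_smul]
  calc a • f.linear x + b • f.linear y + f 0
      = a • f.linear x + b • f.linear y + (a • f 0 + b • f 0) := by rw [← h2]
    _ = _ := by abel

private theorem geo_shrink {V : Type*} [AddCommGroup V] [Module ℝ V] {C : Set V}
    (hC : Convex ℝ C) {p y : V} (hp : p ∈ C) {δ ε : ℝ}
    (hδ : 0 < δ) (hδε : δ ≤ ε) (h : (1 + ε) • p - ε • y ∈ C) : (1 + δ) • p - δ • y ∈ C := by
  have hε : 0 < ε := lt_of_lt_of_le hδ hδε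
  have h1 := hC hp h (a := 1 - δ / ε) (b := δ / ε) (by
    rw [sub_nonneg, div_le_one hε]
    exact hδε) (by positivity) (by ring)
  have h2 : (1 + δ) • p - δ • y = (1 - δ / ε) • p + (δ / ε) • ((1 + ε) • p - ε • y) := by
    have h3 : δ / ε * ε = δ := div_mul_cancel₀ _ hε.ne'
    rw [smul_sub, smul_smul, smul_smul, h3, ← add_sub_assoc, ← add_smul]
    congr 2
    rw [mul_add, h3]
    ring
  rw [h2]
  exact h1

theorem feas_convex (F : Formulation n) : Convex ℝ F.Feas := by
  rintro x ⟨hx1, hx2⟩ y ⟨hy1, hy2⟩ a b ha hb hab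
  refine ⟨fun e => ?_, fun c => ?_⟩
  · rw [map_add, map_smul, map_smul, hx1, hy1, smul_eq_mul, smul_eq_mul, ← add_mul, hab, one_mul]
  · rw [geo_affine _ _ _ hab]
    exact F.convex c (hx2 c) (hy2 c) ha hb hab

/-- The slack as a linear function. -/
private def slackL (t : Tri n) : (Fin n → Fin n → ℝ) →ₗ[ℝ] ℝ where
  toFun := slack t
  map_add' D D' := by
    simp only [slack, Pi.add_apply]
    ring
  map_smul' c D := by
    simp only [slack, Pi.smul_apply, smul_eq_mul, RingHom.id_apply]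
    ring

private theorem geo_exists_eps {ι : Type*} (S : Finset ι) (e : ι → ℝ) (he : ∀ i, 0 < e i) :
    ∃ ε : ℝ, 0 < ε ∧ ∀ i ∈ S, ε ≤ e i := by
  classical
  induction S using Finset.induction_on with
  | empty => exact ⟨1, one_pos, fun i hi => absurd hi (Finset.notMem_empty i)⟩
  | insert a S _ ih =>
    obtain ⟨ε, hε, h⟩ := ih
    refine ⟨min ε (e a), lt_min hε (he a), fun i hi => ?_⟩
    rcases Finset.mem_insert.1 hi with rfl | hi
    · exact min_le_right _ _
    · exact (min_le_left _ _).trans (h i hi)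

theorem geo (F : Formulation n) (hF : F.matrices ⊆ distMatrices n)
    (𝒮 : Finset (Fin n → Bool)) (hS : ∀ s ∈ 𝒮, cutD s ∈ F.matrices) (ℓ : F.ι → ℕ)
    (hℓ : ∀ b, ChainsLE (F.C b) (ℓ b)) :
    ∃ M : Option F.ι → Tri n → (Fin n → Bool) → Prop,
      (∀ b t s, M b t s → s ∈ 𝒮 ∧ SepBy t s) ∧
      (∀ s ∈ 𝒮, ∀ t, SepBy t s → ∃ b, M b t s) ∧
      TriLE (M none) 1 ∧ ∀ b, TriLE (M (some b)) (ℓ b + 1) := by
  classical
  obtain ⟨q, hq⟩ : ∃ q : (Fin n → Bool) → F.X, ∀ s ∈ 𝒮, q s ∈ F.Feas ∧ F.P (q s) = cutD s := by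
    refine ⟨fun s => if h : s ∈ 𝒮 then (hS s h).choose else 0, fun s hs => ?_⟩
    simp only [hs, dif_pos]
    exact (hS s hs).choose_spec
  obtain ⟨Z, hZdef⟩ : ∃ Z : Tri n → Finset (Fin n → Bool),
      ∀ t s, s ∈ Z t ↔ s ∈ 𝒮 ∧ ¬ SepBy t s :=
    ⟨fun t => 𝒮.filter fun s => ¬ SepBy t s, fun t s => Finset.mem_filter⟩
  have hp : ∀ t, ∃ p : F.X, (Z t).Nonempty → p ∈ F.Feas ∧
      (∀ s ∈ Z t, ∃ z ∈ F.Feas, ∃ θ : ℝ, 0 < θ ∧ θ ≤ 1 ∧ p = θ • q s + (1 - θ) • z) ∧
      ∀ φ : F.X →ᵃ[ℝ] ℝ, (∀ s ∈ Z t, φ (q s) = 0) → φ p = 0 := by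
    intro t
    by_cases h : (Z t).Nonempty
    · obtain ⟨p, hp1, hp2, hp3⟩ := exists_avg (feas_convex F) (Z t) h q
        (fun s hs => (hq s ((hZdef t s).1 hs).1).1)
      exact ⟨p, fun _ => ⟨hp1, hp2, hp3⟩⟩
    · exact ⟨0, fun h' => absurd h' h⟩
  choose p hp using hp
  refine ⟨fun b t s => s ∈ 𝒮 ∧ SepBy t s ∧ match b with
    | none => Z t = ∅
    | some b => (Z t).Nonempty ∧ F.A b (q s) ∉ minFace (F.C b) (F.A b (p t)),
    fun b t s h => ⟨h.1, h.2.1⟩, ?_, ?_, ?_⟩
  · intro s hs t hsep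
    rcases (Z t).eq_empty_or_nonempty with he | hne
    · exact ⟨none, hs, hsep, he⟩
    · by_contra hcon
      have hall : ∀ b, F.A b (q s) ∈ minFace (F.C b) (F.A b (p t)) := by
        intro b
        by_contra hb
        exact hcon ⟨some b, hs, hsep, hne, hb⟩
      obtain ⟨hpF, -, hpφ⟩ := hp t hne
      choose e he using fun b => (hall b).2
      obtain ⟨ε, hε, hεe⟩ := geo_exists_eps Finset.univ e fun b => (he b).1
      have hqF := (hq s hs).1
      have hy : (1 + ε) • p t - ε • q s ∈ F.Feas := by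
        refine ⟨fun k => ?_, fun b => ?_⟩
        · rw [map_sub, map_smul, map_smul, hpF.1, hqF.1, smul_eq_mul, smul_eq_mul]
          ring
        · have h1 : (1 + ε) • p t - ε • q s = (1 + ε) • p t + (-ε) • q s := by
            rw [neg_smul, sub_eq_add_neg]
          rw [h1, geo_affine _ _ _ (by ring), neg_smul, ← sub_eq_add_neg]
          exact geo_shrink (F.convex b) (hpF.2 b) hε (hεe b (Finset.mem_univ b)) (he b).2
      have hφ := hpφ ((slackL t).toAffineMap.comp F.P) (fun s' hs' => by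
        obtain ⟨h1, h2⟩ := (hZdef t s').1 hs'
        change slack t (F.P (q s')) = 0
        rw [(hq s' h1).2, slack_cut, if_neg h2])
      have hφ' : slack t (F.P (p t)) = 0 := hφ
      have h2 := slack_nonneg t (hF ⟨_, hy, rfl⟩)
      have h3 : slack t (F.P ((1 + ε) • p t - ε • q s)) = -ε := by
        have h1 : (1 + ε) • p t - ε • q s = (1 + ε) • p t + (-ε) • q s := by
          rw [neg_smul, sub_eq_add_neg]
        rw [h1, geo_affine _ _ _ (by ring)]
        change slackL t _ = -ε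
        rw [map_add, map_smul, map_smul]
        change (1 + ε) • slack t (F.P (p t)) + (-ε) • slack t (F.P (q s)) = -ε
        rw [hφ', (hq s hs).2, slack_cut, if_pos hsep]
        simp
      linarith
  · intro k t s hM hns
    by_contra hk
    push Not at hk
    have h1 := hM ⟨0, by omega⟩
    have h2 := hM ⟨1, hk⟩
    have h3 := hns ⟨1, hk⟩ ⟨0, by omega⟩ (by
      rw [Fin.lt_def]
      exact Nat.zero_lt_one)
    have h4 : s ⟨1, hk⟩ ∈ Z (t ⟨0, by omega⟩) := (hZdef _ _).2 ⟨h2.1, h3⟩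
    have h5 : Z (t ⟨0, by omega⟩) = ∅ := h1.2.2
    rw [h5] at h4
    exact absurd h4 (Finset.notMem_empty _)
  · intro b k t s hM hns
    rcases k with _ | m
    · omega
    · have hne : ∀ i, (Z (t i)).Nonempty := fun i => (hM i).2.2.1
      have hnot : ∀ i, F.A b (q (s i)) ∉ minFace (F.C b) (F.A b (p (t i))) :=
        fun i => (hM i).2.2.2
      have hface : ∀ i, IsFace (F.C b) (minFace (F.C b) (F.A b (p (t i)))) := fun i =>
        minFace_isFace (F.convex b) ((hp (t i) (hne i)).1.2 b)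
      have hmem : ∀ j, F.A b (q (s j)) ∈ {x | x ∈ F.C b ∧
          ∀ i < j, x ∈ minFace (F.C b) (F.A b (p (t i)))} := by
        intro j
        have hj := (hM j).1
        refine ⟨(hq _ hj).1.2 b, fun i hij => ?_⟩
        obtain ⟨z, hz, θ, h0, h1, h⟩ := (hp (t i) (hne i)).2.1 (s j)
          ((hZdef _ _).2 ⟨hj, hns j i hij⟩)
        refine mem_minFace (F.convex b) h0 h1 ((hq _ hj).1.2 b) (hz.2 b) ?_
        rw [h, geo_affine _ _ _ (by ring)]
      have key := hℓ b m (fun j => {x | x ∈ F.C b ∧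
        ∀ i < j, x ∈ minFace (F.C b) (F.A b (p (t i)))}) ?_ (fun j => ⟨_, hmem j⟩) ?_
      · omega
      · intro j
        refine ⟨fun x hx => hx.1, ?_, ?_⟩
        · rintro x ⟨hx, hx'⟩ y ⟨hy, hy'⟩ α β hα hβ hαβ
          exact ⟨F.convex b hx hy hα hβ hαβ, fun i hij =>
            (hface i).2.1 (hx' i hij) (hy' i hij) hα hβ hαβ⟩
        · rintro x hx y hy z ⟨hz, hz'⟩ hzo
          exact ⟨⟨hx, fun i hij => ((hface i).2.2 x hx y hy z (hz' i hij) hzo).1⟩,
            ⟨hy, fun i hij => ((hface i).2.2 x hx y hy z (hz' i hij) hzo).2⟩⟩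
      · intro i j hij
        refine ⟨fun x hx => ⟨hx.1, fun l hl => hx.2 l (hl.trans hij)⟩, fun hsub => ?_⟩
        exact hnot i ((hsub (hmem i)).2 i hij)

end Pool.Agent.ConvF
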