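import Pool.Agent.ConvF.Defs

/-!
# Convex programs for all distances: definitions
-/

namespace Pool.Agent.ConvF

/-- A convex program for the distances in weighted graphs with vertex set `Fin n`. The data are the
weights `W` of the pairs of vertices; the unknown is an element `x` of a real vector space `X` (of
any dimension). The constraints are arbitrarily many equations `eqn e (W, x) = 0` and finitely many
conditions `A b (W, x) ∈ C b` with arbitrary convex sets `C b` of real vector spaces `E b`; the
functions `eqn e`, `A b` and the output matrix `out` are affine in `(W, x)` jointly. -/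
structure Program (n : ℕ) where
  X : Type
  [instX₁ : AddCommGroup X]
  [instX₂ : Module ℝ X]
  κ : Type
  eqn : κ → ((Fin n → Fin n → ℝ) × X) →ᵃ[ℝ] ℝ
  ι : Type
  [instι : Fintype ι]
  E : ι → Type
  [instE₁ : ∀ b, AddCommGroup (E b)]
  [instE₂ : ∀ b, Module ℝ (E b)]
  C : ∀ b, Set (E b)
  convex : ∀ b, Convex ℝ (C b)
  A : ∀ b, ((Fin n → Fin n → ℝ) × X) →ᵃ[ℝ] E b
  out : ((Fin n → Fin n → ℝ) × X) →ᵃ[ℝ] (Fin n → Fin n → ℝ)

attribute [instance] Program.instX₁ Program.instX₂ Program.instι Program.instE₁ Program.instE₂

/-- The feasible vectors for the weights `W`. -/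
def Program.Feas {n : ℕ} (P : Program n) (W : Fin n → Fin n → ℝ) : Set P.X :=
  {x | (∀ e, P.eqn e (W, x) = 0) ∧ ∀ b, P.A b (W, x) ∈ P.C b}

/-- The programs `P j` together determine all distances for the weights `W`: no feasible vector of
any of them has an output larger than a distance, and some feasible vector of one of them has
outputs which are at least the distances. -/
def Correct {n : ℕ} {J : Type} (P : J → Program n) (W : Fin n → Fin n → ℝ) : Prop :=
  (∀ j, ∀ x ∈ (P j).Feas W, ∀ u v, u ≠ v → (P j).out (W, x) u v ≤ dist W u v) ∧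
    ∃ j, ∃ x ∈ (P j).Feas W, ∀ u v, u ≠ v → dist W u v ≤ (P j).out (W, x) u v

end Pool.Agent.ConvF
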