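import Pool.Agent.ConvF.GeoAbs
import Pool.Agent.ConvF.CutW
import Pool.Agent.ConvF.PDefs

/-!
# From programs to combinatorial covers
-/

namespace Pool.Agent.ConvF

open Finset Pool.Agent.H98.ConicCount

variable {n : ℕ}

/-- Evaluation of the weights. -/
def evW {X : Type} [AddCommGroup X] [Module ℝ X] (u v : Fin n) :
    ((Fin n → Fin n → ℝ) × X) →ₗ[ℝ] ℝ where
  toFun p := p.1 u v
  map_add' _ _ := rfl
  map_smul' _ _ := rfl

/-- Evaluation of a matrix. -/
def evM (u v : Fin n) : (Fin n → Fin n → ℝ) →ₗ[ℝ] ℝ where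
  toFun p := p u v
  map_add' _ _ := rfl
  map_smul' _ _ := rfl

theorem geo2 {J : Type} (P : J → Program n)
    (hP : ∀ W : Fin n → Fin n → ℝ, (∀ u, W u u = 0) → (∀ u v, W u v = W v u) →
      (∀ u v, u ≠ v → 1 ≤ W u v ∧ W u v ≤ 3) → Correct P W) :
    ∃ f : (Fin n → Bool) → J, ∀ j, ∀ ℓ : (P j).ι → ℕ, (∀ b, ChainsLE ((P j).C b) (ℓ b)) →
      ∃ M : Option (P j).ι → Tri n → (Fin n → Bool) → Prop,
        (∀ b t s, M b t s → SepBy t s) ∧
        (∀ s, f s = j → ∀ t, TK t → SepBy t s → ∃ b, M b t s) ∧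
        TriLE (M none) 1 ∧ ∀ b, TriLE (M (some b)) (ℓ b + 1) := by
  classical
  have hC : ∀ s : Fin n → Bool, Correct P (cutW s) := fun s =>
    hP _ (cutW_self s) (cutW_comm s) fun u v h => by
      obtain ⟨h1, h2⟩ := cutW_bounds s h
      exact ⟨by linarith, by linarith⟩
  have hC2 := fun s => (hC s).2
  choose f hf using hC2
  refine ⟨f, fun j ℓ hℓ => ?_⟩
  have hx : ∀ s, f s = j → ∃ x ∈ (P j).Feas (cutW s), ∀ u v, u ≠ v →
      (P j).out (cutW s, x) u v = cutW s u v := by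
    rintro s rfl
    obtain ⟨x, hx1, hx2⟩ := hf s
    refine ⟨x, hx1, fun u v huv => le_antisymm ?_ ?_⟩
    · have := (hC s).1 _ x hx1 u v huv
      rwa [dist_cutW] at this
    · have := hx2 u v huv
      rwa [dist_cutW] at this
  choose x hx1 hx2 using hx
  let q : (Fin n → Bool) → (Fin n → Fin n → ℝ) × (P j).X := fun s =>
    if h : f s = j then (cutW s, x s h) else 0
  have hqs : ∀ s (h : f s = j), q s = (cutW s, x s h) := fun s h => dif_pos h
  set 𝒮 : Finset (Fin n → Bool) := univ.filter fun s => f s = j with h𝒮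
  have h𝒮m : ∀ s, s ∈ 𝒮 ↔ f s = j := fun s => by rw [h𝒮, mem_filter]; simp
  -- the slack functions
  let φ : Tri n → ((Fin n → Fin n → ℝ) × (P j).X) →ᵃ[ℝ] ℝ := fun t =>
    (evW (t 0) (t 1) + evW (t 1) (t 2)).toAffineMap -
      (evM (t 0) (t 2)).toAffineMap.comp (P j).out
  have hφ : ∀ t z, φ t z = z.1 (t 0) (t 1) + z.1 (t 1) (t 2) - (P j).out z (t 0) (t 2) :=
    fun t z => rfl
  have hφq : ∀ t, TK t → ∀ s ∈ 𝒮, φ t (q s) = if SepBy t s then 2 / 5 else 0 := by
    intro t ht s hs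
    have h02 : t 0 ≠ t 2 := fun h => by simpa using t.injective h
    rw [h𝒮m] at hs
    rw [hφ, hqs s hs, hx2 s hs _ _ h02]
    exact slack_cutW ht s
  -- the domain
  set K := convexHull ℝ (q '' (𝒮 : Set (Fin n → Bool))) with hK
  have hK1 : ∀ p ∈ K, (∀ u, p.1 u u = 0) ∧ (∀ u v, p.1 u v = p.1 v u) ∧
      (∀ u v, u ≠ v → 6 / 5 ≤ p.1 u v ∧ p.1 u v ≤ 13 / 5) ∧ ∀ e, (P j).eqn e p = 0 := by
    let D : Set ((Fin n → Fin n → ℝ) × (P j).X) := {p | (∀ u, p.1 u u = 0) ∧
      (∀ u v, p.1 u v = p.1 v u) ∧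
      (∀ u v, u ≠ v → 6 / 5 ≤ p.1 u v ∧ p.1 u v ≤ 13 / 5) ∧ ∀ e, (P j).eqn e p = 0}
    have hD : Convex ℝ D := by
      rw [convex_iff_forall_pos]
      intro p hp p' hp' a b ha hb hab
      obtain ⟨h1, h2, h3, h4⟩ := hp
      obtain ⟨h1', h2', h3', h4'⟩ := hp'
      refine ⟨fun u => ?_, fun u v => ?_, fun u v huv => ?_, fun e => ?_⟩
      · change a * p.1 u u + b * p'.1 u u = 0
        rw [h1, h1']; ring
      · change a * p.1 u v + b * p'.1 u v = a * p.1 v u + b * p'.1 v u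
        rw [h2 u v, h2' u v]
      · change 6 / 5 ≤ a * p.1 u v + b * p'.1 u v ∧ a * p.1 u v + b * p'.1 u v ≤ 13 / 5
        obtain ⟨k1, k2⟩ := h3 u v huv
        obtain ⟨k1', k2'⟩ := h3' u v huv
        have hb' : b = 1 - a := by linarith
        subst hb'
        constructor <;> nlinarith
      · have hb' : b = 1 - a := by linarith
        rw [hb', aff_combo, h4 e, h4' e]
        simp
    have : K ⊆ D := by
      apply convexHull_min _ hD
      rintro _ ⟨s, hs, rfl⟩
      have hs' : f s = j := (h𝒮m s).1 hs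
      rw [hqs s hs']
      exact ⟨cutW_self s, cutW_comm s, fun u v h => cutW_bounds s h, (hx1 s hs').1⟩
    exact this
  have hqK : ∀ s ∈ 𝒮, q s ∈ K := fun s hs => subset_convexHull ℝ _ ⟨s, hs, rfl⟩
  obtain ⟨M, hM1, hM2, hM3, hM4⟩ := geoAbs (P j).C (P j).convex (P j).A 𝒮 q
    (fun s hs b => by
      have hs' : f s = j := (h𝒮m s).1 hs
      rw [hqs s hs']
      exact (hx1 s hs').2 b) TK φ
    (fun t ht s hs hsep => by rw [hφq t ht s hs, if_neg hsep])
    (fun t ht s hs hsep => by rw [hφq t ht s hs, if_pos hsep]; norm_num)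
    (by
      intro t ht p hp s hs ε hε hε1 hb
      obtain ⟨h1, h2, h3, h4⟩ := hK1 p hp
      obtain ⟨g1, g2, g3, g4⟩ := hK1 (q s) (hqK s hs)
      set y := (1 + ε) • p - ε • q s with hy
      have hy1 : ∀ u v, y.1 u v = (1 + ε) * p.1 u v - ε * (q s).1 u v := fun u v => rfl
      have hW : Correct P y.1 := by
        apply hP
        · intro u
          rw [hy1, h1, g1]; ring
        · intro u v
          rw [hy1, hy1, h2 u v, g2 u v]
        · intro u v huv
          rw [hy1]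
          obtain ⟨k1, k2⟩ := h3 u v huv
          obtain ⟨l1, l2⟩ := g3 u v huv
          constructor <;> nlinarith
      have hfeas : y.2 ∈ (P j).Feas y.1 := by
        refine ⟨fun e => ?_, fun b => ?_⟩
        · change (P j).eqn e y = 0
          rw [hy, aff_extrap, h4 e, g4 e]
          simp
        · exact hb b
      have h02 : t 0 ≠ t 2 := fun h => by simpa using t.injective h
      have h01 : t 0 ≠ t 1 := fun h => by simpa using t.injective h
      have h12 : t 1 ≠ t 2 := fun h => by simpa using t.injective h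
      have h5 := hW.1 j y.2 hfeas (t 0) (t 2) h02
      have hWn : ∀ u v, 0 ≤ y.1 u v := by
        intro u v
        by_cases huv : u = v
        · rw [huv, hy1, h1, g1]; simp
        · rw [hy1]
          obtain ⟨k1, k2⟩ := h3 u v huv
          obtain ⟨l1, l2⟩ := g3 u v huv
          nlinarith
      have h6 := dist_le_walk hWn h02 [t 1]
      have h7 : walkWeight y.1 (t 0) [t 1] (t 2) = y.1 (t 0) (t 1) + y.1 (t 1) (t 2) := rfl
      rw [hφ]
      have h8 : (P j).out y (t 0) (t 2) ≤ y.1 (t 0) (t 1) + y.1 (t 1) (t 2) := by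
        rw [← h7]; exact h5.trans h6
      linarith) ℓ hℓ
  exact ⟨M, hM1, fun s hs => hM2 s ((h𝒮m s).2 hs), hM3, hM4⟩

end Pool.Agent.ConvF
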