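import Pool.Agent.ConvF.Defs

/-!
# The sampling process

Let `M` have no triangular sequence of more than `L` pairs, and let `𝒮` be a set of colourings all of
whose patterns on sets `J` disjoint from `I` have density at most `θ^|J|`, `θ = 53/100`. Then
`∑_{s ∈ 𝒮} #{t | M t s, t disjoint from I} ≤ (64000 L³ + 1) |𝒮|`.

Proof. For a set `A` disjoint from `I` and a pattern `α`, put `𝒮_{A,α} = {s ∈ 𝒮 | s = α on A}`.
Claim: if there is a sequence `(t₀,s'₀), …, (t_{i-1}, s'_{i-1})` with `M t_j s'_j`, no `s'_j` separating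
a `t_{j'}` with `j' < j`, and no `s ∈ 𝒮_{A,α}` separating any `t_j`, then
`∑_{s ∈ 𝒮_{A,α}} N s ≤ 64000 L³ |𝒮_{A,α}| + |𝒮| (3/4)^|A| 17^{-i}`, `N s = #{t | M t s, t ∩ I = ∅}`.
The theorem is the case `A = ∅`, `i = 0`. Proof of the claim by induction on `n - |A|`
(note `i ≤ L` by hypothesis).
Case 1: some `s' ∈ 𝒮_{A,α}` and some `t` with `M t s'`, `t ∩ I = ∅` and `t ⊄ A`. Let
`c = |t \ A| ∈ {1,2,3}`. Split `𝒮_{A,α}` according to the `2^c` patterns on `t \ A` (functions `α'` equal to
`α` outside `t \ A`). If `α'` separates `t` use induction with `A ∪ t` and the same sequence; if not,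
use induction with `A ∪ t` and the sequence extended by `(t, s')`. At most `σ_c` patterns separate
`t`, `σ₁ = σ₂ = 1`, `σ₃ = 2` (a separating pattern is determined by the colour of `t 1`, and if
`c ≤ 2` by the known colour of a vertex of `t` in `A`). So the error terms add up to at most
`|𝒮| (3/4)^|A| 17^{-i} · (3/4)^c (σ_c + (2^c - σ_c)/17)`, and the last factors are at most `1`:
`(3/4)(18/17)`, `(9/16)(20/17)`, `(27/64)(40/17) = 0.9927`.
Case 2: otherwise every `t` counted by `N s`, `s ∈ 𝒮_{A,α}`, lies in `A`, so `N s ≤ a³`, `a = |A|`.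
If `a ≤ 40 L` we are done. Otherwise `|𝒮_{A,α}| ≤ θ^a |𝒮|` and
`a³ θ^a ≤ (3/4)^a 17^{-L} ≤ (3/4)^a 17^{-i}` (`num_ineq` below).
-/

namespace Pool.Agent.ConvF

open Finset Pool.Agent.H98.ConicCount

/-- `a³ (53/75)^a 17^L ≤ 1` for `a > 40 L`, `L ≥ 1`; indeed `a³ (53/75)^a` decreases for `a ≥ 9`, and
`(41 L)³ (53/75) ((53/75)^40 · 17)^L ≤ 1`. -/
theorem num_ineq (L a : ℕ) (hL : 1 ≤ L) (ha : 40 * L < a) :
    (a : ℝ) ^ 3 * (53 / 100) ^ a ≤ (3 / 4) ^ a * (1 / 17) ^ L := by
  have ha' : 40 * L + 1 ≤ a := ha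
  clear ha
  induction a, ha' using Nat.le_induction with
  | base =>
    induction L, hL using Nat.le_induction with
    | base => norm_num
    | succ L hL ih =>
      have hL1 : (1 : ℝ) ≤ L := by exact_mod_cast hL
      have e1 : 40 * (L + 1) + 1 = (40 * L + 1) + 40 := by ring
      rw [e1, pow_add (53 / 100 : ℝ) (40 * L + 1) 40, pow_add (3 / 4 : ℝ) (40 * L + 1) 40,
        pow_succ (1 / 17 : ℝ) L]
      push_cast at ih ⊢
      have h1 : (40 * (L : ℝ) + 1 + 40) ^ 3 ≤ 8 * (40 * (L : ℝ) + 1) ^ 3 := by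
        have h2 : 40 * (L : ℝ) + 1 + 40 ≤ 2 * (40 * (L : ℝ) + 1) := by linarith
        calc (40 * (L : ℝ) + 1 + 40) ^ 3 ≤ (2 * (40 * (L : ℝ) + 1)) ^ 3 := by gcongr
          _ = 8 * (40 * (L : ℝ) + 1) ^ 3 := by ring
      have h3 : (8 : ℝ) * (53 / 100) ^ 40 ≤ (3 / 4) ^ 40 * (1 / 17) := by norm_num
      calc (40 * (L : ℝ) + 1 + 40) ^ 3 * ((53 / 100) ^ (40 * L + 1) * (53 / 100) ^ 40)
          ≤ (8 * (40 * (L : ℝ) + 1) ^ 3) * ((53 / 100) ^ (40 * L + 1) * (53 / 100) ^ 40) := by
            gcongr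
        _ = ((40 * (L : ℝ) + 1) ^ 3 * (53 / 100) ^ (40 * L + 1)) * (8 * (53 / 100) ^ 40) := by ring
        _ ≤ ((3 / 4) ^ (40 * L + 1) * (1 / 17) ^ L) * ((3 / 4) ^ 40 * (1 / 17)) := by gcongr
        _ = (3 / 4) ^ (40 * L + 1) * (3 / 4) ^ 40 * ((1 / 17) ^ L * (1 / 17)) := by ring
  | succ a ha ih =>
    have h9 : (9 : ℝ) ≤ a := by
      have : 9 ≤ a := by omega
      exact_mod_cast this
    have h1 : ((a : ℝ) + 1) ^ 3 * (53 / 100) ≤ (a : ℝ) ^ 3 * (3 / 4) := by
      nlinarith [mul_nonneg (sub_nonneg.2 h9) (sub_nonneg.2 h9), sq_nonneg (a : ℝ),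
        mul_nonneg (mul_nonneg (sub_nonneg.2 h9) (sub_nonneg.2 h9)) (sub_nonneg.2 h9)]
    rw [pow_succ (53 / 100 : ℝ) a, pow_succ (3 / 4 : ℝ) a]
    push_cast
    calc ((a : ℝ) + 1) ^ 3 * ((53 / 100) ^ a * (53 / 100))
        = (((a : ℝ) + 1) ^ 3 * (53 / 100)) * (53 / 100) ^ a := by ring
      _ ≤ ((a : ℝ) ^ 3 * (3 / 4)) * (53 / 100) ^ a := by gcongr
      _ = ((a : ℝ) ^ 3 * (53 / 100) ^ a) * (3 / 4) := by ring
      _ ≤ ((3 / 4) ^ a * (1 / 17) ^ L) * (3 / 4) := by gcongr
      _ = (3 / 4) ^ a * (3 / 4) * (1 / 17) ^ L := by ring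

private lemma prc_len {n : ℕ} {M : Tri n → (Fin n → Bool) → Prop} {L : ℕ} (hL : TriLE M L)
    (l : List (Tri n × (Fin n → Bool))) (h1 : ∀ p ∈ l, M p.1 p.2)
    (h2 : l.Pairwise fun p q => ¬ SepBy q.1 p.2) : l.length ≤ L := by
  refine hL l.length (fun i => (l.get (Fin.rev i)).1) (fun i => (l.get (Fin.rev i)).2) ?_ ?_
  · intro i
    exact h1 _ (List.get_mem l _)
  · intro i j hij
    exact (List.pairwise_iff_get.1 h2) (Fin.rev i) (Fin.rev j) (Fin.rev_lt_rev.2 hij)

/-- the pattern which is `α` outside `B` and the indicator function of `U` on `B` -/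
private def prc_pat {n : ℕ} (α : Fin n → Bool) (B U : Finset (Fin n)) : Fin n → Bool :=
  fun x => if x ∈ B then decide (x ∈ U) else α x

private lemma prc_sep_iff {n : ℕ} {t : Tri n} {s r : Fin n → Bool} (h : ∀ i, s (t i) = r (t i)) :
    SepBy t s ↔ SepBy t r := by
  unfold SepBy
  rw [h 0, h 1, h 2]

/-- two separating patterns with the same colour at one vertex of the triple agree on the triple -/
private lemma prc_sep_eq {n : ℕ} {t : Tri n} {s r : Fin n → Bool} (hs : SepBy t s)
    (hr : SepBy t r) (j : Fin 3) (h : s (t j) = r (t j)) : ∀ i, s (t i) = r (t i) := by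
  obtain ⟨h0, h2⟩ := hs
  obtain ⟨g0, g2⟩ := hr
  have key : s (t 1) = r (t 1) := by
    fin_cases j
    · have h' : s (t 0) = r (t 0) := h
      rw [h0, g0] at h'
      exact Bool.not_inj h'
    · exact h
    · have h' : s (t 2) = r (t 2) := h
      rw [h2, g2] at h'
      exact Bool.not_inj h'
  intro i
  fin_cases i
  · change s (t 0) = r (t 0)
    rw [h0, g0, key]
  · exact key
  · change s (t 2) = r (t 2)
    rw [h2, g2, key]

private lemma prc_pat_inj {n : ℕ} {α : Fin n → Bool} {B U U' : Finset (Fin n)} {t : Tri n}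
    (hB : B ⊆ verts t) (hU : U ⊆ B) (hU' : U' ⊆ B)
    (h : ∀ i, prc_pat α B U (t i) = prc_pat α B U' (t i)) : U = U' := by
  have key : ∀ x ∈ B, (x ∈ U ↔ x ∈ U') := by
    intro x hx
    have hv := hB hx
    rw [verts, mem_map] at hv
    obtain ⟨i, -, hi⟩ := hv
    have hi' := h i
    have e : t i = x := hi
    rw [e, prc_pat, prc_pat, if_pos hx, if_pos hx] at hi'
    exact decide_eq_decide.1 hi'
  ext x
  constructor
  · intro hx
    exact (key x (hU hx)).1 hx
  · intro hx
    exact (key x (hU' hx)).2 hx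

/-- the number of separating patterns -/
private lemma prc_count_one {n : ℕ} {α : Fin n → Bool} {B : Finset (Fin n)} {t : Tri n}
    (hB : B ⊆ verts t) (j : Fin 3) (hj : t j ∉ B) :
    (B.powerset.filter fun U => SepBy t (prc_pat α B U)).card ≤ 1 := by
  rw [Finset.card_le_one]
  intro U hU U' hU'
  rw [mem_filter, mem_powerset] at hU hU'
  refine prc_pat_inj (α := α) hB hU.1 hU'.1 (prc_sep_eq hU.2 hU'.2 j ?_)
  rw [prc_pat, prc_pat, if_neg hj, if_neg hj]

private lemma prc_count_two {n : ℕ} {α : Fin n → Bool} {B : Finset (Fin n)} {t : Tri n}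
    (hB : B ⊆ verts t) :
    (B.powerset.filter fun U => SepBy t (prc_pat α B U)).card ≤ 2 := by
  have h : (B.powerset.filter fun U => SepBy t (prc_pat α B U)).card
      ≤ (univ : Finset Bool).card := by
    refine Finset.card_le_card_of_injOn (fun U => prc_pat α B U (t 1)) (fun _ _ => mem_univ _) ?_
    intro U hU U' hU' hUU
    rw [mem_coe, mem_filter, mem_powerset] at hU hU'
    exact prc_pat_inj (α := α) hB hU.1 hU'.1 (prc_sep_eq hU.2 hU'.2 1 hUU)
  simpa using h

/-- the weights of the patterns -/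
private lemma prc_weights {n : ℕ} {α : Fin n → Bool} {A : Finset (Fin n)} {t : Tri n}
    (hne : ∃ i, t i ∉ A) :
    (3 / 4 : ℝ) ^ (verts t \ A).card * ∑ U ∈ (verts t \ A).powerset,
      (if SepBy t (prc_pat α (verts t \ A) U) then (1 : ℝ) else 1 / 17) ≤ 1 := by
  set B := verts t \ A with hBdef
  have hB : B ⊆ verts t := sdiff_subset
  have hBne : 0 < B.card := by
    obtain ⟨i, hi⟩ := hne
    refine Finset.card_pos.2 ⟨t i, ?_⟩
    rw [hBdef, mem_sdiff]
    exact ⟨by rw [verts]; exact mem_map_of_mem _ (mem_univ i), hi⟩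
  have hsum : ∑ U ∈ B.powerset, (if SepBy t (prc_pat α B U) then (1 : ℝ) else 1 / 17) =
      (B.powerset.filter fun U => SepBy t (prc_pat α B U)).card * (16 / 17) + 2 ^ B.card / 17 := by
    have e : ∀ U ∈ B.powerset, (if SepBy t (prc_pat α B U) then (1 : ℝ) else 1 / 17) =
        (if SepBy t (prc_pat α B U) then (1 : ℝ) else 0) * (16 / 17) + 1 / 17 := by
      intro U _
      split_ifs <;> norm_num
    rw [Finset.sum_congr rfl e, Finset.sum_add_distrib, ← Finset.sum_mul, Finset.sum_boole,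
      Finset.sum_const, Finset.card_powerset, nsmul_eq_mul]
    push_cast
    ring
  rw [hsum]
  by_cases hj : ∃ j, t j ∈ A
  · obtain ⟨j, hj⟩ := hj
    have hjB : t j ∉ B := by
      rw [hBdef, mem_sdiff]
      exact fun h => h.2 hj
    have hc := prc_count_one (α := α) hB j hjB
    have hc' : ((B.powerset.filter fun U => SepBy t (prc_pat α B U)).card : ℝ) ≤ 1 := by
      exact_mod_cast hc
    have hlt : B.card < 3 := by
      have h3 := card_verts t
      have : B.card < (verts t).card := by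
        refine Finset.card_lt_card ⟨hB, ?_⟩
        intro h
        exact hjB (h (by rw [verts]; exact mem_map_of_mem _ (mem_univ j)))
      omega
    have h12 : B.card = 1 ∨ B.card = 2 := by omega
    rcases h12 with h | h
    · rw [h]
      linarith
    · rw [h]
      linarith
  · have hBV : B = verts t := by
      rw [hBdef, Finset.sdiff_eq_self_iff_disjoint, Finset.disjoint_left]
      intro x hx hxA
      rw [verts, mem_map] at hx
      obtain ⟨i, -, hi⟩ := hx
      exact hj ⟨i, by rw [show t i = x from hi]; exact hxA⟩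
    have hc := prc_count_two (α := α) hB
    have hc' : ((B.powerset.filter fun U => SepBy t (prc_pat α B U)).card : ℝ) ≤ 2 := by
      exact_mod_cast hc
    have h3 : B.card = 3 := by rw [hBV]; exact card_verts t
    rw [h3]
    linarith

private lemma prc_tri_card {n : ℕ} (A : Finset (Fin n)) (P : Tri n → Prop) [DecidablePred P]
    (h : ∀ t, P t → ∀ i, t i ∈ A) :
    ((univ.filter fun t : Tri n => P t).card : ℝ) ≤ (A.card : ℝ) ^ 3 := by
  have h1 : (univ.filter fun t : Tri n => P t).card ≤ (A ×ˢ A ×ˢ A).card := by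
    refine Finset.card_le_card_of_injOn (fun t : Tri n => (t 0, t 1, t 2)) ?_ ?_
    · intro t ht
      rw [mem_coe, mem_filter] at ht
      have := h t ht.2
      simp only [coe_product, Set.mem_prod, mem_coe]
      exact ⟨this 0, this 1, this 2⟩
    · intro t _ r _ htr
      simp only [Prod.mk.injEq] at htr
      ext i
      fin_cases i
      · exact congrArg Fin.val htr.1
      · exact congrArg Fin.val htr.2.1
      · exact congrArg Fin.val htr.2.2
  rw [card_product, card_product] at h1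
  have h2 : ((univ.filter fun t : Tri n => P t).card : ℝ) ≤ ((A.card * (A.card * A.card) : ℕ) : ℝ) := by
    exact_mod_cast h1
  refine h2.trans (le_of_eq ?_)
  push_cast
  ring

open scoped Classical in
private lemma prc_case2 {n : ℕ} (M : Tri n → (Fin n → Bool) → Prop)
    (L : ℕ) (hL1 : 1 ≤ L) (hL : TriLE M L) (𝒮 : Finset (Fin n → Bool)) (I : Finset (Fin n))
    (hd : ∀ J : Finset (Fin n), Disjoint I J → ∀ α : Fin n → Bool,
      ((𝒮.filter fun s => ∀ x ∈ J, s x = α x).card : ℝ) ≤ (53 / 100) ^ J.card * 𝒮.card)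
    (A : Finset (Fin n)) (hIA : Disjoint I A) (α : Fin n → Bool)
    (l : List (Tri n × (Fin n → Bool))) (hl1 : ∀ p ∈ l, M p.1 p.2)
    (hl2 : l.Pairwise (fun p q => ¬ SepBy q.1 p.2))
    (hcase : ∀ s ∈ 𝒮, (∀ x ∈ A, s x = α x) → ∀ t : Tri n, M t s → (∀ i, t i ∉ I) →
      ∀ i, t i ∈ A) :
    ∑ s ∈ 𝒮.filter (fun s => ∀ x ∈ A, s x = α x),
      ((univ.filter fun t : Tri n => M t s ∧ ∀ i, t i ∉ I).card : ℝ) ≤
    64000 * (L : ℝ) ^ 3 * (𝒮.filter (fun s => ∀ x ∈ A, s x = α x)).card +
      𝒮.card * (3 / 4) ^ A.card * (1 / 17) ^ l.length := by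
  have hi : l.length ≤ L := prc_len hL l hl1 hl2
  have hN : ∀ s ∈ 𝒮.filter (fun s => ∀ x ∈ A, s x = α x),
      ((univ.filter fun t : Tri n => M t s ∧ ∀ i, t i ∉ I).card : ℝ) ≤ (A.card : ℝ) ^ 3 := by
    intro s hs
    rw [mem_filter] at hs
    exact prc_tri_card A (fun t : Tri n => M t s ∧ ∀ i, t i ∉ I)
      (fun t ht => hcase s hs.1 hs.2 t ht.1 ht.2)
  have hsum := Finset.sum_le_sum hN
  rw [Finset.sum_const, nsmul_eq_mul] at hsum
  refine hsum.trans ?_
  by_cases ha : A.card ≤ 40 * L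
  · have h1 : (A.card : ℝ) ≤ 40 * L := by exact_mod_cast ha
    have h2 : (A.card : ℝ) ^ 3 ≤ 64000 * (L : ℝ) ^ 3 := by
      calc (A.card : ℝ) ^ 3 ≤ (40 * (L : ℝ)) ^ 3 := by gcongr
        _ = 64000 * (L : ℝ) ^ 3 := by ring
    have h3 : (0 : ℝ) ≤ 𝒮.card * (3 / 4) ^ A.card * (1 / 17) ^ l.length := by positivity
    have h4 : (0 : ℝ) ≤ (𝒮.filter (fun s => ∀ x ∈ A, s x = α x)).card := by positivity
    nlinarith [mul_le_mul_of_nonneg_left h2 h4]
  · push Not at ha
    have h1 := hd A hIA α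
    have h2 := num_ineq L A.card hL1 ha
    have h3 : (1 / 17 : ℝ) ^ L ≤ (1 / 17) ^ l.length :=
      pow_le_pow_of_le_one (by norm_num) (by norm_num) hi
    have h0 : (0 : ℝ) ≤ 64000 * (L : ℝ) ^ 3 *
        (𝒮.filter (fun s => ∀ x ∈ A, s x = α x)).card := by positivity
    calc ((𝒮.filter (fun s => ∀ x ∈ A, s x = α x)).card : ℝ) * (A.card : ℝ) ^ 3
        ≤ ((53 / 100) ^ A.card * 𝒮.card) * (A.card : ℝ) ^ 3 := by gcongr
      _ = ((A.card : ℝ) ^ 3 * (53 / 100) ^ A.card) * 𝒮.card := by ring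
      _ ≤ ((3 / 4) ^ A.card * (1 / 17) ^ L) * 𝒮.card := by gcongr
      _ ≤ ((3 / 4) ^ A.card * (1 / 17) ^ l.length) * 𝒮.card := by gcongr
      _ = 𝒮.card * (3 / 4) ^ A.card * (1 / 17) ^ l.length := by ring
      _ ≤ _ := by linarith

open scoped Classical in
private lemma prc_claim {n : ℕ} (M : Tri n → (Fin n → Bool) → Prop)
    (L : ℕ) (hL1 : 1 ≤ L) (hL : TriLE M L) (𝒮 : Finset (Fin n → Bool)) (I : Finset (Fin n))
    (hd : ∀ J : Finset (Fin n), Disjoint I J → ∀ α : Fin n → Bool,
      ((𝒮.filter fun s => ∀ x ∈ J, s x = α x).card : ℝ) ≤ (53 / 100) ^ J.card * 𝒮.card) (m : ℕ) :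
    ∀ (A : Finset (Fin n)), n - A.card ≤ m → Disjoint I A → ∀ (α : Fin n → Bool)
      (l : List (Tri n × (Fin n → Bool))), (∀ p ∈ l, M p.1 p.2) →
      l.Pairwise (fun p q => ¬ SepBy q.1 p.2) →
      (∀ s ∈ 𝒮, (∀ x ∈ A, s x = α x) → ∀ p ∈ l, ¬ SepBy p.1 s) →
      ∑ s ∈ 𝒮.filter (fun s => ∀ x ∈ A, s x = α x),
        ((univ.filter fun t : Tri n => M t s ∧ ∀ i, t i ∉ I).card : ℝ) ≤
      64000 * (L : ℝ) ^ 3 * (𝒮.filter (fun s => ∀ x ∈ A, s x = α x)).card +
        𝒮.card * (3 / 4) ^ A.card * (1 / 17) ^ l.length := by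
  induction m with
  | zero =>
    intro A hA hIA α l hl1 hl2 hl3
    have hAu : A = univ := by
      have h1 : A.card ≤ n := by simpa using Finset.card_le_univ A
      apply (Finset.card_eq_iff_eq_univ A).1
      rw [Fintype.card_fin]
      omega
    exact prc_case2 M L hL1 hL 𝒮 I hd A hIA α l hl1 hl2 (fun s _ _ t _ _ i => by rw [hAu]; simp)
  | succ m ih =>
    intro A hA hIA α l hl1 hl2 hl3
    by_cases hcase : ∀ s ∈ 𝒮, (∀ x ∈ A, s x = α x) → ∀ t : Tri n, M t s → (∀ i, t i ∉ I) →
        ∀ i, t i ∈ A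
    · exact prc_case2 M L hL1 hL 𝒮 I hd A hIA α l hl1 hl2 hcase
    push Not at hcase
    obtain ⟨s', hs', hs'A, t, hMt, htI, hne⟩ := hcase
    set B := verts t \ A with hBdef
    have hBne : 0 < B.card := by
      obtain ⟨i, hi⟩ := hne
      refine Finset.card_pos.2 ⟨t i, ?_⟩
      rw [hBdef, mem_sdiff]
      exact ⟨by rw [verts]; exact mem_map_of_mem _ (mem_univ i), hi⟩
    have hAB : Disjoint A B := by rw [hBdef]; exact disjoint_sdiff
    have hcard : (A ∪ B).card = A.card + B.card := card_union_of_disjoint hAB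
    have hcardn : (A ∪ B).card ≤ n := by simpa using Finset.card_le_univ (A ∪ B)
    have hIB : Disjoint I (A ∪ B) := by
      rw [disjoint_union_right]
      refine ⟨hIA, ?_⟩
      rw [Finset.disjoint_right]
      intro x hx
      rw [hBdef, mem_sdiff, verts, mem_map] at hx
      obtain ⟨⟨i, -, hi⟩, -⟩ := hx
      have := htI i
      rwa [show t i = x from hi] at this
    have htAB : ∀ i, t i ∈ A ∪ B := by
      intro i
      rw [mem_union]
      by_cases h : t i ∈ A
      · exact Or.inl h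
      · refine Or.inr ?_
        rw [hBdef, mem_sdiff]
        exact ⟨by rw [verts]; exact mem_map_of_mem _ (mem_univ i), h⟩
    -- the splitting
    have hmaps : ∀ s ∈ 𝒮.filter (fun s => ∀ x ∈ A, s x = α x),
        B.filter (fun x => s x = true) ∈ B.powerset := by
      intro s _
      rw [mem_powerset]
      exact filter_subset _ _
    have hfib : ∀ U ∈ B.powerset, (𝒮.filter (fun s => ∀ x ∈ A, s x = α x)).filter
        (fun s => B.filter (fun x => s x = true) = U) =
        𝒮.filter (fun s => ∀ x ∈ A ∪ B, s x = prc_pat α B U x) := by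
      intro U hU
      rw [mem_powerset] at hU
      ext s
      simp only [mem_filter]
      constructor
      · rintro ⟨⟨h1, h2⟩, h3⟩
        refine ⟨h1, ?_⟩
        intro x hx
        rw [mem_union] at hx
        rcases hx with hx | hx
        · have hxB : x ∉ B := Finset.disjoint_left.1 hAB hx
          rw [prc_pat, if_neg hxB]
          exact h2 x hx
        · rw [prc_pat, if_pos hx, ← h3]
          by_cases hsx : s x = true
          · simp [hx, hsx]
          · simp [hx, hsx]
      · rintro ⟨h1, h2⟩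
        refine ⟨⟨h1, ?_⟩, ?_⟩
        · intro x hx
          have hxB : x ∉ B := Finset.disjoint_left.1 hAB hx
          have := h2 x (mem_union_left _ hx)
          rwa [prc_pat, if_neg hxB] at this
        · ext x
          rw [mem_filter]
          constructor
          · rintro ⟨hx, hsx⟩
            have := h2 x (mem_union_right _ hx)
            rw [prc_pat, if_pos hx, hsx] at this
            exact of_decide_eq_true this.symm
          · intro hx
            have hxB := hU hx
            refine ⟨hxB, ?_⟩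
            have := h2 x (mem_union_right _ hxB)
            rw [prc_pat, if_pos hxB] at this
            rw [this]
            exact decide_eq_true hx
    have hsplit : ∑ s ∈ 𝒮.filter (fun s => ∀ x ∈ A, s x = α x),
        ((univ.filter fun t : Tri n => M t s ∧ ∀ i, t i ∉ I).card : ℝ) =
        ∑ U ∈ B.powerset, ∑ s ∈ 𝒮.filter (fun s => ∀ x ∈ A ∪ B, s x = prc_pat α B U x),
          ((univ.filter fun t : Tri n => M t s ∧ ∀ i, t i ∉ I).card : ℝ) := by
      rw [← Finset.sum_fiberwise_of_maps_to hmaps]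
      refine Finset.sum_congr rfl ?_
      intro U hU
      rw [hfib U hU]
    have hcsplit : ((𝒮.filter (fun s => ∀ x ∈ A, s x = α x)).card : ℝ) =
        ∑ U ∈ B.powerset, ((𝒮.filter (fun s => ∀ x ∈ A ∪ B, s x = prc_pat α B U x)).card : ℝ) := by
      rw [Finset.card_eq_sum_card_fiberwise hmaps]
      push_cast
      refine Finset.sum_congr rfl ?_
      intro U hU
      rw [hfib U hU]
    have hstep : ∀ U ∈ B.powerset,
        ∑ s ∈ 𝒮.filter (fun s => ∀ x ∈ A ∪ B, s x = prc_pat α B U x),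
          ((univ.filter fun t : Tri n => M t s ∧ ∀ i, t i ∉ I).card : ℝ) ≤
        64000 * (L : ℝ) ^ 3 * (𝒮.filter (fun s => ∀ x ∈ A ∪ B, s x = prc_pat α B U x)).card +
        𝒮.card * (3 / 4) ^ A.card * (1 / 17) ^ l.length * ((3 / 4) ^ B.card *
          (if SepBy t (prc_pat α B U) then (1 : ℝ) else 1 / 17)) := by
      intro U hU
      have hagree : ∀ s : Fin n → Bool, (∀ x ∈ A ∪ B, s x = prc_pat α B U x) →
          ∀ x ∈ A, s x = α x := by
        intro s hs x hx
        have hxB : x ∉ B := Finset.disjoint_left.1 hAB hx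
        have := hs x (mem_union_left _ hx)
        rwa [prc_pat, if_neg hxB] at this
      have hm : n - (A ∪ B).card ≤ m := by omega
      by_cases hsep : SepBy t (prc_pat α B U)
      · have h := ih (A ∪ B) hm hIB (prc_pat α B U) l hl1 hl2
          (fun s hs hsA p hp => hl3 s hs (hagree s hsA) p hp)
        rw [if_pos hsep]
        refine h.trans (le_of_eq ?_)
        rw [hcard, pow_add]
        ring
      · have h := ih (A ∪ B) hm hIB (prc_pat α B U) ((t, s') :: l)
          (by
            intro p hp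
            rcases List.mem_cons.1 hp with rfl | hp
            · exact hMt
            · exact hl1 p hp)
          (by
            rw [List.pairwise_cons]
            exact ⟨fun q hq => hl3 s' hs' hs'A q hq, hl2⟩)
          (by
            intro s hs hsA p hp
            rcases List.mem_cons.1 hp with rfl | hp
            · intro hcon
              exact hsep ((prc_sep_iff (fun i => hsA (t i) (htAB i))).1 hcon)
            · exact hl3 s hs (hagree s hsA) p hp)
        rw [if_neg hsep]
        refine h.trans (le_of_eq ?_)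
        rw [hcard, pow_add, List.length_cons, pow_succ]
        ring
    rw [hsplit]
    refine (Finset.sum_le_sum hstep).trans ?_
    rw [Finset.sum_add_distrib, ← Finset.mul_sum, ← Finset.mul_sum, ← Finset.mul_sum, ← hcsplit]
    have hw := prc_weights (α := α) (A := A) (t := t) hne
    rw [← hBdef] at hw
    have hpos : (0 : ℝ) ≤ 𝒮.card * (3 / 4) ^ A.card * (1 / 17) ^ l.length := by positivity
    have := mul_le_mul_of_nonneg_left hw hpos
    linarith

open scoped Classical in
theorem process {n : ℕ} (M : Tri n → (Fin n → Bool) → Prop) (hM : ∀ t s, M t s → SepBy t s)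
    (L : ℕ) (hL : TriLE M L) (𝒮 : Finset (Fin n → Bool)) (I : Finset (Fin n))
    (hd : ∀ J : Finset (Fin n), Disjoint I J → ∀ α : Fin n → Bool,
      ((𝒮.filter fun s => ∀ x ∈ J, s x = α x).card : ℝ) ≤ (53 / 100) ^ J.card * 𝒮.card) :
    ∑ s ∈ 𝒮, ((univ.filter fun t : Tri n => M t s ∧ ∀ i, t i ∉ I).card : ℝ) ≤
      (64000 * (L : ℝ) ^ 3 + 1) * 𝒮.card := by
  rcases Nat.eq_zero_or_pos L with rfl | hL1
  · have hno : ∀ t s, ¬ M t s := by
      intro t s h
      have := hL 1 (fun _ => t) (fun _ => s) (fun _ => h)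
        (fun i j hij => absurd hij (by rw [Subsingleton.elim i j]; exact lt_irrefl _))
      omega
    have hz : ∀ s ∈ 𝒮, ((univ.filter fun t : Tri n => M t s ∧ ∀ i, t i ∉ I).card : ℝ) = 0 := by
      intro s _
      have : (univ.filter fun t : Tri n => M t s ∧ ∀ i, t i ∉ I) = ∅ := by
        rw [Finset.filter_eq_empty_iff]
        intro t _ h
        exact hno t s h.1
      rw [this]
      simp
    rw [Finset.sum_eq_zero hz]
    positivity
  · have h := prc_claim M L hL1 hL 𝒮 I hd n ∅ (by simp) (Finset.disjoint_empty_right I)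
      (fun _ => true) [] (by simp) List.Pairwise.nil (by simp)
    simp only [notMem_empty, false_imp_iff, implies_true, filter_true, card_empty, pow_zero,
      List.length_nil, mul_one] at h
    linarith

end Pool.Agent.ConvF
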