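import Pool.Agent.ConvF.Geo
import Pool.Agent.ConvF.Dense
import Pool.Agent.ConvF.Process

/-!
# The lower bound, second form: up to `2^(n/24)` pieces

Proof. For each cut `s` choose a piece `j s` with `cutD s ∈ (F (j s)).matrices`; some piece `j` has
`|𝒮| ≥ 2^(n-m)`, `𝒮 = {s | j s = j}` (pigeonhole). `geo` gives `M b`, `b : Option (F j).ι`. Let
`I, ρ` be from `dense`, `𝒮' = {s ∈ 𝒮 | s = ρ on I}`, nonempty; `|I| ≤ 12 m ≤ n/2` (`dense_card`).
For every `t` disjoint from `I` at most `6 θ³ |𝒮'|` of the `s ∈ 𝒮'` do not separate `t` (six patterns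
on the three vertices, `dense` with `J = {t 0, t 1, t 2}`), and `1 - 6 θ³ = 0.106738 ≥ 1/10`. So
`∑_{s ∈ 𝒮'} #{t | SepBy t s, t ∩ I = ∅} ≥ (1/10) |𝒮'| n'(n'-1)(n'-2)`, `n' = n - |I| ≥ n/2`. By the cover
property and `process` the left side is at most `∑_b (64000 L_b³ + 1) |𝒮'|`, `L_b = ℓ b + 1`
(`L = 1` for `none`). So `n'(n'-1)(n'-2) ≤ 10 · 64001 (1 + ∑_b (ℓ b + 1)³)`. For `n ≥ 12`,
`n'(n'-1)(n'-2) ≥ (5/9) n'^3 ≥ (5/72) n³`, hence `n³ ≤ 9216144 (1 + ∑ ...) `; for `n < 12` the claim is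
trivial.
-/

namespace Pool.Agent.ConvF

open Finset Pool.Agent.H98.ConicCount

/-- In a set of cuts with dense patterns off `I`, every triple off `I` is separated by at least a
tenth of the cuts. -/
theorem sep_ge {n : ℕ} (𝒯 : Finset (Fin n → Bool)) (I : Finset (Fin n))
    (hd : ∀ J : Finset (Fin n), Disjoint I J → ∀ α : Fin n → Bool,
      ((𝒯.filter fun s => ∀ x ∈ J, s x = α x).card : ℝ) ≤ (53 / 100) ^ J.card * 𝒯.card)
    (t : Tri n) (ht : ∀ i, t i ∉ I) :
    (1 / 10 : ℝ) * 𝒯.card ≤ ((𝒯.filter fun s => SepBy t s).card : ℝ) := by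
  classical
  have h01 : t 0 ≠ t 1 := fun h => by simpa using t.injective h
  have h21 : t 2 ≠ t 1 := fun h => by simpa using t.injective h
  have h20 : t 2 ≠ t 0 := fun h => by simpa using t.injective h
  -- the six patterns that do not separate
  let P : Finset (Bool × Bool × Bool) := univ.filter fun p => ¬ (p.1 = !p.2.1 ∧ p.2.2 = !p.2.1)
  have hP : P.card = 6 := by decide
  have hdis : Disjoint I (verts t) := by
    rw [Finset.disjoint_right]
    intro x hx
    rw [mem_verts] at hx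
    rcases hx with rfl | rfl | rfl
    · exact ht 0
    · exact ht 1
    · exact ht 2
  have hmaps : ∀ s ∈ 𝒯.filter (fun s => ¬ SepBy t s), (s (t 0), s (t 1), s (t 2)) ∈ P := by
    intro s hs
    rw [mem_filter] at hs
    refine mem_filter.2 ⟨mem_univ _, ?_⟩
    exact hs.2
  have hfib : ∀ p ∈ P, ((((𝒯.filter (fun s => ¬ SepBy t s)).filter
      fun s => (s (t 0), s (t 1), s (t 2)) = p).card : ℕ) : ℝ) ≤ (53 / 100) ^ 3 * 𝒯.card := by
    intro p _
    have h := hd (verts t) hdis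
      (fun x => if x = t 0 then p.1 else if x = t 1 then p.2.1 else p.2.2)
    rw [card_verts] at h
    refine le_trans ?_ h
    exact_mod_cast Finset.card_le_card (by
      intro s hs
      rw [mem_filter, mem_filter] at hs
      obtain ⟨⟨hs1, _⟩, hs2⟩ := hs
      rw [mem_filter]
      refine ⟨hs1, fun x hx => ?_⟩
      rw [mem_verts] at hx
      rcases hx with rfl | rfl | rfl
      · rw [if_pos rfl, ← hs2]
      · rw [if_neg h01.symm, if_pos rfl, ← hs2]
      · rw [if_neg h20, if_neg h21, ← hs2])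
  have hnot : ((𝒯.filter (fun s => ¬ SepBy t s)).card : ℝ) ≤ 6 * ((53 / 100) ^ 3 * 𝒯.card) := by
    rw [Finset.card_eq_sum_card_fiberwise hmaps, Nat.cast_sum]
    refine (Finset.sum_le_sum hfib).trans ?_
    rw [Finset.sum_const, hP, nsmul_eq_mul]
    norm_num
  have hadd : ((𝒯.filter fun s => SepBy t s).card : ℝ) +
      ((𝒯.filter (fun s => ¬ SepBy t s)).card : ℝ) = 𝒯.card := by
    exact_mod_cast Finset.card_filter_add_card_filter_not (s := 𝒯) (fun s => SepBy t s)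
  have h0 : (0 : ℝ) ≤ 𝒯.card := Nat.cast_nonneg _
  norm_num at hnot
  linarith

/-- The number of triples off `I`. -/
theorem card_off {n : ℕ} (I : Finset (Fin n)) :
    (univ.filter fun t : Tri n => ∀ i, t i ∉ I).card = (n - I.card).descFactorial 3 := by
  classical
  have h1 : Fintype.card (Fin 3 ↪ {x : Fin n // x ∉ I}) = (n - I.card).descFactorial 3 := by
    rw [Fintype.card_embedding_eq, Fintype.card_fin]
    congr 1
    rw [Fintype.card_subtype_compl, Fintype.card_fin, Fintype.card_coe]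
  rw [← h1, ← Finset.card_univ]
  symm
  refine Finset.card_bij (fun e _ => e.trans (Function.Embedding.subtype _)) ?_ ?_ ?_
  · intro e _
    rw [mem_filter]
    exact ⟨mem_univ _, fun i => (e i).2⟩
  · intro e _ e' _ h
    ext i
    have := congrArg (fun f : Fin 3 ↪ Fin n => (f i : ℕ)) h
    simpa using this
  · intro t ht
    rw [mem_filter] at ht
    refine ⟨⟨fun i => ⟨t i, ht.2 i⟩, fun i j h => ?_⟩, mem_univ _, ?_⟩
    · exact t.injective (Subtype.ext_iff.1 h)
    · ext i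
      rfl

/-- `n³ ≤ 14.4 (n-i)(n-i-1)(n-i-2)` for `n ≥ 12`, `2 i ≤ n`. -/
theorem cube_le {n i : ℕ} (hn : 12 ≤ n) (hi : 2 * i ≤ n) :
    (n : ℝ) ^ 3 ≤ 72 / 5 * ((n - i).descFactorial 3 : ℕ) := by
  obtain ⟨k, hk⟩ : ∃ k, n - i = k + 6 := ⟨n - i - 6, by omega⟩
  have h1 : (n : ℝ) ≤ 2 * (k + 6) := by
    have : n ≤ 2 * (k + 6) := by omega
    exact_mod_cast this
  have h2 : (n : ℝ) ^ 3 ≤ (2 * (k + 6)) ^ 3 := pow_le_pow_left₀ (Nat.cast_nonneg _) h1 3
  refine h2.trans ?_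
  rw [hk]
  have h3 : (k + 6).descFactorial 3 = (k + 4) * ((k + 5) * (k + 6)) := by
    simp [Nat.descFactorial_succ]
  rw [h3]
  push_cast
  have h0 : (0 : ℝ) ≤ k := Nat.cast_nonneg _
  nlinarith [mul_nonneg h0 h0, mul_nonneg (mul_nonneg h0 h0) h0]

/-- Density restoration for a set of at least `2^(n-m)` cuts. -/
theorem dense_cuts {n m : ℕ} (𝒮 : Finset (Fin n → Bool)) (hj : 2 ^ n ≤ 2 ^ m * 𝒮.card) :
    ∃ (I : Finset (Fin n)) (𝒯 : Finset (Fin n → Bool)), 𝒯 ⊆ 𝒮 ∧ I.card ≤ 12 * m ∧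
      (53 / 100 : ℝ) ^ I.card * 𝒮.card ≤ 𝒯.card ∧
      ∀ J : Finset (Fin n), Disjoint I J → ∀ α : Fin n → Bool,
        ((𝒯.filter fun s => ∀ x ∈ J, s x = α x).card : ℝ) ≤ (53 / 100) ^ J.card * 𝒯.card := by
  obtain ⟨I, ρ, hI1, hI2⟩ := dense 𝒮
  have hI1' : (53 / 100 : ℝ) ^ I.card * 𝒮.card ≤
      (𝒮.filter fun s => ∀ x ∈ I, s x = ρ x).card := by convert hI1
  refine ⟨I, 𝒮.filter fun s => ∀ x ∈ I, s x = ρ x, Finset.filter_subset _ _,
    dense_card 𝒮 hj I ρ hI1', hI1', ?_⟩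
  intro J hJ α
  convert hI2 J hJ α

open scoped Classical in
/-- The common part of the lower bounds for up to `2^(n/24)` pieces: there are a piece `j`, the
relations `M b` of `geo`, a set `𝒯` of at least `2^(n - 12 m)` cuts and a set `I` of coordinates such
that all patterns of `𝒯` off `I` have small density, and any bounds `Bd b` for the average number of
triples off `I` in `M b` satisfy `n³ ≤ 144 ∑ Bd b`. -/
theorem coreB (n m : ℕ) (hn : 12 ≤ n) (hm : 24 * m ≤ n) (F : Fin (2 ^ m) → Formulation n)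
    (hF : (⋃ j, (F j).matrices) = distMatrices n) (ℓ : ∀ j, (F j).ι → ℕ)
    (hℓ : ∀ j b, ChainsLE ((F j).C b) (ℓ j b)) :
    ∃ (j : Fin (2 ^ m)) (M : Option (F j).ι → Tri n → (Fin n → Bool) → Prop)
      (𝒯 : Finset (Fin n → Bool)) (I : Finset (Fin n)),
      (∀ b t s, M b t s → SepBy t s) ∧ TriLE (M none) 1 ∧
      (∀ b, TriLE (M (some b)) (ℓ j b + 1)) ∧
      2 ^ n ≤ 2 ^ (12 * m) * 𝒯.card ∧
      (∀ J : Finset (Fin n), Disjoint I J → ∀ α : Fin n → Bool,
        ((𝒯.filter fun s => ∀ x ∈ J, s x = α x).card : ℝ) ≤ (53 / 100) ^ J.card * 𝒯.card) ∧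
      ∀ Bd : Option (F j).ι → ℝ,
        (∀ b, ∑ s ∈ 𝒯, ((univ.filter fun t : Tri n => M b t s ∧ ∀ i, t i ∉ I).card : ℝ) ≤
          Bd b * 𝒯.card) → (n : ℝ) ^ 3 ≤ 144 * ∑ b, Bd b := by
  -- choose pieces
  have hcut : ∀ s : Fin n → Bool, ∃ j, cutD s ∈ (F j).matrices := by
    intro s
    have h := cutD_mem s
    rw [← hF] at h
    exact Set.mem_iUnion.1 h
  choose jj hjj using hcut
  -- pigeonhole
  obtain ⟨j, hj⟩ : ∃ j : Fin (2 ^ m), 2 ^ n ≤ 2 ^ m * (univ.filter fun s => jj s = j).card := by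
    by_contra hcon
    push Not at hcon
    have h1 : ∑ j : Fin (2 ^ m), (univ.filter fun s : Fin n → Bool => jj s = j).card = 2 ^ n := by
      rw [← Finset.card_eq_sum_card_fiberwise (f := jj) (s := univ) (t := univ)
        (fun s _ => mem_univ _)]
      simp
    have h2 : ∑ j : Fin (2 ^ m), 2 ^ m * (univ.filter fun s : Fin n → Bool => jj s = j).card <
        ∑ _j : Fin (2 ^ m), 2 ^ n :=
      Finset.sum_lt_sum_of_nonempty ⟨⟨0, by positivity⟩, mem_univ _⟩ fun j _ => hcon j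
    rw [← Finset.mul_sum, h1, Finset.sum_const, Finset.card_univ, Fintype.card_fin,
      smul_eq_mul] at h2
    exact lt_irrefl _ h2
  set 𝒮 : Finset (Fin n → Bool) := univ.filter fun s => jj s = j with h𝒮
  obtain ⟨M, hM1, hM2, hM3, hM4⟩ := geo (F j) (by
    rw [← hF]
    exact Set.subset_iUnion (fun j => (F j).matrices) j) 𝒮 (by
    intro s hs
    rw [h𝒮, mem_filter] at hs
    rw [← hs.2]
    exact hjj s) (ℓ j) (hℓ j)
  obtain ⟨I, 𝒯, hsub, hIc, hI1, hI2⟩ := dense_cuts (m := m) 𝒮 hj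
  -- size of `𝒯`
  have hcard : 2 ^ n ≤ 2 ^ (12 * m) * 𝒯.card := by
    have h1 : (1 / 2 : ℝ) ^ (11 * m) ≤ (53 / 100 : ℝ) ^ I.card := by
      calc (1 / 2 : ℝ) ^ (11 * m) = ((1 / 2 : ℝ) ^ 11) ^ m := by rw [pow_mul]
        _ ≤ ((53 / 100 : ℝ) ^ 12) ^ m := pow_le_pow_left₀ (by norm_num) (by norm_num) m
        _ = (53 / 100 : ℝ) ^ (12 * m) := by rw [pow_mul]
        _ ≤ (53 / 100 : ℝ) ^ I.card := pow_le_pow_of_le_one (by norm_num) (by norm_num) hIc
    have h2 : (2 : ℝ) ^ n ≤ 2 ^ m * 𝒮.card := by exact_mod_cast hj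
    have h3 : (2 : ℝ) ^ n ≤ 2 ^ (12 * m) * 𝒯.card := by
      calc (2 : ℝ) ^ n ≤ 2 ^ m * 𝒮.card := h2
        _ = 2 ^ m * (2 ^ (11 * m) * ((1 / 2 : ℝ) ^ (11 * m) * 𝒮.card)) := by
            rw [← mul_assoc ((2 : ℝ) ^ (11 * m)), ← mul_pow]
            norm_num
        _ ≤ 2 ^ m * (2 ^ (11 * m) * ((53 / 100 : ℝ) ^ I.card * 𝒮.card)) := by gcongr
        _ ≤ 2 ^ m * (2 ^ (11 * m) * 𝒯.card) :=
            mul_le_mul_of_nonneg_left (mul_le_mul_of_nonneg_left hI1 (by positivity))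
              (by positivity)
        _ = 2 ^ (12 * m) * 𝒯.card := by
            rw [← mul_assoc, ← pow_add]
            congr 2
            ring
    exact_mod_cast h3
  have hpos : (0 : ℝ) < 𝒯.card := by
    rcases Nat.eq_zero_or_pos 𝒯.card with h | h
    · rw [h, mul_zero] at hcard
      exact absurd hcard (by simp)
    · exact_mod_cast h
  refine ⟨j, M, 𝒯, I, fun b t s h => (hM1 b t s h).2, hM3, hM4, hcard, ?_, ?_⟩
  · intro J hJ α
    have := hI2 J hJ α
    convert this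
  · intro Bd hBd
    -- double counting
    have h1 : ((univ.filter fun t : Tri n => ∀ i, t i ∉ I).card : ℝ) * ((1 / 10 : ℝ) * 𝒯.card) ≤
        ∑ s ∈ 𝒯, ((univ.filter fun t : Tri n => SepBy t s ∧ ∀ i, t i ∉ I).card : ℝ) := by
      have e : ∑ s ∈ 𝒯, ((univ.filter fun t : Tri n => SepBy t s ∧ ∀ i, t i ∉ I).card : ℝ) =
          ∑ t ∈ univ.filter (fun t : Tri n => ∀ i, t i ∉ I),
            ((𝒯.filter fun s => SepBy t s).card : ℝ) := by
        have e1 : ∀ s ∈ 𝒯, ((univ.filter fun t : Tri n => SepBy t s ∧ ∀ i, t i ∉ I).card : ℝ) =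
            ∑ t ∈ univ.filter (fun t : Tri n => ∀ i, t i ∉ I), if SepBy t s then (1 : ℝ) else 0 := by
          intro s _
          rw [Finset.sum_boole, Finset.filter_filter]
          congr 2
          ext t
          simp only [mem_filter, mem_univ, true_and]
          tauto
        have e2 : ∀ t : Tri n, ((𝒯.filter fun s => SepBy t s).card : ℝ) =
            ∑ s ∈ 𝒯, if SepBy t s then (1 : ℝ) else 0 := by
          intro t
          rw [Finset.sum_boole]
        rw [Finset.sum_congr rfl e1, Finset.sum_comm]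
        exact Finset.sum_congr rfl fun t _ => (e2 t).symm
      rw [e, ← nsmul_eq_mul, ← Finset.sum_const]
      refine Finset.sum_le_sum fun t ht => ?_
      rw [mem_filter] at ht
      refine sep_ge 𝒯 I ?_ t ht.2
      intro J hJ α
      have := hI2 J hJ α
      convert this
    have h2 : ∑ s ∈ 𝒯, ((univ.filter fun t : Tri n => SepBy t s ∧ ∀ i, t i ∉ I).card : ℝ) ≤
        ∑ b, Bd b * 𝒯.card := by
      calc ∑ s ∈ 𝒯, ((univ.filter fun t : Tri n => SepBy t s ∧ ∀ i, t i ∉ I).card : ℝ)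
          ≤ ∑ s ∈ 𝒯, ∑ b, ((univ.filter fun t : Tri n => M b t s ∧ ∀ i, t i ∉ I).card : ℝ) := by
            refine Finset.sum_le_sum fun s hs => ?_
            have hle : (univ.filter fun t : Tri n => SepBy t s ∧ ∀ i, t i ∉ I).card ≤
                ∑ b, (univ.filter fun t : Tri n => M b t s ∧ ∀ i, t i ∉ I).card := by
              refine le_trans (Finset.card_le_card ?_) Finset.card_biUnion_le
              intro t ht
              rw [mem_filter] at ht
              obtain ⟨b, hb⟩ := hM2 s (hsub hs) t ht.2.1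
              rw [mem_biUnion]
              exact ⟨b, mem_univ _, mem_filter.2 ⟨mem_univ _, hb, ht.2.2⟩⟩
            exact_mod_cast hle
        _ = ∑ b, ∑ s ∈ 𝒯, ((univ.filter fun t : Tri n => M b t s ∧ ∀ i, t i ∉ I).card : ℝ) :=
            Finset.sum_comm
        _ ≤ ∑ b, Bd b * 𝒯.card := Finset.sum_le_sum fun b _ => hBd b
    rw [← Finset.sum_mul] at h2
    have h3 : ((univ.filter fun t : Tri n => ∀ i, t i ∉ I).card : ℝ) * (1 / 10 : ℝ) ≤
        ∑ b, Bd b := by
      refine le_of_mul_le_mul_right ?_ hpos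
      rw [mul_assoc]
      exact h1.trans h2
    have h4 : ((univ.filter fun t : Tri n => ∀ i, t i ∉ I).card : ℝ) =
        ((n - I.card).descFactorial 3 : ℕ) := by
      rw [← card_off I]
    have h5 := cube_le (n := n) (i := I.card) hn (by omega)
    rw [h4] at h3
    linarith

theorem mainB (n m : ℕ) (hm : 24 * m ≤ n) (F : Fin (2 ^ m) → Formulation n)
    (hF : (⋃ j, (F j).matrices) = distMatrices n) (ℓ : ∀ j, (F j).ι → ℕ)
    (hℓ : ∀ j b, ChainsLE ((F j).C b) (ℓ j b)) :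
    ∃ j, (n : ℝ) ^ 3 ≤ 10 ^ 7 * (1 + ∑ b, ((ℓ j b : ℝ) + 1) ^ 3) := by
  classical
  rcases Nat.lt_or_ge n 12 with hn | hn
  · refine ⟨⟨0, by positivity⟩, ?_⟩
    have h1 : (n : ℝ) ≤ 12 := by exact_mod_cast hn.le
    have h2 : (n : ℝ) ^ 3 ≤ 12 ^ 3 := pow_le_pow_left₀ (Nat.cast_nonneg _) h1 3
    have h3 : 0 ≤ ∑ b, ((ℓ ⟨0, by positivity⟩ b : ℝ) + 1) ^ 3 :=
      Finset.sum_nonneg fun b _ => by positivity
    linarith
  · obtain ⟨j, M, 𝒯, I, hM1, hM3, hM4, _, hd, hB⟩ := coreB n m hn hm F hF ℓ hℓ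
    refine ⟨j, ?_⟩
    have h := hB (fun b => 64001 * (Option.elim b 1 fun b => (ℓ j b : ℝ) + 1) ^ 3) (by
      intro b
      cases b with
      | none =>
        have := process (M none) (hM1 none) 1 hM3 𝒯 I hd
        refine this.trans (le_of_eq ?_)
        norm_num [Option.elim]
      | some b =>
        have := process (M (some b)) (hM1 (some b)) (ℓ j b + 1) (hM4 b) 𝒯 I hd
        refine this.trans ?_
        push_cast
        have h1 : (1 : ℝ) ≤ ((ℓ j b : ℝ) + 1) ^ 3 :=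
          one_le_pow₀ (by linarith [Nat.cast_nonneg (α := ℝ) (ℓ j b)])
        refine mul_le_mul_of_nonneg_right ?_ (Nat.cast_nonneg _)
        simp only [Option.elim]
        linarith)
    rw [← Finset.mul_sum, Fintype.sum_option] at h
    simp only [Option.elim] at h
    have h0 : 0 ≤ ∑ b, ((ℓ j b : ℝ) + 1) ^ 3 := Finset.sum_nonneg fun b _ => by positivity
    refine h.trans ?_
    linarith

end Pool.Agent.ConvF
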