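import Pool.Agent.ConvF.Geo
import Pool.Agent.ConvF.CombA
import Pool.Agent.ConvF.Dense
import Pool.Agent.ConvF.Process

/-!
# The unified lower bound

Choose for each cut `s` a piece `J s` with `cutD s ∈ (F (J s)).matrices`; some piece `j` has
`|𝒮| ≥ 2^(n-m)`, `𝒮 = {s | J s = j}`. `geo` gives `M b`, `b : Option (F j).ι`. Let `I, ρ` be from `dense`,
`𝒮' = {s ∈ 𝒮 | s = ρ on I}`; `|I| ≤ 12 m ≤ n/2`, `|𝒮'| ≥ 2^(n-12m)`. For every `t` disjoint from `I` at
most `6 θ³ |𝒮'|` of the `s ∈ 𝒮'` do not separate `t`, and `1 - 6 θ³ ≥ 1/10`. By the cover property the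
pairs `(t, s)` with `t` disjoint from `I`, `s ∈ 𝒮'` separating `t` are caught by some `M b`; for each
`b` both `process` and `combA` (for `𝒮'`, with `12 m` in the place of `m`) bound their number.
-/

namespace Pool.Agent.ConvF

open Finset Pool.Agent.H98.ConicCount

/-- Number of triples disjoint from `I`. -/
theorem card_tri_disj {n : ℕ} (I : Finset (Fin n)) :
    (n - I.card) * (n - I.card - 1) * (n - I.card - 2) ≤
      (univ.filter fun t : Tri n => ∀ i, t i ∉ I).card := by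
  classical
  have h1 : Fintype.card (Fin 3 ↪ {x : Fin n // x ∉ I}) =
      (n - I.card).descFactorial 3 := by
    rw [Fintype.card_embedding_eq, Fintype.card_subtype_compl]
    simp
  have h2 : (n - I.card).descFactorial 3 = (n - I.card) * (n - I.card - 1) * (n - I.card - 2) := by
    simp only [Nat.descFactorial]
    rw [Nat.sub_zero, mul_one]
    ring
  rw [← h2, ← h1, ← card_univ]
  apply Finset.card_le_card_of_injOn (fun e => e.trans (Function.Embedding.subtype _))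
  · intro e _
    rw [mem_coe, mem_filter]
    exact ⟨mem_univ _, fun i => (e i).2⟩
  · intro e _ e' _ h
    apply Function.Embedding.ext
    intro i
    have := DFunLike.congr_fun h i
    exact Subtype.ext this

/-- A density bound for patterns on three vertices gives many separating cuts. -/
theorem sep_many {n : ℕ} (𝒮 : Finset (Fin n → Bool)) (I : Finset (Fin n))
    (hd : ∀ J : Finset (Fin n), Disjoint I J → ∀ α : Fin n → Bool,
      ((𝒮.filter fun s => ∀ x ∈ J, s x = α x).card : ℝ) ≤ (53 / 100) ^ J.card * 𝒮.card)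
    (t : Tri n) (ht : ∀ i, t i ∉ I) :
    (1 / 10 : ℝ) * 𝒮.card ≤ ((𝒮.filter fun s => SepBy t s).card : ℝ) := by
  classical
  have h01 : t 0 ≠ t 1 := fun h => by simpa using t.injective h
  have h12 : t 1 ≠ t 2 := fun h => by simpa using t.injective h
  have h02 : t 0 ≠ t 2 := fun h => by simpa using t.injective h
  -- the pattern sets
  let f : Bool × Bool × Bool → Finset (Fin n → Bool) := fun p =>
    𝒮.filter fun s => s (t 0) = p.1 ∧ s (t 1) = p.2.1 ∧ s (t 2) = p.2.2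
  have hf : ∀ p, ((f p).card : ℝ) ≤ (53 / 100) ^ 3 * 𝒮.card := by
    intro p
    have hdis : Disjoint I (verts t) := by
      rw [Finset.disjoint_right]
      intro x hx
      rw [mem_verts] at hx
      rcases hx with rfl | rfl | rfl <;> exact ht _
    have := hd (verts t) hdis (fun x => if x = t 0 then p.1 else if x = t 1 then p.2.1 else p.2.2)
    rw [card_verts] at this
    refine le_trans ?_ this
    norm_cast
    apply card_le_card
    intro s hs
    simp only [f, mem_filter] at hs ⊢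
    refine ⟨hs.1, ?_⟩
    intro x hx
    rw [mem_verts] at hx
    rcases hx with rfl | rfl | rfl
    · simp [hs.2.1]
    · simp [h01.symm, hs.2.2.1]
    · simp [h02.symm, h12.symm, hs.2.2.2]
  -- the non-separating cuts
  let B : Finset (Bool × Bool × Bool) := univ.filter fun p => ¬ (p.1 = !p.2.1 ∧ p.2.2 = !p.2.1)
  have hB : B.card = 6 := by decide
  have hcov : 𝒮.filter (fun s => ¬ SepBy t s) ⊆ B.biUnion f := by
    intro s hs
    rw [mem_filter] at hs
    rw [mem_biUnion]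
    refine ⟨(s (t 0), s (t 1), s (t 2)), ?_, ?_⟩
    · simp only [B, mem_filter, mem_univ, true_and]
      exact hs.2
    · simp only [f, mem_filter]
      exact ⟨hs.1, trivial, trivial, trivial⟩
  have h1 : ((𝒮.filter fun s => ¬ SepBy t s).card : ℝ) ≤ 6 * ((53 / 100) ^ 3 * 𝒮.card) := by
    calc ((𝒮.filter fun s => ¬ SepBy t s).card : ℝ) ≤ ((B.biUnion f).card : ℝ) := by
          exact_mod_cast card_le_card hcov
      _ ≤ ((∑ p ∈ B, (f p).card : ℕ) : ℝ) := by exact_mod_cast card_biUnion_le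
      _ = ∑ p ∈ B, ((f p).card : ℝ) := by push_cast; rfl
      _ ≤ ∑ p ∈ B, ((53 / 100) ^ 3 * 𝒮.card : ℝ) := sum_le_sum fun p _ => hf p
      _ = 6 * ((53 / 100) ^ 3 * 𝒮.card) := by rw [sum_const, hB]; norm_num
  have h2 : ((𝒮.filter fun s => SepBy t s).card : ℝ) + ((𝒮.filter fun s => ¬ SepBy t s).card : ℝ) =
      𝒮.card := by
    exact_mod_cast card_filter_add_card_filter_not _
  have h3 : (0 : ℝ) ≤ 𝒮.card := by positivity
  nlinarith

theorem dense_pack {n m : ℕ} (𝒮 : Finset (Fin n → Bool)) (hS : 2 ^ n ≤ 2 ^ m * 𝒮.card) :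
    ∃ (I : Finset (Fin n)) (𝒮' : Finset (Fin n → Bool)), 𝒮' ⊆ 𝒮 ∧ I.card ≤ 12 * m ∧
      (53 / 100 : ℝ) ^ I.card * 𝒮.card ≤ 𝒮'.card ∧
      ∀ J : Finset (Fin n), Disjoint I J → ∀ α : Fin n → Bool,
        ((𝒮'.filter fun s => ∀ x ∈ J, s x = α x).card : ℝ) ≤ (53 / 100) ^ J.card * 𝒮'.card := by
  obtain ⟨I, ρ, h1, h2⟩ := dense 𝒮
  have h1' : (53 / 100 : ℝ) ^ I.card * 𝒮.card ≤ (𝒮.filter fun s => ∀ x ∈ I, s x = ρ x).card := by
    convert h1
  refine ⟨I, 𝒮.filter fun s => ∀ x ∈ I, s x = ρ x, filter_subset _ _, dense_card 𝒮 hS I ρ h1', h1',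
    ?_⟩
  intro J hJ α
  convert h2 J hJ α

theorem mainC (n m : ℕ) (hm : 24 * m ≤ n) (F : Fin (2 ^ m) → Formulation n)
    (hF : (⋃ j, (F j).matrices) = distMatrices n) (ℓ : ∀ j, (F j).ι → ℕ)
    (hℓ : ∀ j b, ChainsLE ((F j).C b) (ℓ j b)) :
    ∃ j, (n : ℝ) ^ 3 ≤ 2 * 10 ^ 13 * (1 + ∑ b, min
      (((m : ℝ) + 1) ^ 5 * ((ℓ j b : ℝ) + 1) ^ (3 / 2 : ℝ)) (((ℓ j b : ℝ) + 1) ^ 3)) := by
  classical
  -- choose the pieces
  have hmem : ∀ s : Fin n → Bool, ∃ j, cutD s ∈ (F j).matrices := by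
    intro s
    have : cutD s ∈ ⋃ j, (F j).matrices := by rw [hF]; exact cutD_mem s
    exact Set.mem_iUnion.1 this
  choose J hJ using hmem
  -- pigeonhole
  obtain ⟨j, hj⟩ : ∃ j : Fin (2 ^ m),
      2 ^ n ≤ 2 ^ m * (univ.filter fun s : Fin n → Bool => J s = j).card := by
    by_contra hcon
    push Not at hcon
    have h1 : (univ : Finset (Fin n → Bool)).card =
        ∑ j : Fin (2 ^ m), (univ.filter fun s => J s = j).card :=
      card_eq_sum_card_fiberwise (fun s _ => mem_univ _)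
    have h2 : (univ : Finset (Fin n → Bool)).card = 2 ^ n := by rw [card_univ]; simp
    have h3 : ∑ j : Fin (2 ^ m), 2 ^ m * (univ.filter fun s : Fin n → Bool => J s = j).card <
        ∑ _j : Fin (2 ^ m), 2 ^ n :=
      sum_lt_sum_of_nonempty ⟨⟨0, by positivity⟩, mem_univ _⟩ fun j _ => hcon j
    rw [← mul_sum, ← h1, h2, sum_const, card_univ, Fintype.card_fin, smul_eq_mul] at h3
    exact lt_irrefl _ h3
  refine ⟨j, ?_⟩
  set 𝒮 : Finset (Fin n → Bool) := univ.filter fun s => J s = j with h𝒮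
  obtain ⟨M, hM, hcov, hL0, hLb⟩ := geo (F j) (by
    rw [← hF]; exact Set.subset_iUnion (fun j => (F j).matrices) j) 𝒮
    (fun s hs => by rw [h𝒮, mem_filter] at hs; rw [← hs.2]; exact hJ s) (ℓ j) (hℓ j)
  obtain ⟨I, 𝒮', hsub𝒮, hI, hI1, hI2⟩ := dense_pack 𝒮 hj
  -- sizes
  have hS'pos : (2 : ℝ) ^ n / 2 ^ (12 * m) ≤ 𝒮'.card := by
    refine le_trans ?_ hI1
    have hj' : (2 : ℝ) ^ n / 2 ^ m ≤ 𝒮.card := by
      rw [div_le_iff₀ (by positivity), mul_comm]
      exact_mod_cast hj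
    have h1 : ((1 : ℝ) / 2 ^ 11) ^ m ≤ (53 / 100) ^ I.card := by
      calc ((1 : ℝ) / 2 ^ 11) ^ m ≤ ((53 / 100 : ℝ) ^ 12) ^ m := by
            apply pow_le_pow_left₀ (by positivity)
            norm_num
        _ = (53 / 100) ^ (12 * m) := by rw [pow_mul]
        _ ≤ (53 / 100) ^ I.card :=
            pow_le_pow_of_le_one (by norm_num) (by norm_num) hI
    calc (2 : ℝ) ^ n / 2 ^ (12 * m) = (1 / 2 ^ 11) ^ m * (2 ^ n / 2 ^ m) := by
          rw [div_pow, one_pow, ← pow_mul, div_mul_div_comm, one_mul, ← pow_add]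
          congr 2; ring
      _ ≤ (53 / 100) ^ I.card * 𝒮.card :=
          mul_le_mul h1 hj' (by positivity) (by positivity)
  have hSpos : (0 : ℝ) < 𝒮'.card := lt_of_lt_of_le (by positivity) hS'pos
  -- triples disjoint from `I`
  set T : Finset (Tri n) := univ.filter fun t => ∀ i, t i ∉ I with hT
  -- lower bound of the number of separated pairs
  have hlow : (1 / 10 : ℝ) * 𝒮'.card * T.card ≤
      ∑ s ∈ 𝒮', ((univ.filter fun t : Tri n => SepBy t s ∧ ∀ i, t i ∉ I).card : ℝ) := by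
    have h1 : ∑ s ∈ 𝒮', ((univ.filter fun t : Tri n => SepBy t s ∧ ∀ i, t i ∉ I).card : ℝ) =
        ∑ t ∈ T, ((𝒮'.filter fun s => SepBy t s).card : ℝ) := by
      have e1 : ∀ s ∈ 𝒮', ((univ.filter fun t : Tri n => SepBy t s ∧ ∀ i, t i ∉ I).card : ℝ) =
          ∑ t ∈ T, if SepBy t s then (1 : ℝ) else 0 := by
        intro s _
        rw [← sum_filter, hT, filter_filter, sum_const, nsmul_eq_mul, mul_one]
        congr 2
        ext t
        simp only [mem_filter, mem_univ, true_and]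
        exact and_comm
      have e2 : ∀ t ∈ T, ((𝒮'.filter fun s => SepBy t s).card : ℝ) =
          ∑ s ∈ 𝒮', if SepBy t s then (1 : ℝ) else 0 := by
        intro t _
        rw [← sum_filter, sum_const, nsmul_eq_mul, mul_one]
      rw [sum_congr rfl e1, sum_congr rfl e2, sum_comm]
    rw [h1]
    calc (1 / 10 : ℝ) * 𝒮'.card * T.card = ∑ t ∈ T, (1 / 10 : ℝ) * 𝒮'.card := by
          rw [sum_const, nsmul_eq_mul]; ring
      _ ≤ ∑ t ∈ T, ((𝒮'.filter fun s => SepBy t s).card : ℝ) := by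
          apply sum_le_sum
          intro t ht
          exact sep_many 𝒮' I hI2 t (mem_filter.1 ht).2
  -- cover by the blocks
  have hup : ∑ s ∈ 𝒮', ((univ.filter fun t : Tri n => SepBy t s ∧ ∀ i, t i ∉ I).card : ℝ) ≤
      ∑ b, ∑ s ∈ 𝒮', ((univ.filter fun t : Tri n => M b t s ∧ ∀ i, t i ∉ I).card : ℝ) := by
    rw [sum_comm]
    apply sum_le_sum
    intro s hs
    have hs𝒮 : s ∈ 𝒮 := hsub𝒮 hs
    have hsub : (univ.filter fun t : Tri n => SepBy t s ∧ ∀ i, t i ∉ I) ⊆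
        univ.biUnion fun b => univ.filter fun t : Tri n => M b t s ∧ ∀ i, t i ∉ I := by
      intro t ht
      rw [mem_filter] at ht
      obtain ⟨b, hb⟩ := hcov s hs𝒮 t ht.2.1
      rw [mem_biUnion]
      exact ⟨b, mem_univ _, mem_filter.2 ⟨mem_univ _, hb, ht.2.2⟩⟩
    have := (card_le_card hsub).trans card_biUnion_le
    exact_mod_cast this
  -- the bound of one block
  have hblock : ∀ (N : Tri n → (Fin n → Bool) → Prop) (l : ℕ), (∀ t s, N t s → SepBy t s) →
      TriLE N (l + 1) →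
      ∑ s ∈ 𝒮', ((univ.filter fun t : Tri n => N t s ∧ ∀ i, t i ∉ I).card : ℝ) ≤
        70600000000 * min (((m : ℝ) + 1) ^ 5 * ((l : ℝ) + 1) ^ (3 / 2 : ℝ)) (((l : ℝ) + 1) ^ 3) *
          𝒮'.card := by
    intro N l hN hNL
    have hl : (1 : ℝ) ≤ (l : ℝ) + 1 := by
      have : (0 : ℝ) ≤ l := by positivity
      linarith
    have hpow : ((l : ℝ) + 1) ^ (3 / 2 : ℝ) = ((l : ℝ) + 1) * √((l : ℝ) + 1) := by
      rw [show (3 / 2 : ℝ) = 1 + 1 / 2 by norm_num, Real.rpow_add (by linarith), Real.rpow_one,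
        Real.sqrt_eq_rpow]
    rw [mul_assoc, min_mul_of_nonneg _ _ hSpos.le, mul_min_of_nonneg _ _ (by norm_num)]
    refine le_min ?_ ?_
    · have h1 : ∑ s ∈ 𝒮', ((univ.filter fun t : Tri n => N t s ∧ ∀ i, t i ∉ I).card : ℝ) ≤
          ∑ s ∈ 𝒮', ((univ.filter fun t : Tri n => N t s).card : ℝ) := by
        apply sum_le_sum
        intro s _
        norm_cast
        apply card_le_card
        intro t ht
        rw [mem_filter] at ht ⊢
        exact ⟨ht.1, ht.2.1⟩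
      refine h1.trans ((combA N hN (l + 1) hNL (12 * m) 𝒮').trans ?_)
      have h2 : (𝒮'.card : ℝ) + 81 * 2 ^ n / 2 ^ (12 * m) ≤ 82 * 𝒮'.card := by
        have : (81 : ℝ) * 2 ^ n / 2 ^ (12 * m) = 81 * (2 ^ n / 2 ^ (12 * m)) := by ring
        rw [this]; linarith
      have h3 : (((12 * m : ℕ) : ℝ) + 3) ^ 5 ≤ (12 * ((m : ℝ) + 1)) ^ 5 := by
        apply pow_le_pow_left₀ (by positivity)
        push_cast
        linarith
      have h4 : (0 : ℝ) ≤ (((l + 1 : ℕ) : ℝ) * √((l + 1 : ℕ) : ℝ)) := by positivity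
      calc 3456 * (((l + 1 : ℕ) : ℝ) * √((l + 1 : ℕ) : ℝ)) * (((12 * m : ℕ) : ℝ) + 3) ^ 5 *
            ((𝒮'.card : ℝ) + 81 * 2 ^ n / 2 ^ (12 * m))
          ≤ 3456 * (((l + 1 : ℕ) : ℝ) * √((l + 1 : ℕ) : ℝ)) * (12 * ((m : ℝ) + 1)) ^ 5 *
            (82 * 𝒮'.card) := by
            gcongr
        _ = 3456 * 12 ^ 5 * 82 * ((((l : ℝ) + 1) * √((l : ℝ) + 1)) * ((m : ℝ) + 1) ^ 5 *
            𝒮'.card) := by push_cast; ring
        _ ≤ 70600000000 * ((((l : ℝ) + 1) * √((l : ℝ) + 1)) * ((m : ℝ) + 1) ^ 5 * 𝒮'.card) := by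
            apply mul_le_mul_of_nonneg_right (by norm_num) (by positivity)
        _ = 70600000000 * (((m : ℝ) + 1) ^ 5 * ((l : ℝ) + 1) ^ (3 / 2 : ℝ) * 𝒮'.card) := by
            rw [hpow]; ring
    · refine (process N hN (l + 1) hNL 𝒮' I hI2).trans ?_
      rw [← mul_assoc]
      apply mul_le_mul_of_nonneg_right _ hSpos.le
      push_cast
      have : (1 : ℝ) ≤ ((l : ℝ) + 1) ^ 3 := one_le_pow₀ hl
      nlinarith
  -- sum over the blocks
  have hsum : ∑ b, ∑ s ∈ 𝒮', ((univ.filter fun t : Tri n => M b t s ∧ ∀ i, t i ∉ I).card : ℝ) ≤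
      70600000000 * (1 + ∑ b, min (((m : ℝ) + 1) ^ 5 * ((ℓ j b : ℝ) + 1) ^ (3 / 2 : ℝ))
        (((ℓ j b : ℝ) + 1) ^ 3)) * 𝒮'.card := by
    rw [Fintype.sum_option, mul_add, add_mul, mul_sum, sum_mul]
    apply add_le_add
    · refine (hblock (M none) 0 (fun t s h => (hM _ t s h).2) hL0).trans ?_
      have : min (((m : ℝ) + 1) ^ 5 * (((0 : ℕ) : ℝ) + 1) ^ (3 / 2 : ℝ))
          ((((0 : ℕ) : ℝ) + 1) ^ 3) ≤ 1 := by
        refine (min_le_right _ _).trans ?_
        norm_num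
      apply mul_le_mul_of_nonneg_right _ hSpos.le
      linarith
    · apply sum_le_sum
      intro b _
      exact hblock (M (some b)) (ℓ j b) (fun t s h => (hM _ t s h).2) (hLb b)
  set R : ℝ := 1 + ∑ b, min (((m : ℝ) + 1) ^ 5 * ((ℓ j b : ℝ) + 1) ^ (3 / 2 : ℝ))
        (((ℓ j b : ℝ) + 1) ^ 3) with hR
  have hR1 : 1 ≤ R := by
    rw [hR]
    have : 0 ≤ ∑ b, min (((m : ℝ) + 1) ^ 5 * ((ℓ j b : ℝ) + 1) ^ (3 / 2 : ℝ))
        (((ℓ j b : ℝ) + 1) ^ 3) := sum_nonneg fun b _ => le_min (by positivity) (by positivity)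
    linarith
  -- the number of triples
  have hTn : (T.card : ℝ) ≤ 706000000000 * R := by
    have h1 := hlow.trans (hup.trans hsum)
    have h2 : (1 / 10 : ℝ) * T.card * 𝒮'.card ≤ 70600000000 * R * 𝒮'.card := by
      calc (1 / 10 : ℝ) * T.card * 𝒮'.card = (1 / 10 : ℝ) * 𝒮'.card * T.card := by ring
        _ ≤ _ := h1
    have h3 := le_of_mul_le_mul_right h2 hSpos
    linarith
  by_cases hn : n < 12
  · have h1 : (n : ℝ) ^ 3 ≤ 12 ^ 3 := by
      apply pow_le_pow_left₀ (by positivity)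
      exact_mod_cast hn.le
    have h2 : (12 : ℝ) ^ 3 ≤ 2 * 10 ^ 13 * 1 := by norm_num
    exact h1.trans (h2.trans (by gcongr))
  · push Not at hn
    have hIn : 2 * I.card ≤ n := by omega
    have h1 := card_tri_disj I
    obtain ⟨p, hp⟩ : ∃ p, n - I.card = p + 6 := ⟨n - I.card - 6, by omega⟩
    have h2 : n ≤ 2 * (p + 6) := by omega
    have h3 : ((p : ℝ) + 6) * (p + 5) * (p + 4) ≤ T.card := by
      rw [hp] at h1
      have e1 : p + 6 - 1 = p + 5 := rfl
      have e2 : p + 6 - 2 = p + 4 := rfl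
      rw [e1, e2] at h1
      exact_mod_cast h1
    have h4 : (n : ℝ) ^ 3 ≤ (2 * (p + 6)) ^ 3 := by
      apply pow_le_pow_left₀ (by positivity)
      exact_mod_cast h2
    have hp0 : (0 : ℝ) ≤ p := by positivity
    have h5 : (5 : ℝ) * (p + 6) ^ 3 ≤ 9 * (((p : ℝ) + 6) * (p + 5) * (p + 4)) := by
      nlinarith [mul_nonneg hp0 hp0, mul_nonneg (mul_nonneg hp0 hp0) hp0]
    nlinarith

end Pool.Agent.ConvF
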