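import Pool.Agent.ConvF.Geo2
import Pool.Agent.ConvF.CombA
import Pool.Agent.ConvF.Dense
import Pool.Agent.ConvF.Process

/-!
# The lower bound for programs

`geo2` gives for each cut `s` a program `f s`; some `j` has `|𝒮| ≥ 2^(n-m)`, `𝒮 = {s | f s = j}`, and
there are relations `M b`, `b : Option (P j).ι`. Let `I, ρ` be from `dense`,
`𝒮' = {s ∈ 𝒮 | s = ρ on I}`; `|I| ≤ 12 m ≤ n/4`, `|𝒮'| ≥ 2^(n-12m)`. For every `t` disjoint from `I` at
most `6 θ³ |𝒮'|` of the `s ∈ 𝒮'` do not separate `t`, and `1 - 6 θ³ ≥ 1/10`. By the cover property the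
pairs `(t, s)` with `t` disjoint from `I`, `s ∈ 𝒮'` separating `t` are caught by some `M b`; for each
`b` both `process` and `combA` (for `𝒮'`, with `12 m` in the place of `m`) bound their number.
-/

namespace Pool.Agent.ConvF

open Finset Pool.Agent.H98.ConicCount

/-- Number of triples disjoint from `I` with the middle vertex in the first half and the others in
the second half. -/
theorem card_TK {n : ℕ} (hn : 24 ≤ n) (I : Finset (Fin n)) (hI : 4 * I.card ≤ n) :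
    (n : ℝ) ^ 3 ≤ 94 * ((univ.filter fun t : Tri n => TK t ∧ ∀ i, t i ∉ I).card : ℝ) := by
  classical
  set A : Finset (Fin n) := (univ.filter fun u => InK n u) \ I with hA
  set B : Finset (Fin n) := (univ.filter fun u => ¬ InK n u) \ I with hB
  have h1 : A.card * (B.card * B.card - B.card) ≤
      (univ.filter fun t : Tri n => TK t ∧ ∀ i, t i ∉ I).card := by
    rw [← offDiag_card, ← card_product]
    apply card_le_card_of_surjOn (fun t : Tri n => (t 1, (t 0, t 2)))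
    rintro ⟨x, y, z⟩ hxyz
    rw [mem_coe, mem_product, mem_offDiag] at hxyz
    obtain ⟨hx, hy, hz, hyz⟩ := hxyz
    dsimp only at hx hy hz hyz
    rw [hA, mem_sdiff, mem_filter] at hx
    rw [hB, mem_sdiff, mem_filter] at hy hz
    have hxy : x ≠ y := fun h => hy.1.2 (h ▸ hx.1.2)
    have hxz : x ≠ z := fun h => hz.1.2 (h ▸ hx.1.2)
    have hinj : Function.Injective ![y, x, z] := by
      intro i i' h
      fin_cases i <;> fin_cases i'
      · rfl
      · exact absurd h.symm hxy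
      · exact absurd h hyz
      · exact absurd h hxy
      · rfl
      · exact absurd h hxz
      · exact absurd h.symm hyz
      · exact absurd h.symm hxz
      · rfl
    refine ⟨⟨![y, x, z], hinj⟩, ?_, rfl⟩
    rw [mem_coe, mem_filter]
    refine ⟨mem_univ _, ⟨hx.1.2, hy.1.2, hz.1.2⟩, ?_⟩
    intro i
    fin_cases i
    · exact hy.2
    · exact hx.2
    · exact hz.2
  have hK1 : (univ.filter fun u : Fin n => InK n u).card = (n + 1) / 2 := by
    have h : (univ.filter fun u : Fin n => InK n u) =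
        univ.filter fun u : Fin n => (u : ℕ) < (n + 1) / 2 := by
      ext u
      simp only [mem_filter, mem_univ, true_and, InK]
      omega
    rw [h, Fin.card_filter_val_lt]
    omega
  have hK2 : (univ.filter fun u : Fin n => ¬ InK n u).card = n / 2 := by
    have h := card_filter_add_card_filter_not (s := (univ : Finset (Fin n)))
      (fun u : Fin n => InK n u)
    rw [hK1, card_univ, Fintype.card_fin] at h
    omega
  have hA1 : (n + 1) / 2 - I.card ≤ A.card := by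
    rw [hA, ← hK1]; exact le_card_sdiff _ _
  have hB1 : n / 2 - I.card ≤ B.card := by
    rw [hB, ← hK2]; exact le_card_sdiff _ _
  obtain ⟨a, ha⟩ : ∃ a, A.card = a := ⟨_, rfl⟩
  obtain ⟨b, hb⟩ : ∃ b, B.card = b := ⟨_, rfl⟩
  rw [ha] at hA1 h1
  rw [hb] at hB1 h1
  have ha' : n ≤ 4 * a := by omega
  have hb' : n ≤ 4 * b + 2 := by omega
  have hb1 : 1 ≤ b := by omega
  have h2 : (a : ℝ) * (b * (b - 1)) ≤
      ((univ.filter fun t : Tri n => TK t ∧ ∀ i, t i ∉ I).card : ℝ) := by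
    obtain ⟨c, rfl⟩ : ∃ c, b = c + 1 := ⟨b - 1, by omega⟩
    have h3 : (c + 1) * (c + 1) - (c + 1) = (c + 1) * c := by
      rw [← Nat.mul_sub_one]; rfl
    rw [h3] at h1
    have h4 : ((a * ((c + 1) * c) : ℕ) : ℝ) ≤
      ((univ.filter fun t : Tri n => TK t ∧ ∀ i, t i ∉ I).card : ℝ) := by exact_mod_cast h1
    push_cast at h4 ⊢
    linarith
  have hn' : (24 : ℝ) ≤ n := by exact_mod_cast hn
  have ha'' : (n : ℝ) / 4 ≤ a := by
    have : (n : ℝ) ≤ 4 * a := by exact_mod_cast ha'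
    linarith
  have hb'' : (n : ℝ) / 4 - 1 / 2 ≤ b := by
    have : (n : ℝ) ≤ 4 * b + 2 := by exact_mod_cast hb'
    linarith
  have h5 : ((n : ℝ) / 4 - 1 / 2) * ((n : ℝ) / 4 - 3 / 2) ≤ b * (b - 1) := by
    apply mul_le_mul hb'' (by linarith) (by linarith) (by linarith)
  have h6 : (n : ℝ) / 4 * (((n : ℝ) / 4 - 1 / 2) * ((n : ℝ) / 4 - 3 / 2)) ≤ a * (b * (b - 1)) := by
    apply mul_le_mul ha'' h5 (by nlinarith) (by linarith)
  have h7 : (n : ℝ) ^ 3 ≤ 94 * ((n : ℝ) / 4 * (((n : ℝ) / 4 - 1 / 2) * ((n : ℝ) / 4 - 3 / 2))) := by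
    nlinarith [mul_nonneg (show (0 : ℝ) ≤ n by linarith) (show (0 : ℝ) ≤ n - 24 by linarith),
      mul_nonneg (mul_nonneg (show (0 : ℝ) ≤ n by linarith) (show (0 : ℝ) ≤ n - 24 by linarith))
        (show (0 : ℝ) ≤ n - 24 by linarith)]
  linarith

/-- A density bound for patterns on three vertices gives many separating cuts. -/
theorem sep_many {n : ℕ} (𝒮 : Finset (Fin n → Bool)) (I : Finset (Fin n))
    (hd : ∀ J : Finset (Fin n), Disjoint I J → ∀ α : Fin n → Bool,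
      ((𝒮.filter fun s => ∀ x ∈ J, s x = α x).card : ℝ) ≤ (53 / 100) ^ J.card * 𝒮.card)
    (t : Tri n) (ht : ∀ i, t i ∉ I) :
    (1 / 10 : ℝ) * 𝒮.card ≤ ((𝒮.filter fun s => SepBy t s).card : ℝ) := by
  classical
  have h01 : t 0 ≠ t 1 := fun h => by simpa using t.injective h
  have h12 : t 1 ≠ t 2 := fun h => by simpa using t.injective h
  have h02 : t 0 ≠ t 2 := fun h => by simpa using t.injective h
  -- the pattern sets
  let f : Bool × Bool × Bool → Finset (Fin n → Bool) := fun p =>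
    𝒮.filter fun s => s (t 0) = p.1 ∧ s (t 1) = p.2.1 ∧ s (t 2) = p.2.2
  have hf : ∀ p, ((f p).card : ℝ) ≤ (53 / 100) ^ 3 * 𝒮.card := by
    intro p
    have hdis : Disjoint I (verts t) := by
      rw [Finset.disjoint_right]
      intro x hx
      rw [mem_verts] at hx
      rcases hx with rfl | rfl | rfl <;> exact ht _
    have := hd (verts t) hdis (fun x => if x = t 0 then p.1 else if x = t 1 then p.2.1 else p.2.2)
    rw [card_verts] at this
    refine le_trans ?_ this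
    norm_cast
    apply card_le_card
    intro s hs
    simp only [f, mem_filter] at hs ⊢
    refine ⟨hs.1, ?_⟩
    intro x hx
    rw [mem_verts] at hx
    rcases hx with rfl | rfl | rfl
    · simp [hs.2.1]
    · simp [h01.symm, hs.2.2.1]
    · simp [h02.symm, h12.symm, hs.2.2.2]
  -- the non-separating cuts
  let B : Finset (Bool × Bool × Bool) := univ.filter fun p => ¬ (p.1 = !p.2.1 ∧ p.2.2 = !p.2.1)
  have hB : B.card = 6 := by decide
  have hcov : 𝒮.filter (fun s => ¬ SepBy t s) ⊆ B.biUnion f := by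
    intro s hs
    rw [mem_filter] at hs
    rw [mem_biUnion]
    refine ⟨(s (t 0), s (t 1), s (t 2)), ?_, ?_⟩
    · simp only [B, mem_filter, mem_univ, true_and]
      exact hs.2
    · simp only [f, mem_filter]
      exact ⟨hs.1, trivial, trivial, trivial⟩
  have h1 : ((𝒮.filter fun s => ¬ SepBy t s).card : ℝ) ≤ 6 * ((53 / 100) ^ 3 * 𝒮.card) := by
    calc ((𝒮.filter fun s => ¬ SepBy t s).card : ℝ) ≤ ((B.biUnion f).card : ℝ) := by
          exact_mod_cast card_le_card hcov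
      _ ≤ ((∑ p ∈ B, (f p).card : ℕ) : ℝ) := by exact_mod_cast card_biUnion_le
      _ = ∑ p ∈ B, ((f p).card : ℝ) := by push_cast; rfl
      _ ≤ ∑ p ∈ B, ((53 / 100) ^ 3 * 𝒮.card : ℝ) := sum_le_sum fun p _ => hf p
      _ = 6 * ((53 / 100) ^ 3 * 𝒮.card) := by rw [sum_const, hB]; norm_num
  have h2 : ((𝒮.filter fun s => SepBy t s).card : ℝ) + ((𝒮.filter fun s => ¬ SepBy t s).card : ℝ) =
      𝒮.card := by
    exact_mod_cast card_filter_add_card_filter_not _
  have h3 : (0 : ℝ) ≤ 𝒮.card := by positivity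
  nlinarith

theorem dense_pack {n m : ℕ} (𝒮 : Finset (Fin n → Bool)) (hS : 2 ^ n ≤ 2 ^ m * 𝒮.card) :
    ∃ (I : Finset (Fin n)) (𝒮' : Finset (Fin n → Bool)), 𝒮' ⊆ 𝒮 ∧ I.card ≤ 12 * m ∧
      (53 / 100 : ℝ) ^ I.card * 𝒮.card ≤ 𝒮'.card ∧
      ∀ J : Finset (Fin n), Disjoint I J → ∀ α : Fin n → Bool,
        ((𝒮'.filter fun s => ∀ x ∈ J, s x = α x).card : ℝ) ≤ (53 / 100) ^ J.card * 𝒮'.card := by
  obtain ⟨I, ρ, h1, h2⟩ := dense 𝒮
  have h1' : (53 / 100 : ℝ) ^ I.card * 𝒮.card ≤ (𝒮.filter fun s => ∀ x ∈ I, s x = ρ x).card := by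
    refine le_trans h1 (le_of_eq (congrArg (fun F : Finset (Fin n → Bool) => (F.card : ℝ)) ?_))
    ext s
    simp only [mem_filter]
  refine ⟨I, 𝒮.filter fun s => ∀ x ∈ I, s x = ρ x, filter_subset _ _, dense_card 𝒮 hS I ρ h1', h1',
    ?_⟩
  intro J hJ α
  refine le_trans (le_of_eq (congrArg (fun F : Finset (Fin n → Bool) => (F.card : ℝ)) ?_))
    (le_trans (h2 J hJ α) (le_of_eq (congrArg (fun F : Finset (Fin n → Bool) =>
      (53 / 100 : ℝ) ^ J.card * (F.card : ℝ)) ?_)))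
  · ext s
    simp only [mem_filter]
  · ext s
    simp only [mem_filter]

theorem mainP (n m : ℕ) (hm : 48 * m ≤ n) (P : Fin (2 ^ m) → Program n)
    (hP : ∀ W : Fin n → Fin n → ℝ, (∀ u, W u u = 0) → (∀ u v, W u v = W v u) →
      (∀ u v, u ≠ v → 1 ≤ W u v ∧ W u v ≤ 3) → Correct P W) (ℓ : ∀ j, (P j).ι → ℕ)
    (hℓ : ∀ j b, ChainsLE ((P j).C b) (ℓ j b)) :
    ∃ j, (n : ℝ) ^ 3 ≤ 10 ^ 11 * (1 + ∑ b, min
      ((4 * (m : ℝ) + 1) ^ 5 * ((ℓ j b : ℝ) + 1) ^ (3 / 2 : ℝ)) (((ℓ j b : ℝ) + 1) ^ 3)) := by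
  classical
  obtain ⟨f, hf⟩ := geo2 P hP
  -- pigeonhole
  obtain ⟨j, hj⟩ : ∃ j : Fin (2 ^ m),
      2 ^ n ≤ 2 ^ m * (univ.filter fun s : Fin n → Bool => f s = j).card := by
    by_contra hcon
    push Not at hcon
    have h1 : (univ : Finset (Fin n → Bool)).card =
        ∑ j : Fin (2 ^ m), (univ.filter fun s => f s = j).card :=
      card_eq_sum_card_fiberwise (fun s _ => mem_univ _)
    have h2 : (univ : Finset (Fin n → Bool)).card = 2 ^ n := by rw [card_univ]; simp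
    have h3 : ∑ j : Fin (2 ^ m), 2 ^ m * (univ.filter fun s : Fin n → Bool => f s = j).card <
        ∑ _j : Fin (2 ^ m), 2 ^ n :=
      sum_lt_sum_of_nonempty ⟨⟨0, by positivity⟩, mem_univ _⟩ fun j _ => hcon j
    rw [← mul_sum, ← h1, h2, sum_const, card_univ, Fintype.card_fin, smul_eq_mul] at h3
    exact lt_irrefl _ h3
  refine ⟨j, ?_⟩
  set 𝒮 : Finset (Fin n → Bool) := univ.filter fun s => f s = j with h𝒮
  obtain ⟨M, hM, hcov, hL0, hLb⟩ := hf j (ℓ j) (hℓ j)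
  obtain ⟨I, 𝒮', hsub𝒮, hI, hI1, hI2⟩ := dense_pack 𝒮 hj
  -- sizes
  have hS'pos : (2 : ℝ) ^ n / 2 ^ (12 * m) ≤ 𝒮'.card := by
    refine le_trans ?_ hI1
    have hj' : (2 : ℝ) ^ n / 2 ^ m ≤ 𝒮.card := by
      rw [div_le_iff₀ (by positivity), mul_comm]
      exact_mod_cast hj
    have h1 : ((1 : ℝ) / 2 ^ 11) ^ m ≤ (53 / 100) ^ I.card := by
      calc ((1 : ℝ) / 2 ^ 11) ^ m ≤ ((53 / 100 : ℝ) ^ 12) ^ m := by
            apply pow_le_pow_left₀ (by positivity)
            norm_num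
        _ = (53 / 100) ^ (12 * m) := by rw [pow_mul]
        _ ≤ (53 / 100) ^ I.card :=
            pow_le_pow_of_le_one (by norm_num) (by norm_num) hI
    calc (2 : ℝ) ^ n / 2 ^ (12 * m) = (1 / 2 ^ 11) ^ m * (2 ^ n / 2 ^ m) := by
          rw [div_pow, one_pow, ← pow_mul, div_mul_div_comm, one_mul, ← pow_add]
          congr 2; ring
      _ ≤ (53 / 100) ^ I.card * 𝒮.card :=
          mul_le_mul h1 hj' (by positivity) (by positivity)
  have hSpos : (0 : ℝ) < 𝒮'.card := lt_of_lt_of_le (by positivity) hS'pos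
  -- triples disjoint from `I`
  set T : Finset (Tri n) := univ.filter fun t => TK t ∧ ∀ i, t i ∉ I with hT
  -- lower bound of the number of separated pairs
  have hlow : (1 / 10 : ℝ) * 𝒮'.card * T.card ≤
      ∑ s ∈ 𝒮', ((T.filter fun t => SepBy t s).card : ℝ) := by
    have h1 : ∑ s ∈ 𝒮', ((T.filter fun t => SepBy t s).card : ℝ) =
        ∑ t ∈ T, ((𝒮'.filter fun s => SepBy t s).card : ℝ) := by
      have e1 : ∀ s ∈ 𝒮', ((T.filter fun t => SepBy t s).card : ℝ) =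
          ∑ t ∈ T, if SepBy t s then (1 : ℝ) else 0 := by
        intro s _
        rw [← sum_filter, sum_const, nsmul_eq_mul, mul_one]
      have e2 : ∀ t ∈ T, ((𝒮'.filter fun s => SepBy t s).card : ℝ) =
          ∑ s ∈ 𝒮', if SepBy t s then (1 : ℝ) else 0 := by
        intro t _
        rw [← sum_filter, sum_const, nsmul_eq_mul, mul_one]
      rw [sum_congr rfl e1, sum_congr rfl e2, sum_comm]
    rw [h1]
    calc (1 / 10 : ℝ) * 𝒮'.card * T.card = ∑ t ∈ T, (1 / 10 : ℝ) * 𝒮'.card := by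
          rw [sum_const, nsmul_eq_mul]; ring
      _ ≤ ∑ t ∈ T, ((𝒮'.filter fun s => SepBy t s).card : ℝ) := by
          apply sum_le_sum
          intro t ht
          exact sep_many 𝒮' I hI2 t (mem_filter.1 ht).2.2
  -- cover by the blocks
  have hup : ∑ s ∈ 𝒮', ((T.filter fun t => SepBy t s).card : ℝ) ≤
      ∑ b, ∑ s ∈ 𝒮', ((univ.filter fun t : Tri n => M b t s ∧ ∀ i, t i ∉ I).card : ℝ) := by
    rw [sum_comm]
    apply sum_le_sum
    intro s hs
    have hs𝒮 : s ∈ 𝒮 := hsub𝒮 hs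
    have hsub : (T.filter fun t => SepBy t s) ⊆
        univ.biUnion fun b => univ.filter fun t : Tri n => M b t s ∧ ∀ i, t i ∉ I := by
      intro t ht
      rw [mem_filter, hT, mem_filter] at ht
      obtain ⟨b, hb⟩ := hcov s (mem_filter.1 hs𝒮).2 t ht.1.2.1 ht.2
      rw [mem_biUnion]
      exact ⟨b, mem_univ _, mem_filter.2 ⟨mem_univ _, hb, ht.1.2.2⟩⟩
    have := (card_le_card hsub).trans card_biUnion_le
    exact_mod_cast this
  -- the bound of one block
  have hblock : ∀ (N : Tri n → (Fin n → Bool) → Prop) (l : ℕ), (∀ t s, N t s → SepBy t s) →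
      TriLE N (l + 1) →
      ∑ s ∈ 𝒮', ((univ.filter fun t : Tri n => N t s ∧ ∀ i, t i ∉ I).card : ℝ) ≤
        68864256 * min ((4 * (m : ℝ) + 1) ^ 5 * ((l : ℝ) + 1) ^ (3 / 2 : ℝ)) (((l : ℝ) + 1) ^ 3) *
          𝒮'.card := by
    intro N l hN hNL
    have hl : (1 : ℝ) ≤ (l : ℝ) + 1 := by
      have : (0 : ℝ) ≤ l := by positivity
      linarith
    have hpow : ((l : ℝ) + 1) ^ (3 / 2 : ℝ) = ((l : ℝ) + 1) * √((l : ℝ) + 1) := by
      rw [show (3 / 2 : ℝ) = 1 + 1 / 2 by norm_num, Real.rpow_add (by linarith), Real.rpow_one,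
        Real.sqrt_eq_rpow]
    rw [mul_assoc, min_mul_of_nonneg _ _ hSpos.le, mul_min_of_nonneg _ _ (by norm_num)]
    refine le_min ?_ ?_
    · have h1 : ∑ s ∈ 𝒮', ((univ.filter fun t : Tri n => N t s ∧ ∀ i, t i ∉ I).card : ℝ) ≤
          ∑ s ∈ 𝒮', ((univ.filter fun t : Tri n => N t s).card : ℝ) := by
        apply sum_le_sum
        intro s _
        norm_cast
        apply card_le_card
        intro t ht
        rw [mem_filter] at ht ⊢
        exact ⟨ht.1, ht.2.1⟩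
      refine h1.trans ((combA N hN (l + 1) hNL (12 * m) 𝒮').trans ?_)
      have h2 : (𝒮'.card : ℝ) + 81 * 2 ^ n / 2 ^ (12 * m) ≤ 82 * 𝒮'.card := by
        have : (81 : ℝ) * 2 ^ n / 2 ^ (12 * m) = 81 * (2 ^ n / 2 ^ (12 * m)) := by ring
        rw [this]; linarith
      have h3 : (((12 * m : ℕ) : ℝ) + 3) ^ 5 = 243 * (4 * (m : ℝ) + 1) ^ 5 := by
        push_cast
        ring
      have h4 : (0 : ℝ) ≤ (((l + 1 : ℕ) : ℝ) * √((l + 1 : ℕ) : ℝ)) := by positivity
      calc 3456 * (((l + 1 : ℕ) : ℝ) * √((l + 1 : ℕ) : ℝ)) * (((12 * m : ℕ) : ℝ) + 3) ^ 5 *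
            ((𝒮'.card : ℝ) + 81 * 2 ^ n / 2 ^ (12 * m))
          ≤ 3456 * (((l + 1 : ℕ) : ℝ) * √((l + 1 : ℕ) : ℝ)) * (((12 * m : ℕ) : ℝ) + 3) ^ 5 *
            (82 * 𝒮'.card) := by
            gcongr
        _ = 68864256 * ((4 * (m : ℝ) + 1) ^ 5 * ((l : ℝ) + 1) ^ (3 / 2 : ℝ) * 𝒮'.card) := by
            rw [h3, hpow]; push_cast; ring
    · refine (process N hN (l + 1) hNL 𝒮' I hI2).trans ?_
      rw [← mul_assoc]
      apply mul_le_mul_of_nonneg_right _ hSpos.le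
      push_cast
      have : (1 : ℝ) ≤ ((l : ℝ) + 1) ^ 3 := one_le_pow₀ hl
      nlinarith
  -- sum over the blocks
  have hsum : ∑ b, ∑ s ∈ 𝒮', ((univ.filter fun t : Tri n => M b t s ∧ ∀ i, t i ∉ I).card : ℝ) ≤
      68864256 * (1 + ∑ b, min ((4 * (m : ℝ) + 1) ^ 5 * ((ℓ j b : ℝ) + 1) ^ (3 / 2 : ℝ))
        (((ℓ j b : ℝ) + 1) ^ 3)) * 𝒮'.card := by
    rw [Fintype.sum_option, mul_add, add_mul, mul_sum, sum_mul]
    apply add_le_add
    · refine (hblock (M none) 0 (hM _) hL0).trans ?_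
      have : min ((4 * (m : ℝ) + 1) ^ 5 * (((0 : ℕ) : ℝ) + 1) ^ (3 / 2 : ℝ))
          ((((0 : ℕ) : ℝ) + 1) ^ 3) ≤ 1 := by
        refine (min_le_right _ _).trans ?_
        norm_num
      apply mul_le_mul_of_nonneg_right _ hSpos.le
      linarith
    · apply sum_le_sum
      intro b _
      exact hblock (M (some b)) (ℓ j b) (hM _) (hLb b)
  set R : ℝ := 1 + ∑ b, min ((4 * (m : ℝ) + 1) ^ 5 * ((ℓ j b : ℝ) + 1) ^ (3 / 2 : ℝ))
        (((ℓ j b : ℝ) + 1) ^ 3) with hR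
  have hR1 : 1 ≤ R := by
    rw [hR]
    have : 0 ≤ ∑ b, min ((4 * (m : ℝ) + 1) ^ 5 * ((ℓ j b : ℝ) + 1) ^ (3 / 2 : ℝ))
        (((ℓ j b : ℝ) + 1) ^ 3) := sum_nonneg fun b _ => le_min (by positivity) (by positivity)
    linarith
  -- the number of triples
  have hTn : (T.card : ℝ) ≤ 688642560 * R := by
    have h1 := hlow.trans (hup.trans hsum)
    have h2 : (1 / 10 : ℝ) * T.card * 𝒮'.card ≤ 68864256 * R * 𝒮'.card := by
      calc (1 / 10 : ℝ) * T.card * 𝒮'.card = (1 / 10 : ℝ) * 𝒮'.card * T.card := by ring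
        _ ≤ _ := h1
    have h3 := le_of_mul_le_mul_right h2 hSpos
    linarith
  by_cases hn : n < 24
  · have h1 : (n : ℝ) ^ 3 ≤ 24 ^ 3 := by
      apply pow_le_pow_left₀ (by positivity)
      exact_mod_cast hn.le
    have h2 : (24 : ℝ) ^ 3 ≤ 10 ^ 11 * 1 := by norm_num
    exact h1.trans (h2.trans (by gcongr))
  · push Not at hn
    have h1 := card_TK hn I (by omega)
    rw [← hT] at h1
    nlinarith

end Pool.Agent.ConvF
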