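import Pool.Agent.ConvF.Proj

/-!
# Identity patterns

`V` is a finite set with three pairwise disjoint classes of vertices `X, Y', W` (given by
`cls : V → Fin 3`, classes `0, 1, 2`), and `R x y w z` a relation between `x, y, w ∈ V` and `z ⊆ V`
such that `R x y w z` implies `cls x = 0`, `cls y = 1`, `cls w = 2` and `x, y, w ∈ z`.
Hypothesis `hL` (no long identity pattern): if `G` is a set of pairs and `w, z` are functions on it
with `R e.1 e.2 (w e) (z e)` for `e ∈ G`, such that for `e ≠ e'` in `G` the set `z e'` contains some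
but not all of `e.1, e.2, w e`, then `|G| ≤ L`.
Claim: if each `z ∈ 𝒮` has at least `K` pairs `e` with `∃ w, R e.1 e.2 w z`, then for all
`0 < q ≤ 1`: `K q³ (|𝒮|/2^n)^q ≤ 8 L`, `n = |V|`.

Proof. Let `P z = {e | ∃ w, R e.1 e.2 w z}` and fix `ω z e` with `R e.1 e.2 (ω z e) z` for
`e ∈ P z`. For `Y ⊆ V`, `β ⊆ Y` let `Good Y β` be the set of pairs `e = (x, y)`, `cls x = 0`,
`cls y = 1`, `x, y ∈ Y \ β`, for which there is `z ∈ 𝒮` with `z ∩ Y = β ∪ {x, y}`, `e ∈ P z` and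
`ω z e ∈ Y`. By `hL`, `|Good Y β| ≤ L`: for `e = (x,y) ≠ e' = (x',y')` in `Good Y β` the witness
`ω z e` is in `z ∩ Y = β ∪ {x,y}`, and in `β` as its class is `2`, so it is in `z'`; while `x ∈ z'`
iff `x ∈ β ∪ {x',y'}` iff `x = x'`, and `y ∈ z'` iff `y = y'`.
Weights `wt Y = q^|Y| (1-q)^(n-|Y|)`, total `1`. Then
`L ≥ ∑_Y wt Y 2^{-|Y|} ∑_{β ⊆ Y} |Good Y β|`
`  = ∑_Y wt Y 2^{-|Y|} #{(π, e) | e ∈ π × π, cls.., ∃ z ∈ 𝒮, z ∩ Y = π, e ∈ P z, ω z e ∈ Y}`
(`π = β ∪ {x,y}`)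
`  ≥ ∑_Y wt Y 2^{-|Y|} ∑_{z ∈ 𝒮} #{e ∈ P z | e.1, e.2, ω z e ∈ Y} / |{z' ∈ 𝒮 | z' ∩ Y = z ∩ Y}|`
(for each `π` the number of `e` is at least the average over the fibre)
`  = ∑_{z ∈ 𝒮} ∑_{e ∈ P z} ∑_{Y ∋ e.1, e.2, ω z e} wt Y g_z Y`, `g_z Y = 2^{-|Y|} / |fibre|`.
Since `g_z (insert x Y) ≥ g_z Y / 2` for all `x, Y` (the fibre shrinks), one has for one vertex `x`
`∑_{Y ∋ x} wt Y g Y ≥ (q/2) ∑_Y wt Y g Y` (`sum_mem_ge` below), and three applications give
`≥ (q/2)³ ∑_Y wt Y g_z Y`. Finally `∑_{z ∈ 𝒮} g_z Y = 2^{-|Y|} |trace of 𝒮 on Y|`, so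
`L ≥ (q/2)³ K expTrace q univ 𝒮 ≥ (q/2)³ K (|𝒮|/2^n)^q`.
-/

namespace Pool.Agent.ConvF

open Finset

variable {V : Type*} [DecidableEq V] [Fintype V]

/-- The weight of `Y`. -/
noncomputable def wt (q : ℝ) (Y : Finset V) : ℝ :=
  q ^ Y.card * (1 - q) ^ (Fintype.card V - Y.card)

theorem sum_wt {q : ℝ} (hq0 : 0 < q) (hq1 : q ≤ 1) : ∑ Y : Finset V, wt q Y = 1 := by
  have h := Fintype.sum_pow_mul_eq_add_pow V q (1 - q)
  unfold wt
  rw [h]
  have : q + (1 - q) = 1 := by ring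
  rw [this, one_pow]

theorem sum_mem_ge {q : ℝ} (hq0 : 0 < q) (hq1 : q ≤ 1) (g : Finset V → ℝ) (hg0 : ∀ Y, 0 ≤ g Y)
    (x : V) (hg : ∀ Y, g Y ≤ 2 * g (insert x Y)) :
    q / 2 * ∑ Y : Finset V, wt q Y * g Y ≤ ∑ Y : Finset V, if x ∈ Y then wt q Y * g Y else 0 := by
  have hx : x ∉ (univ : Finset V).erase x := Finset.notMem_erase x _
  have hu : (univ : Finset (Finset V)) = (insert x ((univ : Finset V).erase x)).powerset := by
    rw [Finset.insert_erase (Finset.mem_univ x), Finset.powerset_univ]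
  rw [hu, Finset.sum_powerset_insert hx, Finset.sum_powerset_insert hx, mul_add, Finset.mul_sum,
    Finset.mul_sum, ← Finset.sum_add_distrib, ← Finset.sum_add_distrib]
  refine Finset.sum_le_sum fun Y hY => ?_
  rw [Finset.mem_powerset] at hY
  have hxY : x ∉ Y := fun h => hx (hY h)
  rw [if_neg hxY, if_pos (Finset.mem_insert_self x Y), zero_add]
  have hc : Y.card + 1 ≤ Fintype.card V := by
    have h1 := Finset.card_le_card (Finset.subset_univ (insert x Y))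
    rw [Finset.card_insert_of_notMem hxY, Finset.card_univ] at h1
    exact h1
  obtain ⟨m, hm⟩ : ∃ m, Fintype.card V = Y.card + 1 + m := ⟨_, (Nat.add_sub_of_le hc).symm⟩
  have e1 : wt q Y = (1 - q) * (q ^ Y.card * (1 - q) ^ m) := by
    unfold wt
    rw [hm, show Y.card + 1 + m - Y.card = m + 1 by omega]
    ring
  have e2 : wt q (insert x Y) = q * (q ^ Y.card * (1 - q) ^ m) := by
    unfold wt
    rw [Finset.card_insert_of_notMem hxY, hm, show Y.card + 1 + m - (Y.card + 1) = m by omega]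
    ring
  rw [e1, e2]
  have hw : 0 ≤ q ^ Y.card * (1 - q) ^ m := mul_nonneg (by positivity)
    (pow_nonneg (by linarith) m)
  obtain ⟨w, hw'⟩ : ∃ w, w = q ^ Y.card * (1 - q) ^ m := ⟨_, rfl⟩
  rw [← hw'] at hw ⊢
  have h1 := hg Y
  have h2 := hg0 (insert x Y)
  have h3 : (1 - q) * w * g Y ≤ (1 - q) * w * (2 * g (insert x Y)) :=
    mul_le_mul_of_nonneg_left h1 (mul_nonneg (by linarith) hw)
  have h4 : 0 ≤ q * (w * g (insert x Y)) := mul_nonneg hq0.le (mul_nonneg hw h2)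
  have h5 : (1 - q) * w * g Y + q * w * g (insert x Y) ≤ 2 * (w * g (insert x Y)) := by
    nlinarith
  calc q / 2 * ((1 - q) * w * g Y) + q / 2 * (q * w * g (insert x Y))
      = q / 2 * ((1 - q) * w * g Y + q * w * g (insert x Y)) := by ring
    _ ≤ q / 2 * (2 * (w * g (insert x Y))) := mul_le_mul_of_nonneg_left h5 (by linarith)
    _ = q * w * g (insert x Y) := by ring

/-- Restriction of a weight to the sets which contain `x`. -/
private noncomputable def patternR (x : V) (g : Finset V → ℝ) (Y : Finset V) : ℝ :=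
  if x ∈ Y then g Y else 0

omit [Fintype V] in
private theorem patternR_nonneg {x : V} {g : Finset V → ℝ} (h : ∀ Y, 0 ≤ g Y) (Y : Finset V) :
    0 ≤ patternR x g Y := by
  unfold patternR
  split_ifs
  · exact h Y
  · exact le_rfl

omit [Fintype V] in
private theorem patternR_half {x : V} {g : Finset V → ℝ} (h0 : ∀ Y, 0 ≤ g Y)
    (h : ∀ (y : V) (Y : Finset V), g Y ≤ 2 * g (insert y Y)) (y : V) (Y : Finset V) :
    patternR x g Y ≤ 2 * patternR x g (insert y Y) := by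
  unfold patternR
  by_cases hx : x ∈ Y
  · rw [if_pos hx, if_pos (Finset.mem_insert_of_mem hx)]
    exact h y Y
  · rw [if_neg hx]
    split_ifs
    · exact mul_nonneg (by norm_num) (h0 _)
    · simp

private theorem patternR_sum {q : ℝ} (hq0 : 0 < q) (hq1 : q ≤ 1) {x : V} {g : Finset V → ℝ}
    (h0 : ∀ Y, 0 ≤ g Y) (h : ∀ (y : V) (Y : Finset V), g Y ≤ 2 * g (insert y Y)) :
    q / 2 * ∑ Y : Finset V, wt q Y * g Y ≤ ∑ Y : Finset V, wt q Y * patternR x g Y := by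
  refine (sum_mem_ge hq0 hq1 g h0 x (h x)).trans (le_of_eq ?_)
  refine Finset.sum_congr rfl fun Y _ => ?_
  unfold patternR
  split_ifs
  · rfl
  · rw [mul_zero]

private theorem pattern_three {q : ℝ} (hq0 : 0 < q) (hq1 : q ≤ 1) (a b c : V)
    {g : Finset V → ℝ} (h0 : ∀ Y, 0 ≤ g Y)
    (h : ∀ (y : V) (Y : Finset V), g Y ≤ 2 * g (insert y Y)) :
    (q / 2) ^ 3 * ∑ Y : Finset V, wt q Y * g Y ≤
      ∑ Y : Finset V, wt q Y * (g Y * if a ∈ Y ∧ b ∈ Y ∧ c ∈ Y then 1 else 0) := by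
  have h1 := patternR_sum hq0 hq1 (x := c) h0 h
  have h2 := patternR_sum hq0 hq1 (x := b) (patternR_nonneg (x := c) h0) (patternR_half (x := c) h0 h)
  have h3 := patternR_sum hq0 hq1 (x := a) (patternR_nonneg (x := b) (patternR_nonneg (x := c) h0))
    (patternR_half (x := b) (patternR_nonneg (x := c) h0) (patternR_half (x := c) h0 h))
  have hq2 : 0 ≤ q / 2 := by linarith
  have e : ∑ Y : Finset V, wt q Y * (g Y * if a ∈ Y ∧ b ∈ Y ∧ c ∈ Y then 1 else 0) =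
      ∑ Y : Finset V, wt q Y * patternR a (patternR b (patternR c g)) Y := by
    refine Finset.sum_congr rfl fun Y _ => ?_
    unfold patternR
    by_cases ha : a ∈ Y <;> by_cases hb : b ∈ Y <;> by_cases hc : c ∈ Y <;> simp [ha, hb, hc]
  rw [e]
  calc (q / 2) ^ 3 * ∑ Y : Finset V, wt q Y * g Y
      = q / 2 * (q / 2 * (q / 2 * ∑ Y : Finset V, wt q Y * g Y)) := by ring
    _ ≤ q / 2 * (q / 2 * ∑ Y : Finset V, wt q Y * patternR c g Y) :=
        mul_le_mul_of_nonneg_left (mul_le_mul_of_nonneg_left h1 hq2) hq2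
    _ ≤ q / 2 * ∑ Y : Finset V, wt q Y * patternR b (patternR c g) Y :=
        mul_le_mul_of_nonneg_left h2 hq2
    _ ≤ _ := h3

omit [Fintype V] in
private theorem pattern_fibre (𝒮 : Finset (Finset V)) (Y : Finset V) (F : Finset V → ℝ) :
    ∑ z ∈ 𝒮, F (z ∩ Y) / ((𝒮.filter (fun z' => z' ∩ Y = z ∩ Y)).card : ℝ) =
      ∑ π ∈ 𝒮.image (· ∩ Y), F π := by
  rw [← Finset.sum_fiberwise_of_maps_to (s := 𝒮) (t := 𝒮.image (· ∩ Y)) (g := (· ∩ Y))
    (fun z hz => Finset.mem_image_of_mem _ hz)]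
  refine Finset.sum_congr rfl fun π hπ => ?_
  have h1 : ∀ z ∈ 𝒮.filter (fun z => z ∩ Y = π),
      F (z ∩ Y) / ((𝒮.filter (fun z' => z' ∩ Y = z ∩ Y)).card : ℝ) =
        F π / ((𝒮.filter (fun z' => z' ∩ Y = π)).card : ℝ) := by
    intro z hz
    rw [(Finset.mem_filter.1 hz).2]
  rw [Finset.sum_congr rfl h1, Finset.sum_const, nsmul_eq_mul]
  have h2 : 0 < (𝒮.filter (fun z' => z' ∩ Y = π)).card := by
    obtain ⟨z, hz, hzπ⟩ := Finset.mem_image.1 hπ
    exact Finset.card_pos.2 ⟨z, Finset.mem_filter.2 ⟨hz, hzπ⟩⟩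
  have h3 : ((𝒮.filter (fun z' => z' ∩ Y = π)).card : ℝ) ≠ 0 := by
    exact_mod_cast h2.ne'
  field_simp

theorem pattern (cls : V → Fin 3) (R : V → V → V → Finset V → Prop)
    (hR : ∀ x y w z, R x y w z →
      (cls x = 0 ∧ cls y = 1 ∧ cls w = 2) ∧ x ∈ z ∧ y ∈ z ∧ w ∈ z)
    (L : ℕ)
    (hL : ∀ (G : Finset (V × V)) (w : V × V → V) (z : V × V → Finset V),
      (∀ e ∈ G, R e.1 e.2 (w e) (z e)) →
      (∀ e ∈ G, ∀ e' ∈ G, e ≠ e' →
        (e.1 ∈ z e' ∨ e.2 ∈ z e' ∨ w e ∈ z e') ∧ ¬ (e.1 ∈ z e' ∧ e.2 ∈ z e' ∧ w e ∈ z e')) →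
      G.card ≤ L)
    (𝒮 : Finset (Finset V)) (K : ℕ) (P : Finset V → Finset (V × V))
    (hP : ∀ z ∈ 𝒮, ∀ e ∈ P z, ∃ w, R e.1 e.2 w z) (hK : ∀ z ∈ 𝒮, K ≤ (P z).card)
    {q : ℝ} (hq0 : 0 < q) (hq1 : q ≤ 1) :
    K * q ^ 3 * ((𝒮.card : ℝ) / 2 ^ Fintype.card V) ^ q ≤ 8 * L := by
  classical
  -- the witnesses
  obtain ⟨ω, hω⟩ : ∃ ω : Finset V → V × V → V, ∀ z ∈ 𝒮, ∀ e ∈ P z, R e.1 e.2 (ω z e) z := by
    refine ⟨fun z e => if h : ∃ w, R e.1 e.2 w z then h.choose else e.1, fun z hz e he => ?_⟩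
    have h := hP z hz e he
    simp only [dif_pos h]
    exact h.choose_spec
  -- the pairs over a trace
  obtain ⟨E, hE⟩ : ∃ E : Finset V → Finset V → Finset (V × V), ∀ Y π e, e ∈ E Y π ↔
      ∃ z ∈ 𝒮, z ∩ Y = π ∧ e ∈ P z ∧ e.1 ∈ Y ∧ e.2 ∈ Y ∧ ω z e ∈ Y :=
    ⟨fun Y π => univ.filter (fun e => ∃ z ∈ 𝒮, z ∩ Y = π ∧ e ∈ P z ∧ e.1 ∈ Y ∧ e.2 ∈ Y ∧ ω z e ∈ Y),
      fun Y π e => by simp⟩
  obtain ⟨Good, hGood⟩ : ∃ Good : Finset V → Finset V → Finset (V × V), ∀ Y β e, e ∈ Good Y β ↔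
      (e.1 ∉ β ∧ e.2 ∉ β) ∧ e ∈ E Y (insert e.1 (insert e.2 β)) :=
    ⟨fun Y β => univ.filter (fun e => (e.1 ∉ β ∧ e.2 ∉ β) ∧ e ∈ E Y (insert e.1 (insert e.2 β))),
      fun Y β e => by simp⟩
  have hGoodL : ∀ Y β, (Good Y β).card ≤ L := by
    intro Y β
    have hex : ∀ e, ∃ z : Finset V, e ∈ Good Y β → (z ∈ 𝒮 ∧ z ∩ Y = insert e.1 (insert e.2 β) ∧
        e ∈ P z ∧ e.1 ∈ Y ∧ e.2 ∈ Y ∧ ω z e ∈ Y) := by
      intro e
      by_cases he : e ∈ Good Y β
      · obtain ⟨z, h1, h2⟩ := (hE _ _ _).1 ((hGood _ _ _).1 he).2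
        exact ⟨z, fun _ => ⟨h1, h2⟩⟩
      · exact ⟨∅, fun h => absurd h he⟩
    choose z hz using hex
    refine hL (Good Y β) (fun e => ω (z e) e) z (fun e he => ?_) (fun e he e' he' hne => ?_)
    · exact hω _ (hz e he).1 e (hz e he).2.2.1
    · obtain ⟨a1, a2, a3, a4, a5, a6⟩ := hz e he
      obtain ⟨b1, b2, b3, b4, b5, b6⟩ := hz e' he'
      obtain ⟨⟨c1, c2, c3⟩, d1, d2, d3⟩ := hR _ _ _ _ (hω _ a1 e a3)
      obtain ⟨⟨c1', c2', c3'⟩, d1', d2', d3'⟩ := hR _ _ _ _ (hω _ b1 e' b3)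
      obtain ⟨n1, n2⟩ := ((hGood _ _ _).1 he).1
      constructor
      · right; right
        have h1 : ω (z e) e ∈ z e ∩ Y := Finset.mem_inter.2 ⟨d3, a6⟩
        rw [a2, Finset.mem_insert, Finset.mem_insert] at h1
        rcases h1 with h1 | h1 | h1
        · rw [h1, c1] at c3
          exact absurd c3 (by decide)
        · rw [h1, c2] at c3
          exact absurd c3 (by decide)
        · have h2 : ω (z e) e ∈ z e' ∩ Y := by
            rw [b2]
            exact Finset.mem_insert_of_mem (Finset.mem_insert_of_mem h1)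
          exact (Finset.mem_inter.1 h2).1
      · rintro ⟨k1, k2, -⟩
        have h1 : e.1 ∈ z e' ∩ Y := Finset.mem_inter.2 ⟨k1, a4⟩
        have h2 : e.2 ∈ z e' ∩ Y := Finset.mem_inter.2 ⟨k2, a5⟩
        rw [b2, Finset.mem_insert, Finset.mem_insert] at h1 h2
        have e1 : e.1 = e'.1 := by
          rcases h1 with h1 | h1 | h1
          · exact h1
          · rw [h1, c2'] at c1
            exact absurd c1 (by decide)
          · exact absurd h1 n1
        have e2 : e.2 = e'.2 := by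
          rcases h2 with h2 | h2 | h2
          · rw [h2, c1'] at c2
            exact absurd c2 (by decide)
          · exact h2
          · exact absurd h2 n2
        exact hne (Prod.ext e1 e2)
  -- the number of pairs over all traces
  have hcount : ∀ Y : Finset V, ∑ π ∈ 𝒮.image (· ∩ Y), (E Y π).card ≤ 2 ^ Y.card * L := by
    intro Y
    have h1 : ((𝒮.image (· ∩ Y)).sigma (E Y)).card ≤ (Y.powerset.sigma (Good Y)).card := by
      refine Finset.card_le_card_of_injOn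
        (fun t => ⟨(t.1.erase t.2.1).erase t.2.2, t.2⟩) ?_ ?_
      · rintro ⟨π, e⟩ ht
        rw [Finset.mem_coe, Finset.mem_sigma] at ht
        obtain ⟨hπ, he⟩ := ht
        simp only at hπ he
        obtain ⟨z, z1, z2, z3, z4, z5, z6⟩ := (hE _ _ _).1 he
        obtain ⟨⟨c1, c2, c3⟩, d1, d2, d3⟩ := hR _ _ _ _ (hω _ z1 e z3)
        have m1 : e.1 ∈ π := by rw [← z2]; exact Finset.mem_inter.2 ⟨d1, z4⟩
        have m2 : e.2 ∈ π := by rw [← z2]; exact Finset.mem_inter.2 ⟨d2, z5⟩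
        have hne : e.2 ≠ e.1 := by
          intro h
          rw [h, c1] at c2
          exact absurd c2 (by decide)
        have hins : insert e.1 (insert e.2 ((π.erase e.1).erase e.2)) = π := by
          rw [Finset.insert_erase (Finset.mem_erase.2 ⟨hne, m2⟩), Finset.insert_erase m1]
        rw [Finset.mem_coe, Finset.mem_sigma]
        refine ⟨?_, ?_⟩
        · rw [Finset.mem_powerset]
          refine ((Finset.erase_subset _ _).trans (Finset.erase_subset _ _)).trans ?_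
          rw [← z2]
          exact Finset.inter_subset_right
        · rw [hGood]
          refine ⟨⟨?_, ?_⟩, ?_⟩
          · exact fun h => Finset.notMem_erase _ _ (Finset.mem_of_mem_erase h)
          · exact Finset.notMem_erase _ _
          · change e ∈ E Y (insert e.1 (insert e.2 ((π.erase e.1).erase e.2)))
            rw [hins]
            exact he
      · rintro ⟨π, e⟩ ht ⟨π', e'⟩ ht' heq
        rw [Finset.mem_coe, Finset.mem_sigma] at ht ht'
        simp only [Sigma.mk.injEq, heq_eq_eq] at heq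
        obtain ⟨h1, h2⟩ := heq
        subst h2
        have key : ∀ ρ : Finset V, e ∈ E Y ρ →
            insert e.1 (insert e.2 ((ρ.erase e.1).erase e.2)) = ρ := by
          intro ρ hρ
          obtain ⟨z, z1, z2, z3, z4, z5, z6⟩ := (hE _ _ _).1 hρ
          obtain ⟨⟨c1, c2, c3⟩, d1, d2, d3⟩ := hR _ _ _ _ (hω _ z1 e z3)
          have m1 : e.1 ∈ ρ := by rw [← z2]; exact Finset.mem_inter.2 ⟨d1, z4⟩
          have m2 : e.2 ∈ ρ := by rw [← z2]; exact Finset.mem_inter.2 ⟨d2, z5⟩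
          have hne : e.2 ≠ e.1 := by
            intro h
            rw [h, c1] at c2
            exact absurd c2 (by decide)
          rw [Finset.insert_erase (Finset.mem_erase.2 ⟨hne, m2⟩), Finset.insert_erase m1]
        have k1 := key π ht.2
        have k2 := key π' ht'.2
        rw [h1] at k1
        have : π = π' := k1.symm.trans k2
        subst this
        rfl
    rw [Finset.card_sigma, Finset.card_sigma] at h1
    refine h1.trans ?_
    calc ∑ β ∈ Y.powerset, (Good Y β).card ≤ ∑ _β ∈ Y.powerset, L :=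
          Finset.sum_le_sum fun β _ => hGoodL Y β
      _ = 2 ^ Y.card * L := by rw [Finset.sum_const, Finset.card_powerset, smul_eq_mul]
  -- the weights
  obtain ⟨g, hg⟩ : ∃ g : Finset V → Finset V → ℝ, g = fun z Y => (1 / 2 ^ Y.card : ℝ) /
      ((𝒮.filter (fun z' => z' ∩ Y = z ∩ Y)).card : ℝ) := ⟨_, rfl⟩
  have hg0 : ∀ z Y, 0 ≤ g z Y := by
    intro z Y
    rw [hg]
    positivity
  have hghalf : ∀ z ∈ 𝒮, ∀ (y : V) (Y : Finset V), g z Y ≤ 2 * g z (insert y Y) := by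
    intro z hz y Y
    have hsub : 𝒮.filter (fun z' => z' ∩ insert y Y = z ∩ insert y Y) ⊆
        𝒮.filter (fun z' => z' ∩ Y = z ∩ Y) := by
      intro z' hz'
      rw [Finset.mem_filter] at hz' ⊢
      refine ⟨hz'.1, ?_⟩
      have h1 : ∀ s : Finset V, s ∩ insert y Y ∩ Y = s ∩ Y := by
        intro s
        rw [Finset.inter_assoc, Finset.inter_eq_right.2 (Finset.subset_insert y Y)]
      rw [← h1 z', hz'.2, h1]
    have hc1 : 0 < (𝒮.filter (fun z' => z' ∩ insert y Y = z ∩ insert y Y)).card :=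
      Finset.card_pos.2 ⟨z, Finset.mem_filter.2 ⟨hz, rfl⟩⟩
    have hc2 := Finset.card_le_card hsub
    have hc1' : (0 : ℝ) < ((𝒮.filter (fun z' => z' ∩ insert y Y = z ∩ insert y Y)).card : ℝ) := by
      exact_mod_cast hc1
    have hc2' : ((𝒮.filter (fun z' => z' ∩ insert y Y = z ∩ insert y Y)).card : ℝ) ≤
        ((𝒮.filter (fun z' => z' ∩ Y = z ∩ Y)).card : ℝ) := by exact_mod_cast hc2
    have hpow : (2 : ℝ) ^ (insert y Y).card ≤ 2 * 2 ^ Y.card := by
      rw [← pow_succ']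
      exact pow_le_pow_right₀ (by norm_num) (Finset.card_insert_le y Y)
    have hp0 : (0 : ℝ) < 2 ^ Y.card := by positivity
    have hp1 : (0 : ℝ) < 2 ^ (insert y Y).card := by positivity
    rw [hg]
    simp only
    have hc2'' : (0 : ℝ) < ((𝒮.filter (fun z' => z' ∩ Y = z ∩ Y)).card : ℝ) := hc1'.trans_le hc2'
    rw [div_div, div_div, mul_one_div, div_le_div_iff₀ (by positivity) (by positivity)]
    calc (1 : ℝ) * (2 ^ (insert y Y).card *
          ((𝒮.filter (fun z' => z' ∩ insert y Y = z ∩ insert y Y)).card : ℝ))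
        ≤ 1 * ((2 * 2 ^ Y.card) * ((𝒮.filter (fun z' => z' ∩ Y = z ∩ Y)).card : ℝ)) := by
          refine mul_le_mul_of_nonneg_left ?_ zero_le_one
          exact mul_le_mul hpow hc2' hc1'.le (by positivity)
      _ = 2 * (2 ^ Y.card * ((𝒮.filter (fun z' => z' ∩ Y = z ∩ Y)).card : ℝ)) := by ring
  have hwt0 : ∀ Y : Finset V, 0 ≤ wt q Y := fun Y =>
    mul_nonneg (pow_nonneg hq0.le _) (pow_nonneg (by linarith) _)
  -- sum of the weights
  have hA : ∑ z ∈ 𝒮, ∑ Y : Finset V, wt q Y * g z Y = expTrace q univ 𝒮 := by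
    rw [Finset.sum_comm]
    unfold expTrace
    rw [Finset.powerset_univ]
    refine Finset.sum_congr rfl fun Y _ => ?_
    rw [← Finset.mul_sum]
    have h1 := pattern_fibre 𝒮 Y (fun _ => (1 / 2 ^ Y.card : ℝ))
    rw [Finset.sum_const, nsmul_eq_mul] at h1
    have h2 : ∑ z ∈ 𝒮, g z Y = ((𝒮.image (· ∩ Y)).card : ℝ) * (1 / 2 ^ Y.card) := by
      rw [← h1, hg]
    rw [h2]
    unfold wt
    rw [Finset.card_univ]
    ring
  -- the upper bound
  have hB : ∀ Y : Finset V, ∑ z ∈ 𝒮, g z Y *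
      (((P z).filter (fun e => e.1 ∈ Y ∧ e.2 ∈ Y ∧ ω z e ∈ Y)).card : ℝ) ≤ L := by
    intro Y
    have h1 : ∑ z ∈ 𝒮, g z Y *
        (((P z).filter (fun e => e.1 ∈ Y ∧ e.2 ∈ Y ∧ ω z e ∈ Y)).card : ℝ) ≤
        ∑ z ∈ 𝒮, ((1 / 2 ^ Y.card : ℝ) * ((E Y (z ∩ Y)).card : ℝ)) /
          ((𝒮.filter (fun z' => z' ∩ Y = z ∩ Y)).card : ℝ) := by
      refine Finset.sum_le_sum fun z hz => ?_
      have h2 : (((P z).filter (fun e => e.1 ∈ Y ∧ e.2 ∈ Y ∧ ω z e ∈ Y)).card : ℝ) ≤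
          ((E Y (z ∩ Y)).card : ℝ) := by
        have : ((P z).filter (fun e => e.1 ∈ Y ∧ e.2 ∈ Y ∧ ω z e ∈ Y)).card ≤
            (E Y (z ∩ Y)).card := by
          refine Finset.card_le_card fun e he => ?_
          rw [Finset.mem_filter] at he
          rw [hE]
          exact ⟨z, hz, rfl, he.1, he.2⟩
        exact_mod_cast this
      refine (mul_le_mul_of_nonneg_left h2 (hg0 z Y)).trans (le_of_eq ?_)
      rw [hg]
      simp only
      ring
    refine h1.trans ?_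
    rw [pattern_fibre 𝒮 Y (fun π => (1 / 2 ^ Y.card : ℝ) * ((E Y π).card : ℝ)), ← Finset.mul_sum]
    have h3 : (∑ π ∈ 𝒮.image (· ∩ Y), ((E Y π).card : ℝ)) ≤ 2 ^ Y.card * L := by
      exact_mod_cast hcount Y
    have hp0 : (0 : ℝ) < 2 ^ Y.card := by positivity
    calc (1 / 2 ^ Y.card : ℝ) * ∑ π ∈ 𝒮.image (· ∩ Y), ((E Y π).card : ℝ)
        ≤ (1 / 2 ^ Y.card : ℝ) * (2 ^ Y.card * L) := mul_le_mul_of_nonneg_left h3 (by positivity)
      _ = L := by field_simp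
  -- combination
  have hC : ∀ z ∈ 𝒮, (K : ℝ) * ((q / 2) ^ 3 * ∑ Y : Finset V, wt q Y * g z Y) ≤
      ∑ Y : Finset V, wt q Y * (g z Y *
        (((P z).filter (fun e => e.1 ∈ Y ∧ e.2 ∈ Y ∧ ω z e ∈ Y)).card : ℝ)) := by
    intro z hz
    have h0 : 0 ≤ (q / 2) ^ 3 * ∑ Y : Finset V, wt q Y * g z Y :=
      mul_nonneg (by positivity) (Finset.sum_nonneg fun Y _ => mul_nonneg (hwt0 Y) (hg0 z Y))
    have h1 : (K : ℝ) ≤ ((P z).card : ℝ) := by exact_mod_cast hK z hz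
    refine (mul_le_mul_of_nonneg_right h1 h0).trans ?_
    have h2 : ((P z).card : ℝ) * ((q / 2) ^ 3 * ∑ Y : Finset V, wt q Y * g z Y) =
        ∑ _e ∈ P z, (q / 2) ^ 3 * ∑ Y : Finset V, wt q Y * g z Y := by
      rw [Finset.sum_const, nsmul_eq_mul]
    rw [h2]
    refine (Finset.sum_le_sum fun e _ => pattern_three hq0 hq1 e.1 e.2 (ω z e) (hg0 z)
      (hghalf z hz)).trans (le_of_eq ?_)
    rw [Finset.sum_comm]
    refine Finset.sum_congr rfl fun Y _ => ?_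
    rw [← Finset.mul_sum, ← Finset.mul_sum, Finset.sum_boole]
  have hD : (K : ℝ) * ((q / 2) ^ 3 * expTrace q univ 𝒮) ≤ L := by
    rw [← hA, Finset.mul_sum, Finset.mul_sum]
    refine (Finset.sum_le_sum hC).trans ?_
    rw [Finset.sum_comm]
    calc ∑ Y : Finset V, ∑ z ∈ 𝒮, wt q Y * (g z Y *
          (((P z).filter (fun e => e.1 ∈ Y ∧ e.2 ∈ Y ∧ ω z e ∈ Y)).card : ℝ))
        ≤ ∑ Y : Finset V, wt q Y * L := by
          refine Finset.sum_le_sum fun Y _ => ?_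
          rw [← Finset.mul_sum]
          exact mul_le_mul_of_nonneg_left (hB Y) (hwt0 Y)
      _ = L := by rw [← Finset.sum_mul, sum_wt hq0 hq1, one_mul]
  have hF := expTrace_ge hq0 hq1 (univ : Finset V) 𝒮 (by rw [Finset.powerset_univ]; exact Finset.subset_univ _)
  rw [Finset.card_univ] at hF
  have hG : (K : ℝ) * ((q / 2) ^ 3 * ((𝒮.card : ℝ) / 2 ^ Fintype.card V) ^ q) ≤ L :=
    (mul_le_mul_of_nonneg_left (mul_le_mul_of_nonneg_left hF (by positivity))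
      (Nat.cast_nonneg K)).trans hD
  obtain ⟨D, hDdef⟩ : ∃ D : ℝ, D = ((𝒮.card : ℝ) / 2 ^ Fintype.card V) ^ q := ⟨_, rfl⟩
  rw [← hDdef] at hG ⊢
  have hring : (K : ℝ) * q ^ 3 * D = 8 * ((K : ℝ) * ((q / 2) ^ 3 * D)) := by ring
  rw [hring]
  exact mul_le_mul_of_nonneg_left hG (by norm_num)

end Pool.Agent.ConvF
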