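import Mathlib

/-!
# Projections of a set family onto random sets of coordinates

For a family `𝒮` of subsets of `A` and a random subset `Y` of `A` (each element independently with
probability `q`) the density `|{z ∩ Y | z ∈ 𝒮}| / 2^|Y|` of the trace of `𝒮` on `Y` has expectation
at least `(|𝒮| / 2^|A|)^q`.

Proof by induction on `A` (`Finset.induction_on`). `A = insert a A'`: split
`𝒮₀ = 𝒮.nonMemberSubfamily a`, `𝒮₁ = 𝒮.memberSubfamily a` (subfamilies of `A'.powerset` with
`|𝒮₀| + |𝒮₁| = |𝒮|`). For `Y ⊆ A'`: the trace of `𝒮` on `Y` contains the traces of `𝒮₀` and of `𝒮₁`, and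
the trace of `𝒮` on `insert a Y` is the disjoint union of the trace of `𝒮₀` on `Y` and of
`{insert a w | w in the trace of 𝒮₁ on Y}`. So with `Fᵢ` the expectation for `𝒮ᵢ`, `A'`:
`F ≥ (1-q) max F₀ F₁ + (q/2) (F₀ + F₁)` and by induction, with `α = |𝒮₀|/2^|A'|`, `β = |𝒮₁|/2^|A'|`,
it suffices that `(1-q) max (α^q) (β^q) + (q/2)(α^q + β^q) ≥ ((α+β)/2)^q`. Scalar inequality: by
symmetry `α ≥ β`, and `α > 0`; with `x = β/α ∈ [0,1]`: `((1+x)/2)^q ≤ 1 - q + q (1+x)/2`
(Bernoulli / concavity, `0 ≤ q ≤ 1`) `= 1 - q/2 + q x/2 ≤ 1 - q/2 + (q/2) x^q`.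
-/

namespace Pool.Agent.ConvF

open Finset

variable {V : Type*} [DecidableEq V]

/-- Expected density of the trace on a random subset of `A` (probability `q`). -/
noncomputable def expTrace (q : ℝ) (A : Finset V) (𝒮 : Finset (Finset V)) : ℝ :=
  ∑ Y ∈ A.powerset, q ^ Y.card * (1 - q) ^ (A.card - Y.card) *
    ((𝒮.image (· ∩ Y)).card / 2 ^ Y.card)

theorem scalar_aux {q α β : ℝ} (hq0 : 0 < q) (hq1 : q ≤ 1) (hβ : 0 ≤ β) (h : β ≤ α) :
    ((α + β) / 2) ^ q ≤ (1 - q) * max (α ^ q) (β ^ q) + q / 2 * (α ^ q + β ^ q) := by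
  have hα : 0 ≤ α := hβ.trans h
  have hmax : max (α ^ q) (β ^ q) = α ^ q := max_eq_left (Real.rpow_le_rpow hβ h hq0.le)
  rw [hmax]
  rcases hα.eq_or_lt with h0 | h0
  · have hβ0 : β = 0 := le_antisymm (by rw [h0]; exact h) hβ
    rw [hβ0, ← h0, add_zero, zero_div, Real.zero_rpow hq0.ne']
    simp
  · set x := β / α with hx
    have hx0 : 0 ≤ x := div_nonneg hβ h0.le
    have hx1 : x ≤ 1 := (div_le_one h0).mpr h
    have hβx : β = α * x := by rw [hx]; field_simp
    have h1 : (α + β) / 2 = α * (1 + (x - 1) / 2) := by rw [hβx]; ring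
    have h2 : (1 + (x - 1) / 2) ^ q ≤ 1 + q * ((x - 1) / 2) :=
      _root_.rpow_one_add_le_one_add_mul_self (by linarith) hq0.le hq1
    have h3 : x ≤ x ^ q := by
      rcases hx0.eq_or_lt with h4 | h4
      · rw [← h4, Real.zero_rpow hq0.ne']
      · calc x = x ^ (1 : ℝ) := (Real.rpow_one x).symm
          _ ≤ x ^ q := Real.rpow_le_rpow_of_exponent_ge h4 hx1 hq1
    have h5 : β ^ q = α ^ q * x ^ q := by rw [hβx, Real.mul_rpow h0.le hx0]
    rw [h1, Real.mul_rpow h0.le (by linarith), h5]
    have h6 : 0 < α ^ q := Real.rpow_pos_of_pos h0 q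
    have h7 : (1 + (x - 1) / 2) ^ q ≤ (1 - q) + q / 2 * (1 + x ^ q) := by
      refine h2.trans ?_
      nlinarith
    calc α ^ q * (1 + (x - 1) / 2) ^ q ≤ α ^ q * ((1 - q) + q / 2 * (1 + x ^ q)) := by
          gcongr
      _ = _ := by ring

theorem scalar_ineq {q α β : ℝ} (hq0 : 0 < q) (hq1 : q ≤ 1) (hα : 0 ≤ α) (hβ : 0 ≤ β) :
    ((α + β) / 2) ^ q ≤ (1 - q) * max (α ^ q) (β ^ q) + q / 2 * (α ^ q + β ^ q) := by
  rcases le_total β α with h | h
  · exact scalar_aux hq0 hq1 hβ h
  · have := scalar_aux hq0 hq1 hα h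
    rw [add_comm β α, max_comm, add_comm (β ^ q)] at this
    exact this

theorem expTrace_ge {q : ℝ} (hq0 : 0 < q) (hq1 : q ≤ 1) (A : Finset V) :
    ∀ 𝒮 : Finset (Finset V), 𝒮 ⊆ A.powerset →
      ((𝒮.card : ℝ) / 2 ^ A.card) ^ q ≤ expTrace q A 𝒮 := by
  induction A using Finset.induction_on with
  | empty =>
    intro 𝒮 h𝒮
    have hc : 𝒮.card ≤ 1 := by
      have := Finset.card_le_card h𝒮
      simpa using this
    have hE : expTrace q ∅ 𝒮 = ((𝒮.image (· ∩ ∅)).card : ℝ) := by
      simp [expTrace]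
    rw [hE]
    rcases 𝒮.eq_empty_or_nonempty with h | h
    · rw [h]
      simp [Real.zero_rpow hq0.ne']
    · have h1 : 𝒮.card = 1 := le_antisymm hc h.card_pos
      have h2 : 1 ≤ (𝒮.image (· ∩ ∅)).card := (h.image _).card_pos
      rw [h1]
      have h3 : (1 : ℝ) ≤ ((𝒮.image (· ∩ ∅)).card : ℝ) := by exact_mod_cast h2
      simpa using h3
  | insert a A' ha ih =>
    intro 𝒮 h𝒮
    set S0 := 𝒮.nonMemberSubfamily a with hS0
    set S1 := 𝒮.memberSubfamily a with hS1
    have hsub0 : S0 ⊆ A'.powerset := by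
      intro z hz
      rw [hS0, mem_nonMemberSubfamily] at hz
      have h1 := h𝒮 hz.1
      rw [mem_powerset] at h1 ⊢
      intro y hy
      rcases mem_insert.mp (h1 hy) with h2 | h2
      · exact absurd (h2 ▸ hy) hz.2
      · exact h2
    have hsub1 : S1 ⊆ A'.powerset := by
      intro z hz
      rw [hS1, mem_memberSubfamily] at hz
      have h1 := h𝒮 hz.1
      rw [mem_powerset] at h1 ⊢
      intro y hy
      rcases mem_insert.mp (h1 (mem_insert_of_mem hy)) with h2 | h2
      · exact absurd (h2 ▸ hy) hz.2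
      · exact h2
    have hcard : S1.card + S0.card = 𝒮.card :=
      card_memberSubfamily_add_card_nonMemberSubfamily a 𝒮
    have hA : (insert a A').card = A'.card + 1 := card_insert_of_notMem ha
    -- traces
    have htr : ∀ Y ∈ A'.powerset,
        ((S0.image (· ∩ Y)).card ≤ (𝒮.image (· ∩ Y)).card ∧
          (S1.image (· ∩ Y)).card ≤ (𝒮.image (· ∩ Y)).card) ∧
        (S0.image (· ∩ Y)).card + (S1.image (· ∩ Y)).card ≤
          (𝒮.image (· ∩ insert a Y)).card := by
      intro Y hY
      rw [mem_powerset] at hY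
      have haY : a ∉ Y := fun h => ha (hY h)
      refine ⟨⟨card_le_card ?_, card_le_card ?_⟩, ?_⟩
      · exact image_subset_image (fun z hz => (mem_nonMemberSubfamily.mp hz).1)
      · intro w hw
        obtain ⟨z, hz, rfl⟩ := mem_image.mp hw
        rw [hS1, mem_memberSubfamily] at hz
        refine mem_image.mpr ⟨insert a z, hz.1, ?_⟩
        exact insert_inter_of_notMem haY
      · have hinj : ((S1.image (· ∩ Y)).image (insert a)).card = (S1.image (· ∩ Y)).card := by
          refine card_image_of_injOn ?_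
          intro w hw w' hw' he
          have h1 : a ∉ w := by
            obtain ⟨z, -, rfl⟩ := mem_image.mp (mem_coe.mp hw)
            exact fun h => haY (mem_of_mem_inter_right h)
          have h2 : a ∉ w' := by
            obtain ⟨z, -, rfl⟩ := mem_image.mp (mem_coe.mp hw')
            exact fun h => haY (mem_of_mem_inter_right h)
          have h3 := congrArg (fun s => s.erase a) he
          simpa [erase_insert h1, erase_insert h2] using h3
        rw [← hinj, ← card_union_of_disjoint]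
        · refine card_le_card (union_subset ?_ ?_)
          · intro w hw
            obtain ⟨z, hz, rfl⟩ := mem_image.mp hw
            rw [hS0, mem_nonMemberSubfamily] at hz
            exact mem_image.mpr ⟨z, hz.1, inter_insert_of_notMem hz.2⟩
          · intro w hw
            obtain ⟨w', hw', rfl⟩ := mem_image.mp hw
            obtain ⟨z, hz, rfl⟩ := mem_image.mp hw'
            rw [hS1, mem_memberSubfamily] at hz
            refine mem_image.mpr ⟨insert a z, hz.1, ?_⟩
            rw [← insert_inter_distrib]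
        · rw [disjoint_left]
          intro w hw hw'
          obtain ⟨z, hz, rfl⟩ := mem_image.mp hw
          obtain ⟨w', -, he⟩ := mem_image.mp hw'
          have h1 : a ∈ z ∩ Y := by rw [← he]; exact mem_insert_self a w'
          exact haY (mem_of_mem_inter_right h1)
    have hmain : ∀ i : Finset (Finset V), (i = S0 ∨ i = S1) →
        (1 - q) * expTrace q A' i + q / 2 * (expTrace q A' S0 + expTrace q A' S1) ≤
          expTrace q (insert a A') 𝒮 := by
      intro i hi
      rw [expTrace, expTrace, expTrace, expTrace, sum_powerset_insert ha, ← sum_add_distrib,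
        ← sum_add_distrib, mul_sum, mul_sum, ← sum_add_distrib]
      refine sum_le_sum fun Y hY => ?_
      obtain ⟨⟨t0, t1⟩, t2⟩ := htr Y hY
      rw [mem_powerset] at hY
      have haY : a ∉ Y := fun h => ha (hY h)
      have hYc : Y.card ≤ A'.card := card_le_card hY
      have hc1 : (insert a A').card - Y.card = (A'.card - Y.card) + 1 := by omega
      have hc2 : (insert a A').card - (insert a Y).card = A'.card - Y.card := by
        rw [hA, card_insert_of_notMem haY]; omega
      rw [hc1, hc2, card_insert_of_notMem haY, pow_succ, pow_succ, pow_succ]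
      have hi' : ((i.image (· ∩ Y)).card : ℝ) ≤ ((𝒮.image (· ∩ Y)).card : ℝ) := by
        rcases hi with rfl | rfl
        · exact_mod_cast t0
        · exact_mod_cast t1
      have t2' : ((S0.image (· ∩ Y)).card : ℝ) + ((S1.image (· ∩ Y)).card : ℝ) ≤
          ((𝒮.image (· ∩ insert a Y)).card : ℝ) := by exact_mod_cast t2
      have hq1' : 0 ≤ 1 - q := by linarith
      set w : ℝ := q ^ Y.card * (1 - q) ^ (A'.card - Y.card) / 2 ^ Y.card with hw
      have hw0 : 0 ≤ w := by positivity
      have e1 : (1 - q) * (q ^ Y.card * (1 - q) ^ (A'.card - Y.card) *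
          (((i.image (· ∩ Y)).card : ℝ) / 2 ^ Y.card)) +
          q / 2 * (q ^ Y.card * (1 - q) ^ (A'.card - Y.card) *
            (((S0.image (· ∩ Y)).card : ℝ) / 2 ^ Y.card) +
            q ^ Y.card * (1 - q) ^ (A'.card - Y.card) *
            (((S1.image (· ∩ Y)).card : ℝ) / 2 ^ Y.card)) =
          w * ((1 - q) * ((i.image (· ∩ Y)).card : ℝ) + q / 2 *
            (((S0.image (· ∩ Y)).card : ℝ) + ((S1.image (· ∩ Y)).card : ℝ))) := by
        rw [hw]; ring
      have e2 : q ^ Y.card * ((1 - q) ^ (A'.card - Y.card) * (1 - q)) *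
          (((𝒮.image (· ∩ Y)).card : ℝ) / 2 ^ Y.card) +
          q ^ Y.card * q * (1 - q) ^ (A'.card - Y.card) *
            (((𝒮.image (· ∩ insert a Y)).card : ℝ) / (2 ^ Y.card * 2)) =
          w * ((1 - q) * ((𝒮.image (· ∩ Y)).card : ℝ) + q / 2 *
            ((𝒮.image (· ∩ insert a Y)).card : ℝ)) := by
        rw [hw]; field_simp
      rw [e1, e2]
      gcongr
    have hα : (0 : ℝ) ≤ (S0.card : ℝ) / 2 ^ A'.card := by positivity
    have hβ : (0 : ℝ) ≤ (S1.card : ℝ) / 2 ^ A'.card := by positivity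
    have hsc := scalar_ineq hq0 hq1 hα hβ
    have i0 := ih S0 hsub0
    have i1 := ih S1 hsub1
    have hLHS : ((𝒮.card : ℝ) / 2 ^ (insert a A').card) =
        ((S0.card : ℝ) / 2 ^ A'.card + (S1.card : ℝ) / 2 ^ A'.card) / 2 := by
      rw [hA, ← hcard, pow_succ]
      push_cast
      field_simp
      ring
    rw [hLHS]
    refine hsc.trans ?_
    have hq1' : 0 ≤ 1 - q := by linarith
    have m0 := hmain S0 (Or.inl rfl)
    have m1 := hmain S1 (Or.inr rfl)
    rcases max_cases (((S0.card : ℝ) / 2 ^ A'.card) ^ q) (((S1.card : ℝ) / 2 ^ A'.card) ^ q)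
      with ⟨hm, -⟩ | ⟨hm, -⟩
    · rw [hm]
      refine le_trans ?_ m0
      gcongr
    · rw [hm]
      refine le_trans ?_ m1
      gcongr

end Pool.Agent.ConvF
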