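import Pool.Agent.ConvF.Cuts

/-!
# The upper bound

For every `k ≥ 1` the distance matrices have a formulation with at most `10^5 (n³/k^(3/2) + 1)`
constraints, every constraint set in a space of dimension at most `k`.

`k < 9`: `X` = all `n × n` matrices (as `Fin n → Fin n → ℝ`), `P = id`, no equations except
`D u u = 0` (`κ = Fin n`), constraints `0 ≤ D u v + D v w - D u w` for all `u, v, w` and `0 ≤ D u v` for
all `u, v` (`ι = (Fin n × Fin n × Fin n) ⊕ (Fin n × Fin n)`, `E b = ℝ`, `C b = Set.Ici 0`).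
There are `n³ + n² ≤ 2 n³ ≤ 54 n³ / k^(3/2)` constraints. (`mem_distMatrices_iff`.)

`k ≥ 9`: let `g = ⌊√k⌋/3` (natural division, `Nat.sqrt k / 3`), `g ≥ 1`, `(3g)² ≤ k`, `√k ≤ 12 g` or
so. `N = n/g + 1`. For `(i,j,l) ∈ (Fin N)³` let `φ : Fin 3 × Fin g → Fin n` be
`(r, x) ↦ min (i_r g + x) (n-1)` (`n ≥ 1`; `i_0, i_1, i_2 = i, j, l`), and `E b` = the functions
`(Fin 3 × Fin g) → (Fin 3 × Fin g) → ℝ`, of dimension `(3g)² ≤ k`, `C b` the set of the `D'` with zero
diagonal, nonnegative entries and all triangle inequalities (a convex set), `A b D = D ∘ φ`. Every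
`u ∈ Fin n` is `i g + x` for some `i < N`, `x < g`. So `D` satisfies all constraints iff it is a
distance matrix. `N³ ≤ (n/g+1)³`; `n/g ≥ 1`: at most `8 n³/g³`, else at most `8`.
The constant may be chosen as needed (it appears as `10^5`; tell helper16 if another is more
convenient).
-/

namespace Pool.Agent.ConvF

open Finset

private theorem upper_rpow (k : ℕ) : (k : ℝ) ^ (3 / 2 : ℝ) = Real.sqrt k ^ 3 := by
  rw [Real.sqrt_eq_rpow, ← Real.rpow_natCast, ← Real.rpow_mul (Nat.cast_nonneg k)]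
  norm_num

/-- the formulation with one-dimensional constraints -/
private theorem upper_one (n : ℕ) : ∃ F : Formulation n, F.matrices = distMatrices n ∧
    (∀ b, FiniteDimensional ℝ (F.E b) ∧ Module.finrank ℝ (F.E b) ≤ 1) ∧
    Fintype.card F.ι = n * (n * n) + n * n := by
  let F : Formulation n :=
    { X := Fin n → Fin n → ℝ
      κ := Fin n
      eqn := fun u =>
        { toFun := fun D => D u u
          map_add' := fun _ _ => rfl
          map_smul' := fun _ _ => rfl }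
      rhs := fun _ => 0
      ι := (Fin n × Fin n × Fin n) ⊕ (Fin n × Fin n)
      E := fun _ => ℝ
      instE₁ := fun _ => inferInstance
      instE₂ := fun _ => inferInstance
      C := fun _ => Set.Ici 0
      convex := fun _ => convex_Ici 0
      A := fun b => LinearMap.toAffineMap (match b with
        | Sum.inl t =>
          { toFun := fun D : Fin n → Fin n → ℝ => D t.1 t.2.1 + D t.2.1 t.2.2 - D t.1 t.2.2
            map_add' := fun D D' => by simp only [Pi.add_apply]; ring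
            map_smul' := fun c D => by simp only [Pi.smul_apply, smul_eq_mul, RingHom.id_apply]; ring }
        | Sum.inr t =>
          { toFun := fun D : Fin n → Fin n → ℝ => D t.1 t.2
            map_add' := fun _ _ => rfl
            map_smul' := fun _ _ => rfl })
      P := AffineMap.id ℝ _ }
  refine ⟨F, ?_, ?_, ?_⟩
  · ext D
    rw [mem_distMatrices_iff]
    constructor
    · rintro ⟨x, ⟨h1, h2⟩, rfl⟩
      refine ⟨fun u => h1 u, fun u v => h2 (Sum.inr (u, v)), fun u v w => ?_⟩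
      have h3 : (0 : ℝ) ≤ x u v + x v w - x u w := h2 (Sum.inl (u, v, w))
      change x u w ≤ x u v + x v w
      linarith
    · rintro ⟨h0, h1, h2⟩
      refine ⟨D, ⟨fun u => h0 u, ?_⟩, rfl⟩
      rintro (⟨u, v, w⟩ | ⟨u, v⟩)
      · have h3 := h2 u v w
        change (0 : ℝ) ≤ D u v + D v w - D u w
        linarith
      · exact h1 u v
  · intro b
    change FiniteDimensional ℝ ℝ ∧ Module.finrank ℝ ℝ ≤ 1
    exact ⟨inferInstance, (Module.finrank_self ℝ).le⟩
  · change Fintype.card ((Fin n × Fin n × Fin n) ⊕ (Fin n × Fin n)) = _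
    simp

/-- the points of a triple of blocks -/
private def upperPt (n g N : ℕ) (hn : 0 < n) (b : Fin N × Fin N × Fin N) (p : Fin 3 × Fin g) : Fin n :=
  ⟨min ((if p.1 = 0 then b.1.1 else if p.1 = 1 then b.2.1.1 else b.2.2.1) * g + p.2.1) (n - 1),
    lt_of_le_of_lt (min_le_right _ _) (Nat.sub_lt hn Nat.one_pos)⟩

private theorem upperPt_eq {n g N : ℕ} (hn : 0 < n) (b : Fin N × Fin N × Fin N) (p : Fin 3 × Fin g)
    (u : Fin n) (h1 : (if p.1 = 0 then b.1.1 else if p.1 = 1 then b.2.1.1 else b.2.2.1) = u.1 / g)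
    (h2 : p.2.1 = u.1 % g) : upperPt n g N hn b p = u := by
  apply Fin.ext
  unfold upperPt
  simp only
  rw [h1, h2, Nat.div_add_mod']
  have := u.2
  omega

/-- the formulation with blocks of size `g` -/
private theorem upper_blocks (n g : ℕ) (hn : 0 < n) (hg : 0 < g) : ∃ F : Formulation n,
    F.matrices = distMatrices n ∧
    (∀ b, FiniteDimensional ℝ (F.E b) ∧ Module.finrank ℝ (F.E b) ≤ (3 * g) * (3 * g)) ∧
    Fintype.card F.ι = (n / g + 1) * ((n / g + 1) * (n / g + 1)) := by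
  let S : Type := (Fin 3 × Fin g) × (Fin 3 × Fin g)
  let F : Formulation n :=
    { X := Fin n → Fin n → ℝ
      κ := Empty
      eqn := fun e => e.elim
      rhs := fun e => e.elim
      ι := Fin (n / g + 1) × Fin (n / g + 1) × Fin (n / g + 1)
      E := fun _ => S → ℝ
      instE₁ := fun _ => inferInstance
      instE₂ := fun _ => inferInstance
      C := fun _ => {D | (∀ p, D (p, p) = 0) ∧ (∀ p q, 0 ≤ D (p, q)) ∧
        ∀ p q r, D (p, r) ≤ D (p, q) + D (q, r)}
      convex := by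
        intro _ D hD D' hD' a b ha hb _
        refine ⟨fun p => ?_, fun p q => ?_, fun p q r => ?_⟩
        · simp only [Pi.add_apply, Pi.smul_apply, smul_eq_mul]
          rw [hD.1 p, hD'.1 p]
          ring
        · simp only [Pi.add_apply, Pi.smul_apply, smul_eq_mul]
          exact add_nonneg (mul_nonneg ha (hD.2.1 p q)) (mul_nonneg hb (hD'.2.1 p q))
        · simp only [Pi.add_apply, Pi.smul_apply, smul_eq_mul]
          have h1 := mul_le_mul_of_nonneg_left (hD.2.2 p q r) ha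
          have h2 := mul_le_mul_of_nonneg_left (hD'.2.2 p q r) hb
          linarith
      A := fun b => LinearMap.toAffineMap
        { toFun := fun D pq => D (upperPt n g _ hn b pq.1) (upperPt n g _ hn b pq.2)
          map_add' := fun _ _ => rfl
          map_smul' := fun _ _ => rfl }
      P := AffineMap.id ℝ _ }
  refine ⟨F, ?_, ?_, ?_⟩
  · ext D
    rw [mem_distMatrices_iff]
    constructor
    · rintro ⟨x, ⟨-, h2⟩, rfl⟩
      have hlt : ∀ u : Fin n, u.1 / g < n / g + 1 := fun u =>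
        Nat.lt_succ_of_le (Nat.div_le_div_right u.2.le)
      refine ⟨fun u => ?_, fun u v => ?_, fun u v w => ?_⟩
      · have h3 := (h2 (⟨u.1 / g, hlt u⟩, ⟨u.1 / g, hlt u⟩, ⟨u.1 / g, hlt u⟩)).1
          (0, ⟨u.1 % g, Nat.mod_lt _ hg⟩)
        change x (upperPt n g _ hn _ _) (upperPt n g _ hn _ _) = 0 at h3
        rw [upperPt_eq hn _ _ u (by simp) rfl] at h3
        exact h3
      · have h3 := (h2 (⟨u.1 / g, hlt u⟩, ⟨v.1 / g, hlt v⟩, ⟨v.1 / g, hlt v⟩)).2.1
          (0, ⟨u.1 % g, Nat.mod_lt _ hg⟩) (1, ⟨v.1 % g, Nat.mod_lt _ hg⟩)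
        change 0 ≤ x (upperPt n g _ hn _ _) (upperPt n g _ hn _ _) at h3
        rw [upperPt_eq hn _ _ u (by simp) rfl, upperPt_eq hn _ _ v (by simp) rfl] at h3
        exact h3
      · have h3 := (h2 (⟨u.1 / g, hlt u⟩, ⟨v.1 / g, hlt v⟩, ⟨w.1 / g, hlt w⟩)).2.2
          (0, ⟨u.1 % g, Nat.mod_lt _ hg⟩) (1, ⟨v.1 % g, Nat.mod_lt _ hg⟩)
          (2, ⟨w.1 % g, Nat.mod_lt _ hg⟩)
        change x (upperPt n g _ hn _ _) (upperPt n g _ hn _ _) ≤
          x (upperPt n g _ hn _ _) (upperPt n g _ hn _ _) +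
          x (upperPt n g _ hn _ _) (upperPt n g _ hn _ _) at h3
        rw [upperPt_eq hn _ _ u (by simp) rfl, upperPt_eq hn _ _ w (by simp) rfl,
          upperPt_eq hn _ _ v (by simp) rfl] at h3
        exact h3
    · rintro ⟨h0, h1, h2⟩
      refine ⟨D, ⟨fun e => e.elim, fun b => ⟨fun p => h0 _, fun p q => h1 _ _,
        fun p q r => h2 _ _ _⟩⟩, rfl⟩
  · intro b
    change FiniteDimensional ℝ (S → ℝ) ∧ Module.finrank ℝ (S → ℝ) ≤ _
    refine ⟨inferInstance, ?_⟩
    rw [Module.finrank_fintype_fun_eq_card]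
    simp [S]
  · change Fintype.card (Fin (n / g + 1) × Fin (n / g + 1) × Fin (n / g + 1)) = _
    simp

theorem upper (n k : ℕ) (hk : 1 ≤ k) : ∃ F : Formulation n, F.matrices = distMatrices n ∧
    (∀ b, FiniteDimensional ℝ (F.E b) ∧ Module.finrank ℝ (F.E b) ≤ k) ∧
    (Fintype.card F.ι : ℝ) ≤ 10 ^ 5 * ((n : ℝ) ^ 3 / (k : ℝ) ^ (3 / 2 : ℝ) + 1) := by
  have hk' : (1 : ℝ) ≤ k := by exact_mod_cast hk
  have hs : 0 < Real.sqrt k := Real.sqrt_pos.mpr (lt_of_lt_of_le one_pos hk')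
  have hs3 : 0 < Real.sqrt k ^ 3 := pow_pos hs 3
  have hn0 : (0 : ℝ) ≤ n := Nat.cast_nonneg n
  rw [upper_rpow]
  by_cases hcase : n = 0 ∨ k < 9
  · obtain ⟨F, h1, h2, h3⟩ := upper_one n
    refine ⟨F, h1, fun b => ⟨(h2 b).1, (h2 b).2.trans hk⟩, ?_⟩
    rw [h3]
    push_cast
    rcases hcase with h | h
    · subst h
      have : (0 : ℝ) ≤ ((0 : ℕ) : ℝ) ^ 3 / Real.sqrt k ^ 3 := by positivity
      push_cast
      norm_num
    · have h4 : Real.sqrt k ≤ 3 := by
        rw [Real.sqrt_le_left (by norm_num)]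
        have : (k : ℝ) ≤ 8 := by exact_mod_cast Nat.lt_succ_iff.mp h
        linarith
      have h5 : Real.sqrt k ^ 3 ≤ 27 := by
        calc Real.sqrt k ^ 3 ≤ 3 ^ 3 := pow_le_pow_left₀ hs.le h4 3
          _ = 27 := by norm_num
      have h6 : (n : ℝ) ^ 3 / 27 ≤ (n : ℝ) ^ 3 / Real.sqrt k ^ 3 :=
        div_le_div_of_nonneg_left (by positivity) hs3 h5
      have h7 : (n : ℝ) * n ≤ n * (n * n) := by
        rcases Nat.eq_zero_or_pos n with h0 | h0
        · subst h0
          simp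
        · have h8 : (1 : ℝ) ≤ n := by exact_mod_cast h0
          nlinarith [mul_nonneg hn0 hn0]
      have h8 : (n : ℝ) ^ 3 = n * (n * n) := by ring
      have h9 : (0 : ℝ) ≤ n * (n * n) := by positivity
      rw [h8] at h6 ⊢
      nlinarith
  · push Not at hcase
    obtain ⟨hn, hk9⟩ := hcase
    obtain ⟨g, hgdef⟩ : ∃ g, g = Nat.sqrt k / 3 := ⟨_, rfl⟩
    have h3s : 3 ≤ Nat.sqrt k := Nat.le_sqrt.mpr (by omega)
    have hg : 0 < g := by omega
    obtain ⟨F, h1, h2, h3⟩ := upper_blocks n g (Nat.pos_of_ne_zero hn) hg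
    have hgk : (3 * g) * (3 * g) ≤ k := by
      have h4 : 3 * g ≤ Nat.sqrt k := by omega
      exact (Nat.mul_le_mul h4 h4).trans (Nat.sqrt_le k)
    refine ⟨F, h1, fun b => ⟨(h2 b).1, (h2 b).2.trans hgk⟩, ?_⟩
    rw [h3]
    have hgR : (1 : ℝ) ≤ g := by exact_mod_cast hg
    have hg0 : (0 : ℝ) < g := lt_of_lt_of_le one_pos hgR
    have h4 : Real.sqrt k ≤ 6 * g := by
      rw [Real.sqrt_le_left (by positivity)]
      have h5 : k < (Nat.sqrt k + 1) * (Nat.sqrt k + 1) := Nat.lt_succ_sqrt k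
      have h6 : Nat.sqrt k + 1 ≤ 6 * g := by omega
      have h7 : k ≤ (6 * g) * (6 * g) := h5.le.trans (Nat.mul_le_mul h6 h6)
      have h8 : (k : ℝ) ≤ (6 * g) * (6 * g) := by exact_mod_cast h7
      calc (k : ℝ) ≤ (6 * g) * (6 * g) := h8
        _ = (6 * (g : ℝ)) ^ 2 := by ring
    have h5 : Real.sqrt k ^ 3 ≤ 216 * (g : ℝ) ^ 3 := by
      calc Real.sqrt k ^ 3 ≤ (6 * (g : ℝ)) ^ 3 := pow_le_pow_left₀ hs.le h4 3
        _ = 216 * (g : ℝ) ^ 3 := by ring
    have h6 : (n : ℝ) ^ 3 / (g : ℝ) ^ 3 ≤ 216 * ((n : ℝ) ^ 3 / Real.sqrt k ^ 3) := by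
      have h7 : (n : ℝ) ^ 3 / (216 * (g : ℝ) ^ 3) ≤ (n : ℝ) ^ 3 / Real.sqrt k ^ 3 :=
        div_le_div_of_nonneg_left (by positivity) hs3 h5
      have h8 : (n : ℝ) ^ 3 / (g : ℝ) ^ 3 = 216 * ((n : ℝ) ^ 3 / (216 * (g : ℝ) ^ 3)) := by
        field_simp
      rw [h8]
      linarith
    obtain ⟨a, ha⟩ : ∃ a : ℝ, a = (n : ℝ) / g := ⟨_, rfl⟩
    have ha0 : 0 ≤ a := by rw [ha]; positivity
    have ha3 : a ^ 3 = (n : ℝ) ^ 3 / (g : ℝ) ^ 3 := by rw [ha, div_pow]
    have hle : ((n / g : ℕ) : ℝ) ≤ a := by rw [ha]; exact Nat.cast_div_le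
    have hc0 : (0 : ℝ) ≤ ((n / g : ℕ) : ℝ) := Nat.cast_nonneg _
    have h7 : (((n / g : ℕ) : ℝ) + 1) ^ 3 ≤ (a + 1) ^ 3 :=
      pow_le_pow_left₀ (by linarith) (by linarith) 3
    have h8 : (a + 1) ^ 3 ≤ 4 * a ^ 3 + 4 := by
      nlinarith [mul_nonneg (sq_nonneg (a - 1)) (by linarith : (0 : ℝ) ≤ a + 1)]
    have h9 : (0 : ℝ) ≤ (n : ℝ) ^ 3 / Real.sqrt k ^ 3 := by positivity
    push_cast
    have h10 : (((n / g : ℕ) : ℝ) + 1) * ((((n / g : ℕ) : ℝ) + 1) * (((n / g : ℕ) : ℝ) + 1)) =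
        (((n / g : ℕ) : ℝ) + 1) ^ 3 := by ring
    rw [h10]
    rw [ha3] at h8
    linarith

end Pool.Agent.ConvF
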