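import Pool.Agent.ConvF.Cuts
import Pool.Agent.ConvF.PDefs

/-!
# The upper bound for programs (after `Upper` of helper20)

The program with unknown `D` (an `n × n` matrix), all conditions `D u u = 0`, `0 ≤ D u v ≤ W u v` and
the triangle inequalities, grouped in blocks: for `k ≥ 18` with `g = √(k/2)/3` a block consists of three
groups of `g` vertices and is one convex constraint of dimension `2 (3g)² ≤ k`.
-/

namespace Pool.Agent.ConvF

open Finset

private theorem upperP_rpow (k : ℕ) : (k : ℝ) ^ (3 / 2 : ℝ) = Real.sqrt k ^ 3 := by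
  rw [Real.sqrt_eq_rpow, ← Real.rpow_natCast, ← Real.rpow_mul (Nat.cast_nonneg k)]
  norm_num

/-- A matrix below `W` with the triangle inequality is below the distances. -/
theorem le_dist_of_triangle {n : ℕ} {D W : Fin n → Fin n → ℝ} (hle : ∀ u v, D u v ≤ W u v)
    (htri : ∀ u v w, D u w ≤ D u v + D v w) {u v : Fin n} (huv : u ≠ v) : D u v ≤ dist W u v := by
  have key : ∀ (l : List (Fin n)) (u v : Fin n), D u v ≤ walkWeight W u l v := by
    intro l
    induction l with
    | nil => intro u v; exact hle u v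
    | cons x l ih =>
      intro u v
      exact (htri u x v).trans (add_le_add (hle u x) (ih x v))
  unfold dist
  rw [if_neg huv]
  exact le_ciInf fun l => key l u v

theorem dist_le_weight {n : ℕ} {W : Fin n → Fin n → ℝ} (hW : ∀ u v, 0 ≤ W u v) (u v : Fin n) :
    dist W u v ≤ W u v := by
  by_cases h : u = v
  · rw [h, dist_self]; exact hW v v
  · unfold dist
    rw [if_neg h]
    exact ciInf_le (bddBelow_walk hW u v) []

/-- the program with one-dimensional constraints -/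
private theorem upperP_one (n : ℕ) : ∃ Q : Program n,
    (∀ W : Fin n → Fin n → ℝ, (∀ u v, 0 ≤ W u v) → Correct (fun _ : Unit => Q) W) ∧
    (∀ b, FiniteDimensional ℝ (Q.E b) ∧ Module.finrank ℝ (Q.E b) ≤ 1) ∧
    Fintype.card Q.ι = n * (n * n) + n * n := by
  let Q : Program n :=
    { X := Fin n → Fin n → ℝ
      κ := Empty
      eqn := fun e => e.elim
      ι := (Fin n × Fin n × Fin n) ⊕ (Fin n × Fin n)
      E := fun _ => ℝ
      instE₁ := fun _ => inferInstance
      instE₂ := fun _ => inferInstance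
      C := fun _ => Set.Ici 0
      convex := fun _ => convex_Ici 0
      A := fun b => LinearMap.toAffineMap (match b with
        | Sum.inl t =>
          { toFun := fun z : (Fin n → Fin n → ℝ) × (Fin n → Fin n → ℝ) =>
              z.2 t.1 t.2.1 + z.2 t.2.1 t.2.2 - z.2 t.1 t.2.2
            map_add' := fun D D' => by simp only [Prod.snd_add, Pi.add_apply]; ring
            map_smul' := fun c D => by
              simp only [Prod.smul_snd, Pi.smul_apply, smul_eq_mul, RingHom.id_apply]; ring }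
        | Sum.inr t =>
          { toFun := fun z : (Fin n → Fin n → ℝ) × (Fin n → Fin n → ℝ) =>
              z.1 t.1 t.2 - z.2 t.1 t.2
            map_add' := fun D D' => by
              simp only [Prod.snd_add, Prod.fst_add, Pi.add_apply]; ring
            map_smul' := fun c D => by
              simp only [Prod.smul_snd, Prod.smul_fst, Pi.smul_apply, smul_eq_mul,
                RingHom.id_apply]; ring })
      out := (LinearMap.snd ℝ (Fin n → Fin n → ℝ) (Fin n → Fin n → ℝ)).toAffineMap }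
  refine ⟨Q, ?_, ?_, ?_⟩
  · intro W hW
    refine ⟨?_, (), ?_⟩
    · intro _ x hx u v huv
      have h2 := hx.2
      change x u v ≤ dist W u v
      apply le_dist_of_triangle _ _ huv
      · intro u v
        have h3 : (0 : ℝ) ≤ W u v - x u v := h2 (Sum.inr (u, v))
        linarith
      · intro u v w
        have h3 : (0 : ℝ) ≤ x u v + x v w - x u w := h2 (Sum.inl (u, v, w))
        linarith
    · refine ⟨dist W, ⟨fun e => e.elim, ?_⟩, fun u v _ => le_refl _⟩
      rintro (⟨u, v, w⟩ | ⟨u, v⟩)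
      · have h3 := dist_triangle hW u v w
        change (0 : ℝ) ≤ dist W u v + dist W v w - dist W u w
        linarith
      · have h3 := dist_le_weight hW u v
        change (0 : ℝ) ≤ W u v - dist W u v
        linarith
  · intro b
    change FiniteDimensional ℝ ℝ ∧ Module.finrank ℝ ℝ ≤ 1
    exact ⟨inferInstance, (Module.finrank_self ℝ).le⟩
  · change Fintype.card ((Fin n × Fin n × Fin n) ⊕ (Fin n × Fin n)) = _
    simp

/-- the points of a triple of blocks -/
private def upperPPt (n g N : ℕ) (hn : 0 < n) (b : Fin N × Fin N × Fin N) (p : Fin 3 × Fin g) :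
    Fin n :=
  ⟨min ((if p.1 = 0 then b.1.1 else if p.1 = 1 then b.2.1.1 else b.2.2.1) * g + p.2.1) (n - 1),
    lt_of_le_of_lt (min_le_right _ _) (Nat.sub_lt hn Nat.one_pos)⟩

private theorem upperPPt_eq {n g N : ℕ} (hn : 0 < n) (b : Fin N × Fin N × Fin N)
    (p : Fin 3 × Fin g) (u : Fin n)
    (h1 : (if p.1 = 0 then b.1.1 else if p.1 = 1 then b.2.1.1 else b.2.2.1) = u.1 / g)
    (h2 : p.2.1 = u.1 % g) : upperPPt n g N hn b p = u := by
  apply Fin.ext
  unfold upperPPt
  simp only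
  rw [h1, h2, Nat.div_add_mod']
  have := u.2
  omega

/-- the program with blocks of size `g` -/
private theorem upperP_blocks (n g : ℕ) (hn : 0 < n) (hg : 0 < g) : ∃ Q : Program n,
    (∀ W : Fin n → Fin n → ℝ, (∀ u v, 0 ≤ W u v) → Correct (fun _ : Unit => Q) W) ∧
    (∀ b, FiniteDimensional ℝ (Q.E b) ∧ Module.finrank ℝ (Q.E b) ≤ 2 * ((3 * g) * (3 * g))) ∧
    Fintype.card Q.ι = (n / g + 1) * ((n / g + 1) * (n / g + 1)) := by
  let S : Type := (Fin 3 × Fin g) × (Fin 3 × Fin g)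
  let Q : Program n :=
    { X := Fin n → Fin n → ℝ
      κ := Empty
      eqn := fun e => e.elim
      ι := Fin (n / g + 1) × Fin (n / g + 1) × Fin (n / g + 1)
      E := fun _ => (S → ℝ) × (S → ℝ)
      instE₁ := fun _ => inferInstance
      instE₂ := fun _ => inferInstance
      C := fun _ => {z | (∀ p q, z.2 (p, q) ≤ z.1 (p, q)) ∧
        ∀ p q r, z.2 (p, r) ≤ z.2 (p, q) + z.2 (q, r)}
      convex := by
        intro _ D hD D' hD' a b ha hb _
        refine ⟨fun p q => ?_, fun p q r => ?_⟩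
        · simp only [Prod.snd_add, Prod.fst_add, Prod.smul_snd, Prod.smul_fst, Pi.add_apply,
            Pi.smul_apply, smul_eq_mul]
          have h1 := mul_le_mul_of_nonneg_left (hD.1 p q) ha
          have h2 := mul_le_mul_of_nonneg_left (hD'.1 p q) hb
          linarith
        · simp only [Prod.snd_add, Prod.smul_snd, Pi.add_apply, Pi.smul_apply, smul_eq_mul]
          have h1 := mul_le_mul_of_nonneg_left (hD.2 p q r) ha
          have h2 := mul_le_mul_of_nonneg_left (hD'.2 p q r) hb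
          linarith
      A := fun b => LinearMap.toAffineMap
        { toFun := fun z : (Fin n → Fin n → ℝ) × (Fin n → Fin n → ℝ) =>
            ((fun pq : S => z.1 (upperPPt n g _ hn b pq.1) (upperPPt n g _ hn b pq.2)),
              fun pq : S => z.2 (upperPPt n g _ hn b pq.1) (upperPPt n g _ hn b pq.2))
          map_add' := fun _ _ => rfl
          map_smul' := fun _ _ => rfl }
      out := (LinearMap.snd ℝ (Fin n → Fin n → ℝ) (Fin n → Fin n → ℝ)).toAffineMap }
  refine ⟨Q, ?_, ?_, ?_⟩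
  · intro W hW
    refine ⟨?_, (), ?_⟩
    · intro _ x hx u v huv
      have h2 := hx.2
      change x u v ≤ dist W u v
      have hlt : ∀ u : Fin n, u.1 / g < n / g + 1 := fun u =>
        Nat.lt_succ_of_le (Nat.div_le_div_right u.2.le)
      apply le_dist_of_triangle _ _ huv
      · intro u v
        have h3 := (h2 (⟨u.1 / g, hlt u⟩, ⟨v.1 / g, hlt v⟩, ⟨v.1 / g, hlt v⟩)).1
          (0, ⟨u.1 % g, Nat.mod_lt _ hg⟩) (1, ⟨v.1 % g, Nat.mod_lt _ hg⟩)
        change x (upperPPt n g _ hn _ _) (upperPPt n g _ hn _ _) ≤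
          W (upperPPt n g _ hn _ _) (upperPPt n g _ hn _ _) at h3
        rw [upperPPt_eq hn _ _ u (by simp) rfl, upperPPt_eq hn _ _ v (by simp) rfl] at h3
        exact h3
      · intro u v w
        have h3 := (h2 (⟨u.1 / g, hlt u⟩, ⟨v.1 / g, hlt v⟩, ⟨w.1 / g, hlt w⟩)).2
          (0, ⟨u.1 % g, Nat.mod_lt _ hg⟩) (1, ⟨v.1 % g, Nat.mod_lt _ hg⟩)
          (2, ⟨w.1 % g, Nat.mod_lt _ hg⟩)
        change x (upperPPt n g _ hn _ _) (upperPPt n g _ hn _ _) ≤
          x (upperPPt n g _ hn _ _) (upperPPt n g _ hn _ _) +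
          x (upperPPt n g _ hn _ _) (upperPPt n g _ hn _ _) at h3
        rw [upperPPt_eq hn _ _ u (by simp) rfl, upperPPt_eq hn _ _ w (by simp) rfl,
          upperPPt_eq hn _ _ v (by simp) rfl] at h3
        exact h3
    · exact ⟨dist W, ⟨fun e => e.elim, fun b => ⟨fun p q => dist_le_weight hW _ _,
        fun p q r => dist_triangle hW _ _ _⟩⟩, fun u v _ => le_refl _⟩
  · intro b
    change FiniteDimensional ℝ ((S → ℝ) × (S → ℝ)) ∧ Module.finrank ℝ ((S → ℝ) × (S → ℝ)) ≤ _
    refine ⟨inferInstance, ?_⟩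
    rw [Module.finrank_prod, Module.finrank_fintype_fun_eq_card]
    simp [S]
    omega
  · change Fintype.card (Fin (n / g + 1) × Fin (n / g + 1) × Fin (n / g + 1)) = _
    simp

theorem upperP (n k : ℕ) (hk : 1 ≤ k) : ∃ Q : Program n,
    (∀ W : Fin n → Fin n → ℝ, (∀ u v, 0 ≤ W u v) → Correct (fun _ : Unit => Q) W) ∧
    (∀ b, FiniteDimensional ℝ (Q.E b) ∧ Module.finrank ℝ (Q.E b) ≤ k) ∧
    (Fintype.card Q.ι : ℝ) ≤ 3000 * ((n : ℝ) ^ 3 / (k : ℝ) ^ (3 / 2 : ℝ) + 1) := by
  have hk' : (1 : ℝ) ≤ k := by exact_mod_cast hk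
  have hs : 0 < Real.sqrt k := Real.sqrt_pos.mpr (lt_of_lt_of_le one_pos hk')
  have hs3 : 0 < Real.sqrt k ^ 3 := pow_pos hs 3
  have hn0 : (0 : ℝ) ≤ n := Nat.cast_nonneg n
  rw [upperP_rpow]
  by_cases hcase : n = 0 ∨ k < 18
  · obtain ⟨F, h1, h2, h3⟩ := upperP_one n
    refine ⟨F, h1, fun b => ⟨(h2 b).1, (h2 b).2.trans hk⟩, ?_⟩
    rw [h3]
    push_cast
    rcases hcase with h | h
    · subst h
      have : (0 : ℝ) ≤ ((0 : ℕ) : ℝ) ^ 3 / Real.sqrt k ^ 3 := by positivity
      push_cast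
      norm_num
    · have h4 : Real.sqrt k ≤ 5 := by
        rw [Real.sqrt_le_left (by norm_num)]
        have : (k : ℝ) ≤ 17 := by exact_mod_cast Nat.lt_succ_iff.mp h
        linarith
      have h5 : Real.sqrt k ^ 3 ≤ 125 := by
        calc Real.sqrt k ^ 3 ≤ 5 ^ 3 := pow_le_pow_left₀ hs.le h4 3
          _ = 125 := by norm_num
      have h6 : (n : ℝ) ^ 3 / 125 ≤ (n : ℝ) ^ 3 / Real.sqrt k ^ 3 :=
        div_le_div_of_nonneg_left (by positivity) hs3 h5
      have h7 : (n : ℝ) * n ≤ n * (n * n) := by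
        rcases Nat.eq_zero_or_pos n with h0 | h0
        · subst h0
          simp
        · have h8 : (1 : ℝ) ≤ n := by exact_mod_cast h0
          nlinarith [mul_nonneg hn0 hn0]
      have h8 : (n : ℝ) ^ 3 = n * (n * n) := by ring
      have h9 : (0 : ℝ) ≤ n * (n * n) := by positivity
      rw [h8] at h6 ⊢
      nlinarith
  · push Not at hcase
    obtain ⟨hn, hk9⟩ := hcase
    obtain ⟨g, hgdef⟩ : ∃ g, g = Nat.sqrt (k / 2) / 3 := ⟨_, rfl⟩
    have h3s : 3 ≤ Nat.sqrt (k / 2) := Nat.le_sqrt.mpr (by omega)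
    have hg : 0 < g := by omega
    obtain ⟨F, h1, h2, h3⟩ := upperP_blocks n g (Nat.pos_of_ne_zero hn) hg
    have hgk : 2 * ((3 * g) * (3 * g)) ≤ k := by
      have h4 : 3 * g ≤ Nat.sqrt (k / 2) := by omega
      have h5 := (Nat.mul_le_mul h4 h4).trans (Nat.sqrt_le (k / 2))
      omega
    refine ⟨F, h1, fun b => ⟨(h2 b).1, (h2 b).2.trans hgk⟩, ?_⟩
    rw [h3]
    have hgR : (1 : ℝ) ≤ g := by exact_mod_cast hg
    have hg0 : (0 : ℝ) < g := lt_of_lt_of_le one_pos hgR
    have h4 : Real.sqrt k ≤ 9 * g := by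
      rw [Real.sqrt_le_left (by positivity)]
      have h5 : k / 2 < (Nat.sqrt (k / 2) + 1) * (Nat.sqrt (k / 2) + 1) := Nat.lt_succ_sqrt _
      have h6 : Nat.sqrt (k / 2) + 1 ≤ 6 * g := by omega
      have h7 : k / 2 < (6 * g) * (6 * g) := h5.trans_le (Nat.mul_le_mul h6 h6)
      have h7' : k ≤ (9 * g) * (9 * g) := by
        have e1 : (6 * g) * (6 * g) = 36 * (g * g) := by ring
        have e2 : (9 * g) * (9 * g) = 81 * (g * g) := by ring
        rw [e1] at h7
        rw [e2]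
        omega
      have h8 : (k : ℝ) ≤ (9 * g) * (9 * g) := by exact_mod_cast h7'
      calc (k : ℝ) ≤ (9 * g) * (9 * g) := h8
        _ = (9 * (g : ℝ)) ^ 2 := by ring
    have h5 : Real.sqrt k ^ 3 ≤ 729 * (g : ℝ) ^ 3 := by
      calc Real.sqrt k ^ 3 ≤ (9 * (g : ℝ)) ^ 3 := pow_le_pow_left₀ hs.le h4 3
        _ = 729 * (g : ℝ) ^ 3 := by ring
    have h6 : (n : ℝ) ^ 3 / (g : ℝ) ^ 3 ≤ 729 * ((n : ℝ) ^ 3 / Real.sqrt k ^ 3) := by
      have h7 : (n : ℝ) ^ 3 / (729 * (g : ℝ) ^ 3) ≤ (n : ℝ) ^ 3 / Real.sqrt k ^ 3 :=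
        div_le_div_of_nonneg_left (by positivity) hs3 h5
      have h8 : (n : ℝ) ^ 3 / (g : ℝ) ^ 3 = 729 * ((n : ℝ) ^ 3 / (729 * (g : ℝ) ^ 3)) := by
        field_simp
      rw [h8]
      linarith
    obtain ⟨a, ha⟩ : ∃ a : ℝ, a = (n : ℝ) / g := ⟨_, rfl⟩
    have ha0 : 0 ≤ a := by rw [ha]; positivity
    have ha3 : a ^ 3 = (n : ℝ) ^ 3 / (g : ℝ) ^ 3 := by rw [ha, div_pow]
    have hle : ((n / g : ℕ) : ℝ) ≤ a := by rw [ha]; exact Nat.cast_div_le
    have hc0 : (0 : ℝ) ≤ ((n / g : ℕ) : ℝ) := Nat.cast_nonneg _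
    have h7 : (((n / g : ℕ) : ℝ) + 1) ^ 3 ≤ (a + 1) ^ 3 :=
      pow_le_pow_left₀ (by linarith) (by linarith) 3
    have h8 : (a + 1) ^ 3 ≤ 4 * a ^ 3 + 4 := by
      nlinarith [mul_nonneg (sq_nonneg (a - 1)) (by linarith : (0 : ℝ) ≤ a + 1)]
    have h9 : (0 : ℝ) ≤ (n : ℝ) ^ 3 / Real.sqrt k ^ 3 := by positivity
    push_cast
    have h10 : (((n / g : ℕ) : ℝ) + 1) * ((((n / g : ℕ) : ℝ) + 1) * (((n / g : ℕ) : ℝ) + 1)) =
        (((n / g : ℕ) : ℝ) + 1) ^ 3 := by ring
    rw [h10]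
    rw [ha3] at h8
    linarith

end Pool.Agent.ConvF
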